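import Mathlib

set_option autoImplicit false
set_option linter.all false

/-! A trigonometric majorant of `log |1 - u|`. -/

namespace Pool.Agent.N430.CV

open Finset

lemma alg_id (z : ℂ) (M : ℕ) :
    (1 - z) ^ 2 * ∑ n ∈ range M, ((M : ℂ) - (n + 1)) * z ^ n = M * (1 - z) - 1 + z ^ M := by
  induction M with
  | zero => simp
  | succ M ih =>
    have h1 : ∑ n ∈ range (M + 1), (((M + 1 : ℕ) : ℂ) - (n + 1)) * z ^ n =
        ∑ n ∈ range M, ((M : ℂ) - (n + 1)) * z ^ n + ∑ n ∈ range M, z ^ n := by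
      rw [Finset.sum_range_succ, ← Finset.sum_add_distrib]
      push_cast
      have : ((M : ℂ) + 1 - (M + 1)) * z ^ M = 0 := by ring
      rw [this, add_zero]
      refine Finset.sum_congr rfl fun n _ => ?_
      ring
    have h2 : (1 - z) * ∑ n ∈ range M, z ^ n = 1 - z ^ M := by
      have := mul_neg_geom_sum z M
      exact this
    rw [h1, mul_add, ih]
    have h3 : (1 - z) ^ 2 * ∑ n ∈ range M, z ^ n = (1 - z) * (1 - z ^ M) := by
      rw [← h2]
      ring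
    rw [h3]
    push_cast
    ring

/-- the auxiliary function -/
noncomputable def W (u : ℂ) (M : ℕ) (t : ℂ) : ℂ :=
  Complex.log (1 - t * u) + ∑ n ∈ range M, (1 - ((n : ℂ) + 1) / M) * ((t * u) ^ (n + 1) / (n + 1)) +
    (1 / M) * (1 - t * u)⁻¹

lemma one_sub_ne {u : ℂ} (hu : ‖u‖ = 1) {x : ℝ} (h0 : 0 ≤ x) (h1 : x < 1) :
    0 < (1 - (x : ℂ) * u).re ∧ 1 - x ≤ ‖1 - (x : ℂ) * u‖ := by
  have h2 : ‖(x : ℂ) * u‖ = x := by
    rw [norm_mul, hu, mul_one, Complex.norm_real, Real.norm_eq_abs, abs_of_nonneg h0]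
  constructor
  · have h3 := Complex.re_le_norm ((x : ℂ) * u)
    rw [h2] at h3
    rw [Complex.sub_re, Complex.one_re]
    linarith
  · have h3 := norm_sub_norm_le (1 : ℂ) ((x : ℂ) * u)
    rw [h2, norm_one] at h3
    exact h3

lemma W_deriv {u : ℂ} (hu : ‖u‖ = 1) {M : ℕ} (hM : 1 ≤ M) {x : ℝ} (h0 : 0 ≤ x) (h1 : x < 1) :
    HasDerivAt (W u M) (u / M * ((x : ℂ) * u) ^ M / (1 - (x : ℂ) * u) ^ 2) (x : ℂ) := by
  obtain ⟨hre, _⟩ := one_sub_ne hu h0 h1
  have hne : 1 - (x : ℂ) * u ≠ 0 := by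
    intro h
    rw [h] at hre
    simp at hre
  have hMC : (M : ℂ) ≠ 0 := by exact_mod_cast (by omega : M ≠ 0)
  have d0 : HasDerivAt (fun t : ℂ => t * u) u (x : ℂ) := by
    simpa using (hasDerivAt_id (x : ℂ)).mul_const u
  have d1 : HasDerivAt (fun t : ℂ => 1 - t * u) (-u) (x : ℂ) := by
    simpa using d0.const_sub 1
  have d2 : HasDerivAt (fun t : ℂ => Complex.log (1 - t * u)) (-u / (1 - (x : ℂ) * u)) (x : ℂ) :=
    d1.clog (Or.inl hre)
  have d3 : HasDerivAt (fun t : ℂ => ∑ n ∈ range M, (1 - ((n : ℂ) + 1) / M) * ((t * u) ^ (n + 1) / (n + 1)))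
      (∑ n ∈ range M, (1 - ((n : ℂ) + 1) / M) * (((x : ℂ) * u) ^ n * u)) (x : ℂ) := by
    refine HasDerivAt.fun_sum fun n _ => ?_
    refine HasDerivAt.const_mul _ ?_
    have d4 := (d0.pow (n + 1)).div_const ((n : ℂ) + 1)
    refine d4.congr_deriv ?_
    have hn : (n : ℂ) + 1 ≠ 0 := by exact_mod_cast (by omega : n + 1 ≠ 0)
    rw [Nat.add_sub_cancel]
    push_cast
    field_simp
  have d5 : HasDerivAt (fun t : ℂ => (1 / (M : ℂ)) * (1 - t * u)⁻¹)
      ((1 / M) * (-(-u) / (1 - (x : ℂ) * u) ^ 2)) (x : ℂ) := (d1.fun_inv hne).const_mul _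
  have d6 := (d2.add d3).add d5
  refine d6.congr_deriv ?_
  have h5 := alg_id ((x : ℂ) * u) M
  set z := (x : ℂ) * u with hz
  have h6 : ∑ n ∈ range M, (1 - ((n : ℂ) + 1) / M) * (z ^ n * u) =
      u / M * ∑ n ∈ range M, ((M : ℂ) - (n + 1)) * z ^ n := by
    rw [Finset.mul_sum]
    refine Finset.sum_congr rfl fun n _ => ?_
    field_simp
  have h7 : ∑ n ∈ range M, ((M : ℂ) - (n + 1)) * z ^ n = (M * (1 - z) - 1 + z ^ M) / (1 - z) ^ 2 := by
    rw [eq_div_iff (pow_ne_zero _ hne), ← h5]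
    ring
  rw [h6, h7]
  field_simp
  ring

lemma normSq_one_sub {u : ℂ} (hu : ‖u‖ = 1) (x : ℝ) :
    ‖1 - (x : ℂ) * u‖ ^ 2 = 1 - 2 * x * u.re + x ^ 2 := by
  have h1 : u.re ^ 2 + u.im ^ 2 = 1 := by
    have h2 : ‖u‖ ^ 2 = u.re ^ 2 + u.im ^ 2 := by
      rw [← Complex.normSq_eq_norm_sq, Complex.normSq_apply]
      ring
    rw [← h2, hu]
    norm_num
  rw [← Complex.normSq_eq_norm_sq, Complex.normSq_apply]
  simp only [Complex.sub_re, Complex.one_re, Complex.mul_re, Complex.ofReal_re, Complex.ofReal_im,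
    zero_mul, sub_zero, Complex.sub_im, Complex.one_im, Complex.mul_im, zero_sub, add_zero]
  nlinarith

lemma inv_re {u : ℂ} (hu : ‖u‖ = 1) {x : ℝ} (hn : 0 < ‖1 - (x : ℂ) * u‖) :
    ((1 - (x : ℂ) * u)⁻¹).re = 1 / 2 + (1 - x ^ 2) / (2 * ‖1 - (x : ℂ) * u‖ ^ 2) := by
  have h1 := normSq_one_sub hu x
  rw [Complex.inv_re, Complex.normSq_eq_norm_sq]
  have h2 : (1 - (x : ℂ) * u).re = 1 - x * u.re := by
    simp
  rw [h2]
  have h3 : 1 - x * u.re = (‖1 - (x : ℂ) * u‖ ^ 2 + 1 - x ^ 2) / 2 := by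
    rw [h1]
    ring
  rw [h3]
  have h4 : ‖1 - (x : ℂ) * u‖ ^ 2 ≠ 0 := by positivity
  field_simp
  ring

/-- **The inequality inside the disc.** -/
theorem inside {u : ℂ} (hu : ‖u‖ = 1) {M : ℕ} (hM : 1 ≤ M) {ρ : ℝ} (h0 : 0 ≤ ρ) (h1 : ρ < 1)
    (h8 : 8 * ρ ^ (M + 1) ≤ (M + 1) * (1 - ρ ^ 2)) :
    Real.log ‖1 - (ρ : ℂ) * u‖ + ∑ n ∈ range M, (1 - ((n : ℝ) + 1) / M) * (ρ ^ (n + 1) *
      (u ^ (n + 1)).re / (n + 1)) ≤ 1 / (2 * M) := by
  have hMr : (0 : ℝ) < M := by exact_mod_cast hM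
  obtain ⟨hre, hno⟩ := one_sub_ne hu h0 h1
  set A := ‖1 - (ρ : ℂ) * u‖ with hA
  have hA0 : 0 < A := by linarith
  set κ : ℝ := 4 / (M * (M + 1) * A ^ 2) with hκ
  set h : ℝ → ℝ := fun x => (W u M (x : ℂ)).re - κ * x ^ (M + 1) with hh
  have hder : ∀ x : ℝ, 0 ≤ x → x < 1 → HasDerivAt h ((u / M * ((x : ℂ) * u) ^ M /
      (1 - (x : ℂ) * u) ^ 2).re - κ * (((M + 1 : ℕ) : ℝ) * x ^ M)) x := by
    intro x hx0 hx1
    have d1 := (W_deriv hu hM hx0 hx1).real_of_complex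
    have d2 : HasDerivAt (fun x : ℝ => κ * x ^ (M + 1)) (κ * (((M + 1 : ℕ) : ℝ) * x ^ M)) x := by
      have := (hasDerivAt_pow (M + 1) x).const_mul κ
      rwa [Nat.add_sub_cancel] at this
    exact d1.sub d2
  have hanti : AntitoneOn h (Set.Icc 0 ρ) := by
    apply antitoneOn_of_deriv_nonpos (convex_Icc 0 ρ)
    · intro x hx
      exact (hder x hx.1 (lt_of_le_of_lt hx.2 h1)).continuousAt.continuousWithinAt
    · intro x hx
      rw [interior_Icc] at hx
      exact (hder x hx.1.le (hx.2.trans h1)).differentiableAt.differentiableWithinAt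
    · intro x hx
      rw [interior_Icc] at hx
      have hx1 : x < 1 := hx.2.trans h1
      rw [(hder x hx.1.le hx1).deriv]
      obtain ⟨hre', hno'⟩ := one_sub_ne hu hx.1.le hx1
      set B := ‖1 - (x : ℂ) * u‖ with hB
      have hB0 : 0 < B := by linarith
      have h2 : A ≤ 2 * B := by
        have h3 : 1 - (ρ : ℂ) * u = (1 - (x : ℂ) * u) - ((ρ - x : ℝ) : ℂ) * u := by
          push_cast
          ring
        have h4 : A ≤ B + (ρ - x) := by
          rw [hA, h3]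
          refine (norm_sub_le _ _).trans ?_
          rw [norm_mul, hu, mul_one, Complex.norm_real, Real.norm_eq_abs, abs_of_nonneg (by linarith [hx.2])]
        linarith
      have h3 : (u / M * ((x : ℂ) * u) ^ M / (1 - (x : ℂ) * u) ^ 2).re ≤ x ^ M / (M * B ^ 2) := by
        refine (Complex.re_le_norm _).trans (le_of_eq ?_)
        rw [norm_div, norm_mul, norm_div, norm_pow, norm_pow, norm_mul, hu, Complex.norm_natCast,
          Complex.norm_real, Real.norm_eq_abs, abs_of_nonneg hx.1.le, ← hB]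
        field_simp
      have h4 : κ * (((M + 1 : ℕ) : ℝ) * x ^ M) = 4 * x ^ M / (M * A ^ 2) := by
        rw [hκ]
        push_cast
        field_simp
      have h5 : x ^ M / (M * B ^ 2) ≤ 4 * x ^ M / (M * A ^ 2) := by
        rw [div_le_div_iff₀ (by positivity) (by positivity)]
        have h6 : A ^ 2 ≤ 4 * B ^ 2 := by nlinarith
        have h7 : 0 ≤ x ^ M := pow_nonneg hx.1.le M
        have h9 : 0 ≤ x ^ M * M := by positivity
        nlinarith
      rw [h4]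
      linarith
  have key := hanti (Set.left_mem_Icc.2 h0) (Set.right_mem_Icc.2 h0) h0
  -- the value at 0
  have e0 : h 0 = 1 / M := by
    rw [hh]
    simp only [W, Complex.ofReal_zero, zero_mul, sub_zero, Complex.log_one, inv_one]
    have : ∑ n ∈ range M, (1 - ((n : ℂ) + 1) / M) * ((0 : ℂ) ^ (n + 1) / (n + 1)) = 0 := by
      refine Finset.sum_eq_zero fun n _ => ?_
      simp
    rw [this]
    have h2 : (1 / (M : ℂ)) = ((1 / M : ℝ) : ℂ) := by push_cast; rfl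
    simp only [zero_add, mul_one, h2, Complex.ofReal_re]
    simp
  -- the value at ρ
  have e1 : h ρ = Real.log A + ∑ n ∈ range M, (1 - ((n : ℝ) + 1) / M) * (ρ ^ (n + 1) *
      (u ^ (n + 1)).re / (n + 1)) + (1 / M) * (1 / 2 + (1 - ρ ^ 2) / (2 * A ^ 2)) - κ * ρ ^ (M + 1) := by
    rw [hh]
    simp only [W, Complex.add_re, Complex.log_re]
    congr 2
    · congr 1
      rw [Complex.re_sum]
      refine Finset.sum_congr rfl fun n _ => ?_
      have h2 : (1 - ((n : ℂ) + 1) / M) * (((ρ : ℂ) * u) ^ (n + 1) / (n + 1)) =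
          (((1 - ((n : ℝ) + 1) / M) * (ρ ^ (n + 1) / (n + 1)) : ℝ) : ℂ) * u ^ (n + 1) := by
        push_cast
        rw [mul_pow]
        ring
      rw [h2, Complex.re_ofReal_mul]
      ring
    · have h2 : (1 / (M : ℂ)) = ((1 / M : ℝ) : ℂ) := by push_cast; rfl
      rw [h2, Complex.re_ofReal_mul, inv_re hu (by rw [← hA]; exact hA0)]
  rw [e0, e1] at key
  have h9 : κ * ρ ^ (M + 1) ≤ (1 / M) * ((1 - ρ ^ 2) / (2 * A ^ 2)) := by
    rw [hκ]
    have e2 : 4 / (M * (M + 1) * A ^ 2) * ρ ^ (M + 1) = (8 * ρ ^ (M + 1)) * (1 / (2 * M * (M + 1) * A ^ 2)) := by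
      field_simp
      ring
    have e3 : (1 / M) * ((1 - ρ ^ 2) / (2 * A ^ 2)) = ((M + 1) * (1 - ρ ^ 2)) * (1 / (2 * M * (M + 1) * A ^ 2)) := by
      field_simp
    rw [e2, e3]
    exact mul_le_mul_of_nonneg_right h8 (by positivity)
  have e4 : (1 : ℝ) / (2 * M) = 1 / M - 1 / M * (1 / 2) := by
    field_simp
    ring
  rw [e4]
  nlinarith

/-- the coefficients -/
noncomputable def cf (M n : ℕ) : ℝ := (1 - (n : ℝ) / M) * (1 - 2 / (M : ℝ)) ^ n

/-- **The majorant.** -/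
theorem majorant {u : ℂ} (hu : ‖u‖ = 1) {M : ℕ} (hM : 3 ≤ M) :
    ‖1 - u‖ ≤ Real.exp (-(∑ n ∈ range M, cf M (n + 1) / ((n : ℝ) + 1) * (u ^ (n + 1)).re) + 2 / M) := by
  have hMr : (3 : ℝ) ≤ M := by exact_mod_cast hM
  have hM0 : (0 : ℝ) < M := by linarith
  set ρ : ℝ := 1 - 2 / (M : ℝ) with hρ
  have hy : 2 / (M : ℝ) ≤ 2 / 3 := div_le_div_of_nonneg_left (by norm_num) (by norm_num) hMr
  have hy0 : 0 < 2 / (M : ℝ) := by positivity
  have h0 : 0 ≤ ρ := by rw [hρ]; linarith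
  have h1 : ρ < 1 := by rw [hρ]; linarith
  have h8 : 8 * ρ ^ (M + 1) ≤ (M + 1) * (1 - ρ ^ 2) := by
    have h2 : ρ ^ (M + 1) ≤ 1 / 7 := by
      have h3 : ρ ≤ Real.exp (-(2 / M)) := by
        have := Real.add_one_le_exp (-(2 / (M : ℝ)))
        rw [hρ]
        linarith
      have h4 : ρ ^ (M + 1) ≤ Real.exp (-2) := by
        calc ρ ^ (M + 1) ≤ ρ ^ M := pow_le_pow_of_le_one h0 h1.le (Nat.le_succ M)
          _ ≤ Real.exp (-(2 / M)) ^ M := pow_le_pow_left₀ h0 h3 M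
          _ = Real.exp (-2) := by
            rw [← Real.exp_nat_mul]
            congr 1
            field_simp
      have h5 : Real.exp (-2) ≤ 1 / 7 := by
        rw [Real.exp_neg, one_div]
        apply inv_anti₀ (by norm_num)
        have h6 : Real.exp 2 = Real.exp 1 ^ 2 := by
          rw [← Real.exp_nat_mul]
          norm_num
        rw [h6]
        have := Real.exp_one_gt_d9
        nlinarith
      linarith
    have h3 : (M + 1) * (1 - ρ ^ 2) = 4 * (1 - 1 / (M : ℝ) ^ 2) := by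
      rw [hρ]
      field_simp
      ring
    rw [h3]
    have h4 : 1 / (M : ℝ) ^ 2 ≤ 1 / 9 := by
      apply div_le_div_of_nonneg_left (by norm_num) (by norm_num)
      nlinarith
    linarith
  have key := inside hu (by omega) h0 h1 h8
  obtain ⟨hre, hno⟩ := one_sub_ne hu h0 h1
  set A := ‖1 - (ρ : ℂ) * u‖ with hA
  have hA0 : 0 < A := by linarith
  -- ‖1 - u‖ ≤ A / (1 - 1/M)
  have h2 : (1 - 1 / (M : ℝ)) * ‖1 - u‖ ≤ A := by
    have h3 := normSq_one_sub hu ρ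
    have h4 := normSq_one_sub hu 1
    rw [Complex.ofReal_one, one_mul] at h4
    have h5 : |u.re| ≤ 1 := by rw [← hu]; exact Complex.abs_re_le_norm u
    have h6 := (abs_le.1 h5).1
    rw [← hA] at h3
    have h7 : 0 ≤ 1 - 1 / (M : ℝ) := by
      have : 1 / (M : ℝ) ≤ 1 := by
        rw [div_le_one hM0]
        linarith
      linarith
    have e : (1 - 1 / (M : ℝ)) = (1 + ρ) / 2 := by
      rw [hρ]
      ring
    refine abs_le_of_sq_le_sq' ?_ hA0.le |>.2
    rw [mul_pow, h3, h4, e]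
    have : 0 ≤ (1 - ρ) ^ 2 * (1 + u.re) := by
      have : 0 ≤ 1 + u.re := by linarith
      positivity
    nlinarith
  have h3 : 1 ≤ (1 - 1 / (M : ℝ)) * Real.exp (3 / 2 * (1 / M)) := by
    have h4 := Real.add_one_le_exp (3 / 2 * (1 / (M : ℝ)))
    set y := 1 / (M : ℝ) with hyd
    have h5 : y ≤ 1 / 3 := div_le_div_of_nonneg_left (by norm_num) (by norm_num) hMr
    have h6 : 0 < y := by positivity
    nlinarith
  have h4 : ‖1 - u‖ ≤ A * Real.exp (3 / 2 * (1 / M)) := by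
    have h5 : (0 : ℝ) < Real.exp (3 / 2 * (1 / M)) := Real.exp_pos _
    calc ‖1 - u‖ = 1 * ‖1 - u‖ := (one_mul _).symm
      _ ≤ ((1 - 1 / (M : ℝ)) * Real.exp (3 / 2 * (1 / M))) * ‖1 - u‖ :=
          mul_le_mul_of_nonneg_right h3 (norm_nonneg _)
      _ = ((1 - 1 / (M : ℝ)) * ‖1 - u‖) * Real.exp (3 / 2 * (1 / M)) := by ring
      _ ≤ _ := mul_le_mul_of_nonneg_right h2 h5.le
  refine h4.trans ?_
  have h5 : A = Real.exp (Real.log A) := (Real.exp_log hA0).symm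
  rw [h5, ← Real.exp_add]
  apply Real.exp_le_exp.2
  have h6 : ∑ n ∈ range M, (1 - ((n : ℝ) + 1) / M) * (ρ ^ (n + 1) * (u ^ (n + 1)).re / (n + 1)) =
      ∑ n ∈ range M, cf M (n + 1) / ((n : ℝ) + 1) * (u ^ (n + 1)).re := by
    refine Finset.sum_congr rfl fun n _ => ?_
    unfold cf
    rw [← hρ]
    push_cast
    ring
  rw [h6] at key
  have e5 : (2 : ℝ) / M = 1 / (2 * M) + 3 / 2 * (1 / M) := by
    field_simp
    ring
  rw [e5]
  linarith

end Pool.Agent.N430.CV
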