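import Pool.Agent.N430.CV.B9
import Pool.Agent.N430.RT.A5

set_option autoImplicit false
set_option linter.all false

/-! The moments of the central values: the theorem. -/

namespace Pool.Agent.N430.CV

open Finset Polynomial Pool.Agent.N430.BP Pool.Agent.N430.BP.FF Pool.Agent.R410.NG Pool.Agent.N430.RT
open Filter

/-- **The moments.** -/
theorem mom_main {κ t ε : ℝ} (hκ : 1 ≤ κ) (ht : 0 < t) (hε : 0 < ε) :
    ∃ C : ℝ, 0 < C ∧ ∀ (k : Type) [Field k] [Fintype k], ringChar k ≠ 2 →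
      ∀ f₀ : k[X][X], f₀.Monic → f₀.natDegree = 3 → ∀ N : ℕ, 1 ≤ N → ∀ val : VV k N → ℝ,
      Vals f₀ κ N val → mn (fun v => val v ^ t) ≤ C * (N : ℝ) ^ (t * (t - 1) / 2 + ε) := by
  set δ : ℝ := min 1 (ε / (3 * t)) with hδ
  have hδ0 : 0 < δ := lt_min one_pos (by positivity)
  have hδ1 : δ ≤ 1 := min_le_left _ _
  have hδε : 5 / 2 * t * δ ≤ ε := by
    have h1 : δ ≤ ε / (3 * t) := min_le_right _ _
    calc 5 / 2 * t * δ ≤ 5 / 2 * t * (ε / (3 * t)) := mul_le_mul_of_nonneg_left h1 (by positivity)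
      _ = 5 / 6 * ε := by
        field_simp
        ring
      _ ≤ ε := by linarith
  set A : ℝ := 1500 * Real.exp (136 * κ * (t + 1)) with hA
  set B : ℝ := 2 * t * A + t with hB
  set A1 : ℝ := 300 * (B + 1) with hA1
  set G : ℝ := 2 * B + 4 * t * A1 + 5 with hG
  set V2 : ℝ := 3 * κ * G / δ with hV2
  set B2 : ℝ := 24 * κ * B / δ with hB2
  have hlog : Tendsto (fun N : ℕ => Real.log N) atTop atTop :=
    Real.tendsto_log_atTop.comp tendsto_natCast_atTop_atTop
  have hev : ∀ᶠ N : ℕ in atTop, 3 ≤ N ∧ Real.log (Real.log N) ≤ δ * Real.log N ∧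
      24 * κ / δ ≤ Real.log N ∧ 1024 * V2 * Real.exp B2 / (κ * δ) ≤ Real.log N := by
    have e1 : ∀ᶠ x : ℝ in atTop, Real.log x ≤ δ * x := by
      have h1 := (Real.isLittleO_log_id_atTop.def hδ0)
      filter_upwards [h1, eventually_ge_atTop (0 : ℝ)] with x hx hx0
      rw [Real.norm_eq_abs, Real.norm_eq_abs, id, abs_of_nonneg hx0] at hx
      exact (le_abs_self _).trans hx
    filter_upwards [eventually_ge_atTop 3, hlog.eventually e1, hlog.eventually_ge_atTop (24 * κ / δ),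
      hlog.eventually_ge_atTop (1024 * V2 * Real.exp B2 / (κ * δ))] with N h1 h2 h3 h4
    exact ⟨h1, h2, h3, h4⟩
  obtain ⟨N₀, hN₀⟩ := eventually_atTop.1 hev
  set N₁ : ℝ := max (N₀ : ℝ) 1 with hN₁
  have hN₁1 : 1 ≤ N₁ := le_max_right _ _
  set C2 : ℝ := 4 * Real.exp (82 * t + t ^ 2 / 2 + Ct t) with hC2
  have hC20 : 0 < C2 := by positivity
  have hq : -(1 : ℝ) ≤ t * (t - 1) / 2 := by nlinarith [sq_nonneg (t - 1 / 2)]
  refine ⟨Real.exp (t * (κ * N₁)) * N₁ + (2 * Real.exp t + C2 + 2), by positivity, ?_⟩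
  intro k _ _ h2 f₀ hf hd N hN val hv
  have hNr : (1 : ℝ) ≤ N := by exact_mod_cast hN
  have hN0 : (0 : ℝ) < N := by linarith
  set p : ℝ := t * (t - 1) / 2 + ε with hp
  have hNp : 0 < (N : ℝ) ^ p := Real.rpow_pos_of_pos hN0 p
  by_cases hsmall : N < N₀
  · -- small N
    have h1 : (N : ℝ) ≤ N₁ := le_trans (by exact_mod_cast hsmall.le) (le_max_left _ _)
    have h3 : mn (fun v => val v ^ t) ≤ Real.exp (t * (κ * N₁)) := by
      have h4 : mn (fun v => val v ^ t) ≤ mn (fun _ : VV k N => Real.exp (t * (κ * N₁))) := by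
        refine mn_mono fun v => ?_
        obtain ⟨v0, v1, _⟩ := hv v
        calc val v ^ t ≤ Real.exp (κ * N) ^ t := Real.rpow_le_rpow v0 v1 ht.le
          _ = Real.exp (κ * N * t) := by rw [← Real.exp_mul]
          _ ≤ _ := by
            apply Real.exp_le_exp.2
            have := mul_le_mul_of_nonneg_left h1 (by positivity : 0 ≤ κ * t)
            nlinarith
      rwa [mn_const] at h4
    have h4 : 1 ≤ N₁ * (N : ℝ) ^ p := by
      have h5 : (N : ℝ) ^ (-(1 : ℝ)) ≤ (N : ℝ) ^ p := Real.rpow_le_rpow_of_exponent_le hNr (by linarith)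
      rw [Real.rpow_neg_one] at h5
      calc (1 : ℝ) = N * (N : ℝ)⁻¹ := (mul_inv_cancel₀ hN0.ne').symm
        _ ≤ N₁ * (N : ℝ) ^ p := mul_le_mul h1 h5 (by positivity) (by linarith)
    have h5 : 0 < Real.exp (t * (κ * N₁)) := Real.exp_pos _
    have h6 : 0 ≤ (2 * Real.exp t + C2 + 2) * (N : ℝ) ^ p := by positivity
    calc mn (fun v => val v ^ t) ≤ Real.exp (t * (κ * N₁)) * 1 := by rw [mul_one]; exact h3
      _ ≤ Real.exp (t * (κ * N₁)) * (N₁ * (N : ℝ) ^ p) := mul_le_mul_of_nonneg_left h4 h5.le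
      _ ≤ _ := by nlinarith
  · push Not at hsmall
    obtain ⟨c1, c2, c3, c4⟩ := hN₀ N hsmall
    have key := core h2 hf hd hκ ht c1 hv hδ0 hδ1 hA hB hA1 hG hV2 hB2 c2 c3 c4
    set ℓ := Real.log N with hℓ
    have hℓ0 : 0 ≤ ℓ := Real.log_nonneg hNr
    have hpow : (N : ℝ) ^ p = Real.exp (p * ℓ) := by
      rw [Real.rpow_def_of_pos hN0, mul_comm]
    have b1 : Real.exp (-ℓ) ≤ (N : ℝ) ^ p := by
      rw [hpow]
      apply Real.exp_le_exp.2
      nlinarith
    have b2 : Real.exp ((t ^ 2 / 2 - t / 2 + 5 / 2 * t * δ) * ℓ) ≤ (N : ℝ) ^ p := by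
      rw [hpow]
      apply Real.exp_le_exp.2
      refine mul_le_mul_of_nonneg_right ?_ hℓ0
      rw [hp]
      linarith
    have b3 : Real.exp (-(t * ℓ)) ≤ (N : ℝ) ^ p := by
      rw [hpow]
      apply Real.exp_le_exp.2
      have : -t ≤ p := by
        rw [hp]
        nlinarith
      nlinarith
    have c5 := mul_le_mul_of_nonneg_left b1 (by positivity : 0 ≤ 2 * Real.exp t)
    have c6 := mul_le_mul_of_nonneg_left b2 hC20.le
    have h6 : 0 ≤ Real.exp (t * (κ * N₁)) * N₁ * (N : ℝ) ^ p := by positivity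
    calc mn (fun v => val v ^ t) ≤ 2 * Real.exp t * Real.exp (-ℓ) +
        (C2 * Real.exp ((t ^ 2 / 2 - t / 2 + 5 / 2 * t * δ) * ℓ) + 2 * Real.exp (-(t * ℓ))) := key
      _ ≤ _ := by nlinarith

section
variable {k : Type} [Field k] [Fintype k]

/-- shift of the constant coefficient -/
noncomputable def LD.shift {f₀ : k[X][X]} {A B h : k[X]} {K : ℝ} (E : LD f₀ A (B + h) K) :
    LD (f₀ + C h) A B K where
  D := E.D
  α := E.α
  loc := E.loc
  inf := E.inf
  hD := E.hD
  hα := E.hα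
  hloc := E.hloc
  hinf := E.hinf
  htr := fun P h1 h2 h3 => by
    rw [trP_shift]
    refine E.htr P h1 h2 ?_
    intro x hx
    apply h3 x
    simpa [Polynomial.map_add, Polynomial.map_C, eval_add, eval_C, map_add, add_assoc, add_comm,
      add_left_comm] using hx
  hpr := fun P h1 h2 h3 => by
    refine E.hpr P h1 h2 ?_
    intro x hx
    apply h3 x
    simpa [Polynomial.map_add, Polynomial.map_C, eval_add, eval_C, map_add, add_assoc, add_comm,
      add_left_comm] using hx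
  hform := E.hform

/-- transport -/
noncomputable def LD.trans {f₀ : k[X][X]} {A B B' : k[X]} {K K' : ℝ} (E : LD f₀ A B K) (hB : B = B')
    (hK : K = K') : LD f₀ A B' K' where
  D := E.D
  α := E.α
  loc := E.loc
  inf := E.inf
  hD := by rw [← hK]; exact E.hD
  hα := E.hα
  hloc := E.hloc
  hinf := E.hinf
  htr := fun P h1 h2 h3 => by rw [← hB] at h3 ⊢; exact E.htr P h1 h2 h3
  hpr := fun P h1 h2 h3 => by rw [← hB] at h3; exact E.hpr P h1 h2 h3
  hform := E.hform

lemma val_trivial {f₀ : k[X][X]} {A B : k[X]} {K : ℝ} (E : LD f₀ A B K) :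
    0 ≤ E.val ∧ E.val ≤ Real.exp K := by
  have hq0 : (0 : ℝ) < Fintype.card k := by exact_mod_cast Fintype.card_pos
  unfold LD.val
  refine ⟨Finset.prod_nonneg fun i _ => norm_nonneg _, ?_⟩
  have h1 : ∏ i, ‖1 - E.α i / Fintype.card k‖ ≤ ∏ i : Fin E.D, (2 : ℝ) := by
    refine Finset.prod_le_prod (fun i _ => norm_nonneg _) fun i _ => ?_
    refine (norm_sub_le _ _).trans ?_
    rw [norm_div, E.hα i, Complex.norm_natCast, div_self hq0.ne', norm_one]
    norm_num
  refine h1.trans ?_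
  rw [Finset.prod_const, card_univ, Fintype.card_fin]
  calc (2 : ℝ) ^ E.D ≤ Real.exp 1 ^ E.D :=
        pow_le_pow_left₀ (by norm_num) (by linarith [Real.exp_one_gt_d9]) _
    _ = Real.exp E.D := by rw [← Real.exp_nat_mul, mul_one]
    _ ≤ _ := Real.exp_le_exp.2 E.hD

end

/-- **The moments of a family.** -/
theorem mom_family {κ t ε : ℝ} (hκ : 1 ≤ κ) (ht : 0 < t) (hε : 0 < ε) :
    ∃ C : ℝ, 0 < C ∧ ∀ (k : Type) [Field k] [Fintype k], ringChar k ≠ 2 →
      ∀ f₀ : k[X][X], f₀.Monic → f₀.natDegree = 3 → ∀ N : ℕ, 1 ≤ N →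
      ∀ (T : Type) [Fintype T] (w : T → VV k N) (_ : Function.Injective w)
        (E : ∀ v : T, LD f₀ ((w v).1 : k[X]) ((w v).2 : k[X]) (κ * N)),
        (∑ v : T, (E v).val ^ t) ≤ C * (N : ℝ) ^ (t * (t - 1) / 2 + ε) * (Fintype.card k : ℝ) ^ (2 * N) := by
  classical
  obtain ⟨C, hC, H⟩ := mom_main hκ ht hε
  refine ⟨C, hC, fun k _ _ h2 f₀ hf hd N hN T _ w hw E => ?_⟩
  set val : VV k N → ℝ := fun u => if h : ∃ v, w v = u then (E h.choose).val else 0 with hval
  have hvw : ∀ v, val (w v) = (E v).val := by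
    intro v
    have h : ∃ v', w v' = w v := ⟨v, rfl⟩
    have h3 : h.choose = v := hw h.choose_spec
    simp only [hval]
    rw [dif_pos h, h3]
  have hV : Vals f₀ κ N val := by
    intro u
    by_cases h : ∃ v, w v = u
    · obtain ⟨v, rfl⟩ := h
      rw [hvw]
      obtain ⟨v0, v1⟩ := val_trivial (E v)
      refine ⟨v0, v1, fun M hM => ?_⟩
      exact val_le hf hd (E v) hM
    · have : val u = 0 := by
        simp only [hval]
        rw [dif_neg h]
      rw [this]
      exact ⟨le_rfl, (Real.exp_pos _).le, fun M _ => (Real.exp_pos _).le⟩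
  have key := H k h2 f₀ hf hd N hN val hV
  have hc : (0 : ℝ) < Fintype.card (VV k N) := by exact_mod_cast Fintype.card_pos
  unfold mn at key
  rw [div_le_iff₀ hc, card_VV] at key
  have h3 : (∑ v : T, (E v).val ^ t) ≤ ∑ u : VV k N, val u ^ t := by
    calc (∑ v : T, (E v).val ^ t) = ∑ v : T, val (w v) ^ t :=
          Finset.sum_congr rfl fun v _ => by rw [hvw]
      _ = ∑ u ∈ univ.image w, val u ^ t := by
          rw [Finset.sum_image fun a _ b _ h => hw h]
      _ ≤ _ := Finset.sum_le_sum_of_subset_of_nonneg (subset_univ _) fun u _ _ =>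
          Real.rpow_nonneg (hV u).1 t
  refine h3.trans (key.trans (le_of_eq ?_))
  push_cast
  rfl

/-- **The moments over all elliptic curves.** -/
theorem mom_ell {t ε : ℝ} (ht : 0 < t) (hε : 0 < ε) :
    ∃ C : ℝ, 0 < C ∧ ∀ (k : Type) [Field k] [Fintype k], ringChar k ≠ 2 →
      ∀ d : ℕ, 1 ≤ d → ∀ (T : Type) [Fintype T] (w : T → k[X] × k[X])
        (_ : Function.Injective w) (_ : ∀ v, (w v).1.degree < 4 * d ∧ (w v).2.degree < 6 * d)
        (E : ∀ v : T, LD (X ^ 3) (w v).1 (w v).2 (12 * d)),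
        (∑ v : T, (E v).val ^ t) ≤
          C * (d : ℝ) ^ (t * (t - 1) / 2 + ε) * (Fintype.card k : ℝ) ^ (10 * d) := by
  classical
  obtain ⟨C', hC, H⟩ := mom_family (κ := 3) (by norm_num) ht hε
  refine ⟨C' * (4 : ℝ) ^ (t * (t - 1) / 2 + ε), by positivity, fun k _ _ h2 d hd T _ w hw hdeg E => ?_⟩
  have : Finite (degreeLT k (2 * d)) := Finite.of_equiv _ (degreeLTEquiv k (2 * d)).toEquiv.symm
  let _ := Fintype.ofFinite (degreeLT k (2 * d))
  have hXm : (X ^ (4 * d) : k[X]).Monic := monic_X_pow _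
  have hdiv : ∀ B : k[X], B = B %ₘ X ^ (4 * d) + X ^ (4 * d) * (B /ₘ X ^ (4 * d)) := fun B =>
    (modByMonic_add_div B _).symm
  have hb1 : ∀ B : k[X], B %ₘ X ^ (4 * d) ∈ degreeLT k (4 * d) := by
    intro B
    rw [mem_degreeLT]
    have := degree_modByMonic_lt B hXm
    rwa [degree_X_pow] at this
  have hb2 : ∀ B : k[X], B.degree < 6 * d → B /ₘ X ^ (4 * d) ∈ degreeLT k (2 * d) := by
    intro B h4
    rw [mem_degreeLT]
    by_cases h0 : B /ₘ X ^ (4 * d) = 0
    · rw [h0, degree_zero]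
      exact WithBot.bot_lt_coe _
    · have hB0 : B ≠ 0 := by
        rintro rfl
        exact h0 (zero_divByMonic _)
      rw [degree_eq_natDegree h0]
      have h5 : (B /ₘ X ^ (4 * d)).natDegree = B.natDegree - 4 * d := by
        rw [natDegree_divByMonic B hXm, natDegree_X_pow]
      have h6 : B.natDegree < 6 * d := by
        have h7 : B.degree < ((6 * d : ℕ) : WithBot ℕ) := by
          push_cast
          exact h4
        exact (natDegree_lt_iff_degree_lt hB0).2 h7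
      rw [h5]
      exact_mod_cast (by omega : B.natDegree - 4 * d < 2 * d)
  have hb3 : ∀ v, (w v).1 ∈ degreeLT k (4 * d) := by
    intro v
    rw [mem_degreeLT]
    push_cast
    exact (hdeg v).1
  set ψ : T → degreeLT k (2 * d) := fun v => ⟨_, hb2 _ (hdeg v).2⟩ with hψ
  have hK : (12 * (d : ℝ)) = 3 * ((4 * d : ℕ) : ℝ) := by
    push_cast
    ring
  have h5 : ∀ b : degreeLT k (2 * d), (∑ v : {v : T // ψ v = b}, (E v.1).val ^ t) ≤
      C' * ((4 * d : ℕ) : ℝ) ^ (t * (t - 1) / 2 + ε) * (Fintype.card k : ℝ) ^ (2 * (4 * d)) := by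
    intro b
    have hB : ∀ v : {v : T // ψ v = b}, (w v.1).2 = (w v.1).2 %ₘ X ^ (4 * d) + X ^ (4 * d) * (b : k[X]) := by
      rintro ⟨v, rfl⟩
      exact hdiv _
    have h6 := H k h2 (X ^ 3 + Polynomial.C (X ^ (4 * d) * (b : k[X])))
      (monic_X_pow_add_C _ (by norm_num)) (natDegree_X_pow_add_C) (4 * d) (by omega) {v : T // ψ v = b}
      (fun v => (⟨(w v.1).1, hb3 v.1⟩, ⟨(w v.1).2 %ₘ X ^ (4 * d), hb1 _⟩)) (by
        intro v v' hvv
        apply Subtype.ext
        apply hw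
        have h7 : (w v.1).1 = (w v'.1).1 := congrArg (fun z => (z.1 : k[X])) hvv
        have h8 : (w v.1).2 %ₘ X ^ (4 * d) = (w v'.1).2 %ₘ X ^ (4 * d) :=
          congrArg (fun z => (z.2 : k[X])) hvv
        refine Prod.ext h7 ?_
        rw [hB v, hB v', h8])
      (fun v => ((E v.1).trans (hB v) hK).shift)
    exact h6
  have hcard : (Fintype.card (degreeLT k (2 * d)) : ℝ) = (Fintype.card k : ℝ) ^ (2 * d) := by
    rw [← Nat.card_eq_fintype_card, Nat.card_congr (degreeLTEquiv k (2 * d)).toEquiv,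
      Nat.card_eq_fintype_card, Fintype.card_fun, Fintype.card_fin]
    push_cast
    rfl
  rw [← Fintype.sum_fiberwise ψ]
  refine (sum_le_sum fun b _ => h5 b).trans (le_of_eq ?_)
  rw [sum_const, card_univ, nsmul_eq_mul, hcard]
  have h8 : (Fintype.card k : ℝ) ^ (10 * d) = (Fintype.card k : ℝ) ^ (2 * d) *
      (Fintype.card k : ℝ) ^ (2 * (4 * d)) := by
    rw [← pow_add]
    congr 1
    ring
  rw [h8]
  push_cast
  rw [Real.mul_rpow (by norm_num) (Nat.cast_nonneg _)]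
  ring

end Pool.Agent.N430.CV
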