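import Pool.Agent.N430.RT.A3
import Pool.Agent.N430.CV.B1

set_option autoImplicit false
set_option linter.all false

/-! The central value is bounded by a sum over the primes. -/

namespace Pool.Agent.N430.CV

open Finset Polynomial Pool.Agent.N430.BP Pool.Agent.N430.BP.FF Pool.Agent.R410.NG Pool.Agent.N430.RT

section
variable {k : Type} [Field k] [Fintype k]

/-- the reduction at `P` is smooth -/
def Good (f₀ : k[X][X]) (A B P : k[X]) : Prop :=
  ∀ x : Rs P, ¬ ((f₀.map (Ideal.Quotient.mk (Ideal.span {P}))).eval x +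
    Ideal.Quotient.mk (Ideal.span {P}) A * x + Ideal.Quotient.mk (Ideal.span {P}) B = 0 ∧
    (derivative (f₀.map (Ideal.Quotient.mk (Ideal.span {P})))).eval x +
      Ideal.Quotient.mk (Ideal.span {P}) A = 0)

/-- the `L`-function -/
structure LD (f₀ : k[X][X]) (A B : k[X]) (K : ℝ) where
  D : ℕ
  α : Fin D → ℂ
  loc : k[X] → Fin 2 → ℂ
  inf : Fin 2 → ℂ
  hD : (D : ℝ) ≤ K
  hα : ∀ i, ‖α i‖ = Fintype.card k
  hloc : ∀ P, P.Monic → Irreducible P → ∀ i, ‖loc P i‖ ≤ √(Fintype.card k) ^ P.natDegree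
  hinf : ∀ i, ‖inf i‖ ≤ √(Fintype.card k)
  htr : ∀ P, P.Monic → Irreducible P → Good f₀ A B P → ∑ i, loc P i = (trP f₀ A B P : ℂ)
  hpr : ∀ P, P.Monic → Irreducible P → Good f₀ A B P →
    loc P 0 * loc P 1 = (Fintype.card k : ℂ) ^ P.natDegree
  hform : ∀ n, 1 ≤ n → ∑ i, α i ^ n =
    -(∑ e ∈ n.divisors, ∑ P ∈ IR k e, (e : ℂ) * ∑ i, loc P i ^ (n / e) + ∑ i, inf i ^ n)

/-- the central value -/
noncomputable def LD.val {f₀ : k[X][X]} {A B : k[X]} {K : ℝ} (E : LD f₀ A B K) : ℝ :=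
  ∏ i, ‖1 - E.α i / Fintype.card k‖

lemma div_split {n : ℕ} (hn : 1 ≤ n) (h : ℕ → ℝ) :
    ∑ e ∈ n.divisors, h e = h n + (if 2 ∣ n then h (n / 2) else 0) +
      ∑ e ∈ n.divisors.filter (fun e => e ≤ n / 3), h e := by
  classical
  have h1 : n.divisors.filter (fun e => ¬ e ≤ n / 3) = {n} ∪ (if 2 ∣ n then {n / 2} else ∅) := by
    ext e
    rw [mem_filter, Nat.mem_divisors, mem_union, mem_singleton]
    constructor
    · rintro ⟨⟨⟨c, hc⟩, _⟩, h2⟩
      have hc3 : c < 3 := by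
        by_contra h3
        push Not at h3
        apply h2
        rw [Nat.le_div_iff_mul_le (by norm_num), hc]
        exact Nat.mul_le_mul_left e h3
      interval_cases c
      · omega
      · left
        omega
      · right
        rw [if_pos ⟨e, by omega⟩, mem_singleton]
        omega
    · rintro (rfl | h2)
      · exact ⟨⟨dvd_rfl, by omega⟩, by omega⟩
      · split_ifs at h2 with h3
        · rw [mem_singleton] at h2
          subst h2
          refine ⟨⟨Nat.div_dvd_of_dvd h3, by omega⟩, by omega⟩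
        · simp at h2
  rw [← Finset.sum_filter_add_sum_filter_not _ (fun e => e ≤ n / 3), h1, add_comm, Finset.sum_union,
    Finset.sum_singleton]
  · congr 2
    split_ifs <;> simp
  · rw [disjoint_singleton_left]
    split_ifs with h3
    · rw [mem_singleton]
      omega
    · simp

lemma third {n : ℕ} (hn : 1 ≤ n) :
    rk k ^ n * ∑ e ∈ n.divisors.filter (fun e => e ≤ n / 3), (e : ℝ) * (#(IR k e) : ℝ) ≤
      2 * (10 / 11) ^ n := by
  obtain ⟨r0, r1⟩ := rk_bounds k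
  have hq : (2 : ℝ) ≤ Fintype.card k := by
    have : 1 < Fintype.card k := Fintype.one_lt_card
    exact_mod_cast this
  have h5 : ∀ m : ℕ, ∑ d ∈ range (m + 1), (Fintype.card k : ℝ) ^ d ≤ 2 * (Fintype.card k : ℝ) ^ m := by
    intro m
    induction m with
    | zero => simp
    | succ m ih =>
      rw [Finset.sum_range_succ, pow_succ]
      have : 0 ≤ (Fintype.card k : ℝ) ^ m := by positivity
      nlinarith
  have h6 : ∑ e ∈ n.divisors.filter (fun e => e ≤ n / 3), (e : ℝ) * (#(IR k e) : ℝ) ≤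
      2 * (Fintype.card k : ℝ) ^ (n / 3) := by
    refine le_trans (le_trans (Finset.sum_le_sum fun d hd => ?_)
      (Finset.sum_le_sum_of_subset_of_nonneg (t := range (n / 3 + 1)) ?_ fun d _ _ => by positivity)) (h5 (n / 3))
    · rw [mem_filter, Nat.mem_divisors] at hd
      have hd0 : d ≠ 0 := by
        rintro rfl
        exact hd.1.2 (Nat.eq_zero_of_zero_dvd hd.1.1)
      unfold IR
      rw [if_neg hd0]
      exact Pool.Agent.N842.SQ.card_Irr_le k d hd0
    · intro d hd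
      rw [mem_filter] at hd
      rw [mem_range]
      omega
  have h7 : rk k ^ n * (Fintype.card k : ℝ) ^ (n / 3) ≤ (10 / 11) ^ n := by
    rw [card_rk]
    have e : rk k ^ n = rk k ^ (n - 2 * (n / 3)) * rk k ^ (2 * (n / 3)) := by
      rw [← pow_add]
      congr 1
      omega
    rw [e, mul_assoc, mul_inv_cancel₀ (by positivity), mul_one]
    calc rk k ^ (n - 2 * (n / 3)) ≤ ((10 / 11 : ℝ) ^ 3) ^ (n - 2 * (n / 3)) :=
          pow_le_pow_left₀ r0.le (by linarith [show (3 / 4 : ℝ) ≤ (10 / 11) ^ 3 by norm_num]) _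
      _ = (10 / 11 : ℝ) ^ (3 * (n - 2 * (n / 3))) := by rw [← pow_mul]
      _ ≤ (10 / 11) ^ n := pow_le_pow_of_le_one (by norm_num) (by norm_num) (by omega)
  calc rk k ^ n * ∑ e ∈ n.divisors.filter (fun e => e ≤ n / 3), (e : ℝ) * (#(IR k e) : ℝ) ≤
      rk k ^ n * (2 * (Fintype.card k : ℝ) ^ (n / 3)) := mul_le_mul_of_nonneg_left h6 (by positivity)
    _ = 2 * (rk k ^ n * (Fintype.card k : ℝ) ^ (n / 3)) := by ring
    _ ≤ _ := by linarith

/-- **The explicit formula.** -/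
lemma expl {f₀ : k[X][X]} {A B : k[X]} {K : ℝ} (E : LD f₀ A B K) {n : ℕ} (hn : 1 ≤ n) :
    -(∑ i, ((E.α i / (Fintype.card k : ℂ)) ^ n).re) ≤
      n * (rk k ^ (2 * n) * ∑ P ∈ IR k n, (∑ i, E.loc P i).re) +
      (if 2 ∣ n then ((n / 2 : ℕ) : ℝ) * (rk k ^ (2 * n) * ∑ P ∈ IR k (n / 2), (∑ i, E.loc P i ^ 2).re) else 0) +
      (4 * (10 / 11) ^ n + 2 * rk k ^ n) := by
  classical
  obtain ⟨r0, r1⟩ := rk_bounds k
  have hq0 : (0 : ℝ) < Fintype.card k := by exact_mod_cast Fintype.card_pos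
  set r := rk k ^ n with hr
  have hr0 : 0 < r := by rw [hr]; positivity
  have hr2 : rk k ^ (2 * n) = r ^ 2 := by rw [hr, ← pow_mul, mul_comm]
  have e1 : -(∑ i, ((E.α i / (Fintype.card k : ℂ)) ^ n).re) = r ^ 2 * (-(∑ i, E.α i ^ n)).re := by
    rw [Complex.neg_re, Complex.re_sum, mul_neg, Finset.mul_sum]
    congr 1
    refine Finset.sum_congr rfl fun i _ => ?_
    have h1 : (E.α i / (Fintype.card k : ℂ)) ^ n = ((r ^ 2 : ℝ) : ℂ) * E.α i ^ n := by
      have h2 : ((Fintype.card k : ℂ)) ^ n = ((((r ^ 2)⁻¹ : ℝ)) : ℂ) := by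
        rw [← hr2, ← card_rk]
        push_cast
        rfl
      rw [div_pow, h2]
      push_cast
      rw [div_inv_eq_mul, mul_comm]
    rw [h1, Complex.re_ofReal_mul]
  set h : ℕ → ℝ := fun e => (∑ P ∈ IR k e, (e : ℂ) * ∑ i, E.loc P i ^ (n / e)).re with hh
  have e2 : (-(∑ i, E.α i ^ n)).re = h n + (if 2 ∣ n then h (n / 2) else 0) +
      ∑ e ∈ n.divisors.filter (fun e => e ≤ n / 3), h e + (∑ i, E.inf i ^ n).re := by
    rw [E.hform n hn, neg_neg, Complex.add_re, Complex.re_sum]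
    rw [← div_split hn h]
  have h1 : h n = n * ∑ P ∈ IR k n, (∑ i, E.loc P i).re := by
    rw [hh]
    simp only
    rw [Nat.div_self (by omega), Complex.re_sum, Finset.mul_sum]
    refine Finset.sum_congr rfl fun P _ => ?_
    simp only [pow_one]
    have : (n : ℂ) = ((n : ℝ) : ℂ) := by push_cast; rfl
    rw [this, Complex.re_ofReal_mul]
  have h2 : (if 2 ∣ n then h (n / 2) else 0) = (if 2 ∣ n then ((n / 2 : ℕ) : ℝ) *
      (∑ P ∈ IR k (n / 2), (∑ i, E.loc P i ^ 2).re) else 0) := by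
    split_ifs with h3
    · rw [hh]
      simp only
      have h4 : n / (n / 2) = 2 := by
        obtain ⟨m, rfl⟩ := h3
        have : 0 < m := by omega
        rw [Nat.mul_div_cancel_left m (by norm_num)]
        exact Nat.mul_div_cancel _ this
      rw [h4, Complex.re_sum, Finset.mul_sum]
      refine Finset.sum_congr rfl fun P _ => ?_
      have : ((n / 2 : ℕ) : ℂ) = (((n / 2 : ℕ) : ℝ) : ℂ) := by push_cast; rfl
      rw [this, Complex.re_ofReal_mul]
    · rfl
  have h3 : ∑ e ∈ n.divisors.filter (fun e => e ≤ n / 3), h e ≤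
      (∑ e ∈ n.divisors.filter (fun e => e ≤ n / 3), (e : ℝ) * (#(IR k e) : ℝ)) * (2 * r⁻¹) := by
    rw [Finset.sum_mul]
    refine Finset.sum_le_sum fun e he => ?_
    rw [mem_filter, Nat.mem_divisors] at he
    rw [hh]
    simp only
    refine (Complex.re_le_norm _).trans ((norm_sum_le _ _).trans ?_)
    have h4 : ∀ P ∈ IR k e, ‖(e : ℂ) * ∑ i, E.loc P i ^ (n / e)‖ ≤ e * (2 * r⁻¹) := by
      intro P hP
      obtain ⟨g1, g2, g3⟩ := mem_IR.1 hP
      rw [norm_mul, Complex.norm_natCast]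
      refine mul_le_mul_of_nonneg_left ?_ (Nat.cast_nonneg _)
      refine (norm_sum_le _ _).trans ((Finset.sum_le_sum (g := fun _ => r⁻¹) fun i _ => ?_).trans ?_)
      · rw [norm_pow]
        refine (pow_le_pow_left₀ (norm_nonneg _) (E.hloc P g1 g2 i) _).trans (le_of_eq ?_)
        rw [g3, ← pow_mul, Nat.mul_div_cancel' he.1.1, sqrt_rk]
      · rw [Finset.sum_const, card_univ, Fintype.card_fin, nsmul_eq_mul]
        norm_num
    refine (Finset.sum_le_sum h4).trans (le_of_eq ?_)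
    rw [Finset.sum_const, nsmul_eq_mul]
    ring
  have h4 : (∑ i, E.inf i ^ n).re ≤ 2 * r⁻¹ := by
    refine (Complex.re_le_norm _).trans ((norm_sum_le _ _).trans
      ((Finset.sum_le_sum (g := fun _ => r⁻¹) fun i _ => ?_).trans ?_))
    · rw [norm_pow]
      refine (pow_le_pow_left₀ (norm_nonneg _) (E.hinf i) n).trans (le_of_eq ?_)
      exact sqrt_rk n
    · rw [Finset.sum_const, card_univ, Fintype.card_fin, nsmul_eq_mul]
      norm_num
  have h5 := third (k := k) hn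
  rw [← hr] at h5
  set S := ∑ e ∈ n.divisors.filter (fun e => e ≤ n / 3), (e : ℝ) * (#(IR k e) : ℝ) with hS
  rw [e1, e2, h1, h2, hr2]
  have h6 : r ^ 2 * (S * (2 * r⁻¹)) ≤ 4 * (10 / 11) ^ n := by
    have : r ^ 2 * (S * (2 * r⁻¹)) = 2 * (r * S) := by
      field_simp
    rw [this]
    linarith
  have h7 : r ^ 2 * (2 * r⁻¹) = 2 * r := by
    field_simp
  have h8 := mul_le_mul_of_nonneg_left h3 (by positivity : 0 ≤ r ^ 2)
  have h9 := mul_le_mul_of_nonneg_left h4 (by positivity : 0 ≤ r ^ 2)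
  rw [h7] at h9
  have h10 : r ^ 2 * (if 2 ∣ n then ((n / 2 : ℕ) : ℝ) * (∑ P ∈ IR k (n / 2), (∑ i, E.loc P i ^ 2).re) else 0) =
      (if 2 ∣ n then ((n / 2 : ℕ) : ℝ) * (r ^ 2 * ∑ P ∈ IR k (n / 2), (∑ i, E.loc P i ^ 2).re) else 0) := by
    split_ifs <;> ring
  rw [mul_add, mul_add, mul_add, h10]
  have h11 : r ^ 2 * (n * ∑ P ∈ IR k n, (∑ i, E.loc P i).re) = n * (r ^ 2 * ∑ P ∈ IR k n, (∑ i, E.loc P i).re) := by
    ring
  linarith

end

end Pool.Agent.N430.CV
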