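import Pool.Agent.N430.CV.B2

set_option autoImplicit false
set_option linter.all false

/-! The random variables attached to the primes. -/

namespace Pool.Agent.N430.CV

open Finset Polynomial Pool.Agent.N430.BP Pool.Agent.N430.BP.FF Pool.Agent.R410.NG Pool.Agent.N430.RT

lemma cf_bounds {M n : ℕ} (hM : 3 ≤ M) (hn : n ≤ M) : 0 ≤ cf M n ∧ cf M n ≤ 1 := by
  have hMr : (3 : ℝ) ≤ M := by exact_mod_cast hM
  have hM0 : (0 : ℝ) < M := by linarith
  have hy : 2 / (M : ℝ) ≤ 2 / 3 := div_le_div_of_nonneg_left (by norm_num) (by norm_num) hMr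
  have hy0 : 0 < 2 / (M : ℝ) := by positivity
  have hnM : (n : ℝ) / M ≤ 1 := by
    rw [div_le_one hM0]
    exact_mod_cast hn
  have hn0 : 0 ≤ (n : ℝ) / M := by positivity
  have h1 : 0 ≤ (1 - 2 / (M : ℝ)) ^ n := pow_nonneg (by linarith) n
  have h2 : (1 - 2 / (M : ℝ)) ^ n ≤ 1 := pow_le_one₀ (by linarith) (by linarith)
  unfold cf
  constructor
  · exact mul_nonneg (by linarith) h1
  · exact mul_le_one₀ (by linarith) h1 h2

lemma even_sum (M : ℕ) (g : ℕ → ℝ) :
    ∑ n ∈ range M, (if 2 ∣ n + 1 then g ((n + 1) / 2) else 0) =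
      ∑ e ∈ range M, (if 2 * (e + 1) ≤ M then g (e + 1) else 0) := by
  rw [← Finset.sum_filter, ← Finset.sum_filter]
  refine Finset.sum_nbij' (fun n => (n + 1) / 2 - 1) (fun e => 2 * e + 1) ?_ ?_ ?_ ?_ ?_
  · intro n hn
    simp only [mem_filter, mem_range] at hn ⊢
    omega
  · intro e he
    simp only [mem_filter, mem_range] at he ⊢
    omega
  · intro n hn
    simp only [mem_filter, mem_range] at hn
    omega
  · intro e he
    omega
  · intro n hn
    simp only [mem_filter, mem_range] at hn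
    congr 1
    omega

section
variable {k : Type} [Field k] [Fintype k]

open Classical in
/-- the random variable of the prime `P` -/
noncomputable def XX (f₀ : k[X][X]) (M : ℕ) (P : k[X]) (v : k[X] × k[X]) : ℝ :=
  cf M P.natDegree * (rk k ^ (2 * P.natDegree) * trP f₀ v.1 v.2 P) +
  (if 2 * P.natDegree ≤ M then cf M (2 * P.natDegree) / 2 else 0) *
    (rk k ^ (4 * P.natDegree) * (trP f₀ v.1 v.2 P ^ 2 - 2 * (rk k ^ (2 * P.natDegree))⁻¹)) +
  (if Good f₀ v.1 v.2 P then 0 else 7 * rk k ^ P.natDegree)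

lemma half_bounds {M e : ℕ} (hM : 3 ≤ M) :
    0 ≤ (if 2 * e ≤ M then cf M (2 * e) / 2 else 0 : ℝ) ∧
      (if 2 * e ≤ M then cf M (2 * e) / 2 else 0 : ℝ) ≤ 1 / 2 := by
  split_ifs with h
  · obtain ⟨h1, h2⟩ := cf_bounds hM h
    constructor <;> linarith
  · constructor <;> norm_num

/-- comparison at one prime -/
lemma one_prime {f₀ : k[X][X]} (hf : f₀.Monic) (hd : f₀.natDegree = 3) {A B : k[X]} {K : ℝ}
    (E : LD f₀ A B K) {M : ℕ} (hM : 3 ≤ M) {P : k[X]} (hm : P.Monic) (hP : Irreducible P)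
    (hPM : P.natDegree ≤ M) :
    cf M P.natDegree * (rk k ^ (2 * P.natDegree) * (∑ i, E.loc P i).re) +
      (if 2 * P.natDegree ≤ M then cf M (2 * P.natDegree) / 2 else 0) *
        (rk k ^ (4 * P.natDegree) * (∑ i, E.loc P i ^ 2).re) ≤ XX f₀ M P (A, B) := by
  obtain ⟨r0, r1⟩ := rk_bounds k
  set e := P.natDegree with he
  set r := rk k ^ e with hr
  have hr0 : 0 < r := by rw [hr]; positivity
  have hr1 : r ≤ 1 := by rw [hr]; exact pow_le_one₀ r0.le (by linarith)
  have hr2 : rk k ^ (2 * e) = r ^ 2 := by rw [hr, ← pow_mul, mul_comm]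
  have hr4 : rk k ^ (4 * e) = r ^ 4 := by rw [hr, ← pow_mul, mul_comm]
  obtain ⟨c0, c1⟩ := cf_bounds hM hPM
  obtain ⟨d0, d1⟩ := half_bounds (e := e) hM
  set c := cf M e with hc
  set d := (if 2 * e ≤ M then cf M (2 * e) / 2 else 0 : ℝ) with hdd
  unfold XX
  rw [← he, hr2, hr4, ← hc, ← hdd, ← hr]
  simp only
  by_cases hg : Good f₀ A B P
  · rw [if_pos hg, add_zero]
    have h1 := E.htr P hm hP hg
    have h2 := E.hpr P hm hP hg
    have h3 : (∑ i, E.loc P i).re = trP f₀ A B P := by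
      rw [h1, Complex.ofReal_re]
    have h4 : (∑ i, E.loc P i ^ 2).re = trP f₀ A B P ^ 2 - 2 * (r ^ 2)⁻¹ := by
      have h5 : ∑ i, E.loc P i ^ 2 = ((trP f₀ A B P ^ 2 - 2 * (r ^ 2)⁻¹ : ℝ) : ℂ) := by
        rw [Fin.sum_univ_two] at h1 ⊢
        have h6 : (Fintype.card k : ℂ) ^ P.natDegree = (((r ^ 2)⁻¹ : ℝ) : ℂ) := by
          rw [← hr2, ← card_rk]
          push_cast
          rfl
        rw [h6] at h2
        have h7 : E.loc P 0 ^ 2 + E.loc P 1 ^ 2 = (E.loc P 0 + E.loc P 1) ^ 2 - 2 * (E.loc P 0 * E.loc P 1) := by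
          ring
        rw [h7, h1, h2]
        push_cast
        ring
      rw [h5, Complex.ofReal_re]
    rw [h3, h4]
  · rw [if_neg hg]
    have h1 : ∀ i, ‖E.loc P i‖ ≤ r⁻¹ := fun i => by
      have := E.hloc P hm hP i
      rwa [sqrt_rk] at this
    have h2 : (∑ i, E.loc P i).re ≤ 2 * r⁻¹ := by
      refine (Complex.re_le_norm _).trans ((norm_sum_le _ _).trans
        ((Finset.sum_le_sum (g := fun _ => r⁻¹) fun i _ => h1 i).trans ?_))
      rw [Finset.sum_const, card_univ, Fintype.card_fin, nsmul_eq_mul]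
      norm_num
    have h3 : (∑ i, E.loc P i ^ 2).re ≤ 2 * (r⁻¹) ^ 2 := by
      refine (Complex.re_le_norm _).trans ((norm_sum_le _ _).trans
        ((Finset.sum_le_sum (g := fun _ => (r⁻¹) ^ 2) fun i _ => ?_).trans ?_))
      · rw [norm_pow]
        exact pow_le_pow_left₀ (norm_nonneg _) (h1 i) 2
      · rw [Finset.sum_const, card_univ, Fintype.card_fin, nsmul_eq_mul]
        norm_num
    have h4 : -(3 * r⁻¹) ≤ trP f₀ A B P := by
      have := trP_bound hf hd le_rfl (by decide) hm hP A B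
      rw [← hr] at this
      have := (abs_le.1 this).1
      push_cast at this
      exact this
    have g1 : r ^ 2 * (∑ i, E.loc P i).re ≤ 2 * r := by
      calc r ^ 2 * (∑ i, E.loc P i).re ≤ r ^ 2 * (2 * r⁻¹) := mul_le_mul_of_nonneg_left h2 (by positivity)
        _ = 2 * r := by field_simp
    have g2 : r ^ 4 * (∑ i, E.loc P i ^ 2).re ≤ 2 * r := by
      calc r ^ 4 * (∑ i, E.loc P i ^ 2).re ≤ r ^ 4 * (2 * (r⁻¹) ^ 2) :=
            mul_le_mul_of_nonneg_left h3 (by positivity)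
        _ = 2 * (r * r) := by field_simp
        _ ≤ 2 * r := by nlinarith
    have g3 : -(3 * r) ≤ r ^ 2 * trP f₀ A B P := by
      calc -(3 * r) = r ^ 2 * (-(3 * r⁻¹)) := by field_simp
        _ ≤ _ := mul_le_mul_of_nonneg_left h4 (by positivity)
    have g4 : -(2 * r) ≤ r ^ 4 * (trP f₀ A B P ^ 2 - 2 * (r ^ 2)⁻¹) := by
      have h5 : -(2 * (r ^ 2)⁻¹) ≤ trP f₀ A B P ^ 2 - 2 * (r ^ 2)⁻¹ := by
        have := sq_nonneg (trP f₀ A B P)
        linarith
      calc -(2 * r) ≤ -(2 * (r * r)) := by nlinarith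
        _ = r ^ 4 * (-(2 * (r ^ 2)⁻¹)) := by field_simp
        _ ≤ _ := mul_le_mul_of_nonneg_left h5 (by positivity)
    have k1 : c * (r ^ 2 * (∑ i, E.loc P i).re) ≤ 2 * r := by
      calc c * (r ^ 2 * (∑ i, E.loc P i).re) ≤ c * (2 * r) := mul_le_mul_of_nonneg_left g1 c0
        _ ≤ 1 * (2 * r) := mul_le_mul_of_nonneg_right c1 (by positivity)
        _ = _ := one_mul _
    have k2 : d * (r ^ 4 * (∑ i, E.loc P i ^ 2).re) ≤ r := by
      calc d * (r ^ 4 * (∑ i, E.loc P i ^ 2).re) ≤ d * (2 * r) := mul_le_mul_of_nonneg_left g2 d0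
        _ ≤ 1 / 2 * (2 * r) := mul_le_mul_of_nonneg_right d1 (by positivity)
        _ = _ := by ring
    have k3 : -(3 * r) ≤ c * (r ^ 2 * trP f₀ A B P) := by
      calc -(3 * r) = 1 * (-(3 * r)) := (one_mul _).symm
        _ ≤ c * (-(3 * r)) := by nlinarith
        _ ≤ _ := mul_le_mul_of_nonneg_left g3 c0
    have k4 : -r ≤ d * (r ^ 4 * (trP f₀ A B P ^ 2 - 2 * (r ^ 2)⁻¹)) := by
      calc -r = 1 / 2 * (-(2 * r)) := by ring
        _ ≤ d * (-(2 * r)) := by nlinarith
        _ ≤ _ := mul_le_mul_of_nonneg_left g4 d0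
    linarith

/-- the set of primes -/
noncomputable def PS (k : Type) [Field k] [Fintype k] (a b : ℕ) : Finset k[X] :=
  open Classical in (Ico a b).biUnion fun n => IR k (n + 1)

lemma PS_sum (a b : ℕ) (F : k[X] → ℝ) : ∑ P ∈ PS k a b, F P = ∑ n ∈ Ico a b, ∑ P ∈ IR k (n + 1), F P := by
  classical
  unfold PS
  rw [Finset.sum_biUnion]
  intro n _ m _ hnm
  rw [Function.onFun, Finset.disjoint_left]
  intro P h1 h2
  have := (mem_IR.1 h1).2.2.symm.trans (mem_IR.1 h2).2.2
  exact hnm (by omega)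

lemma mem_PS {a b : ℕ} {P : k[X]} (h : P ∈ PS k a b) :
    P.Monic ∧ Irreducible P ∧ a + 1 ≤ P.natDegree ∧ P.natDegree ≤ b := by
  classical
  unfold PS at h
  rw [Finset.mem_biUnion] at h
  obtain ⟨n, hn, hP⟩ := h
  obtain ⟨g1, g2, g3⟩ := mem_IR.1 hP
  rw [mem_Ico] at hn
  exact ⟨g1, g2, by omega, by omega⟩

/-- **The central value.** -/
theorem val_le {f₀ : k[X][X]} (hf : f₀.Monic) (hd : f₀.natDegree = 3) {A B : k[X]} {K : ℝ}
    (E : LD f₀ A B K) {M : ℕ} (hM : 3 ≤ M) :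
    E.val ≤ Real.exp (∑ P ∈ PS k 0 M, XX f₀ M P (A, B) + 48 + 2 * K / M) := by
  obtain ⟨r0, r1⟩ := rk_bounds k
  have hMr : (3 : ℝ) ≤ M := by exact_mod_cast hM
  have hM0 : (0 : ℝ) < M := by linarith
  have hq0 : (0 : ℝ) < Fintype.card k := by exact_mod_cast Fintype.card_pos
  have hu : ∀ i, ‖E.α i / (Fintype.card k : ℂ)‖ = 1 := by
    intro i
    rw [norm_div, E.hα i, Complex.norm_natCast, div_self hq0.ne']
  unfold LD.val
  have h1 : ∏ i, ‖1 - E.α i / Fintype.card k‖ ≤ Real.exp (∑ i, (-(∑ n ∈ range M,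
      cf M (n + 1) / ((n : ℝ) + 1) * ((E.α i / (Fintype.card k : ℂ)) ^ (n + 1)).re) + 2 / M)) := by
    rw [Real.exp_sum]
    exact Finset.prod_le_prod (fun i _ => norm_nonneg _) fun i _ => majorant (hu i) hM
  refine h1.trans (Real.exp_le_exp.2 ?_)
  rw [Finset.sum_add_distrib, Finset.sum_const, card_univ, Fintype.card_fin, nsmul_eq_mul,
    Finset.sum_neg_distrib, Finset.sum_comm, ← Finset.sum_neg_distrib]
  have h2 : (E.D : ℝ) * (2 / M) ≤ 2 * K / M := by
    calc (E.D : ℝ) * (2 / M) ≤ K * (2 / M) := mul_le_mul_of_nonneg_right E.hD (by positivity)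
      _ = _ := by ring
  have h3 : ∑ n ∈ range M, -(∑ i, cf M (n + 1) / ((n : ℝ) + 1) *
      ((E.α i / (Fintype.card k : ℂ)) ^ (n + 1)).re) ≤ ∑ P ∈ PS k 0 M, XX f₀ M P (A, B) + 48 := by
    set S1 : ℕ → ℝ := fun n => ∑ P ∈ IR k n, (∑ i, E.loc P i).re with hS1
    set S2 : ℕ → ℝ := fun n => ∑ P ∈ IR k n, (∑ i, E.loc P i ^ 2).re with hS2
    have h4 : ∀ n ∈ range M, -(∑ i, cf M (n + 1) / ((n : ℝ) + 1) *
        ((E.α i / (Fintype.card k : ℂ)) ^ (n + 1)).re) ≤
        cf M (n + 1) * (rk k ^ (2 * (n + 1)) * S1 (n + 1)) +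
        (if 2 ∣ n + 1 then cf M (2 * ((n + 1) / 2)) / 2 * (rk k ^ (4 * ((n + 1) / 2)) * S2 ((n + 1) / 2)) else 0) +
        (4 * ((10 / 11) ^ n * (10 / 11)) + 2 * rk k ^ n) := by
      intro n hn
      rw [mem_range] at hn
      obtain ⟨c0, c1⟩ := cf_bounds (n := n + 1) hM (by omega)
      have h5 := expl E (n := n + 1) (by omega)
      have hn1 : (1 : ℝ) ≤ (n : ℝ) + 1 := by
        have : (0 : ℝ) ≤ n := Nat.cast_nonneg n
        linarith
      set c := cf M (n + 1) with hc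
      have hcn : 0 ≤ c / ((n : ℝ) + 1) := by positivity
      have hcn1 : c / ((n : ℝ) + 1) ≤ 1 := by
        rw [div_le_one (by linarith)]
        linarith
      rw [← Finset.mul_sum, ← mul_neg]
      refine (mul_le_mul_of_nonneg_left h5 hcn).trans ?_
      have e1 : c / ((n : ℝ) + 1) * (((n + 1 : ℕ) : ℝ) * (rk k ^ (2 * (n + 1)) * S1 (n + 1))) =
          c * (rk k ^ (2 * (n + 1)) * S1 (n + 1)) := by
        push_cast
        field_simp
      have e2 : c / ((n : ℝ) + 1) * (if 2 ∣ n + 1 then (((n + 1) / 2 : ℕ) : ℝ) *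
          (rk k ^ (2 * (n + 1)) * S2 ((n + 1) / 2)) else 0) =
          (if 2 ∣ n + 1 then cf M (2 * ((n + 1) / 2)) / 2 * (rk k ^ (4 * ((n + 1) / 2)) * S2 ((n + 1) / 2)) else 0) := by
        split_ifs with h6
        · obtain ⟨m, hm⟩ := h6
          have h7 : (n + 1) / 2 = m := by omega
          rw [h7]
          have h8 : (n : ℝ) + 1 = 2 * m := by
            have : ((n + 1 : ℕ) : ℝ) = ((2 * m : ℕ) : ℝ) := by rw [hm]
            push_cast at this
            exact this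
          have hm0 : (m : ℝ) ≠ 0 := by
            intro h
            rw [h] at h8
            linarith
          rw [hc, hm, h8]
          have h9 : 2 * (2 * m) = 4 * m := by ring
          rw [h9]
          field_simp
        · rw [mul_zero]
      have e3 : c / ((n : ℝ) + 1) * (4 * (10 / 11) ^ (n + 1) + 2 * rk k ^ (n + 1)) ≤
          4 * ((10 / 11) ^ n * (10 / 11)) + 2 * rk k ^ n := by
        have h10 : rk k ^ (n + 1) ≤ rk k ^ n := pow_le_pow_of_le_one r0.le (by linarith) (by omega)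
        have h11 : (0 : ℝ) ≤ (10 / 11) ^ n := by positivity
        have h12 : 0 ≤ rk k ^ (n + 1) := by positivity
        rw [← pow_succ]
        calc c / ((n : ℝ) + 1) * (4 * (10 / 11) ^ (n + 1) + 2 * rk k ^ (n + 1)) ≤
            1 * (4 * (10 / 11) ^ (n + 1) + 2 * rk k ^ (n + 1)) :=
              mul_le_mul_of_nonneg_right hcn1 (by positivity)
          _ ≤ _ := by linarith
      simp only [hS1, hS2] at e1 e2 ⊢
      rw [mul_add, mul_add, e1, e2]
      linarith
    refine (Finset.sum_le_sum h4).trans ?_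
    rw [Finset.sum_add_distrib, Finset.sum_add_distrib]
    have h5 := even_sum M fun e => cf M (2 * e) / 2 * (rk k ^ (4 * e) * S2 e)
    rw [h5]
    have h6 : ∑ n ∈ range M, (4 * ((10 / 11 : ℝ) ^ n * (10 / 11)) + 2 * rk k ^ n) ≤ 48 := by
      rw [Finset.sum_add_distrib, ← Finset.mul_sum, ← Finset.mul_sum, ← Finset.sum_mul]
      have h7 := geom_le k M
      have h8 : ∑ n ∈ range M, (10 / 11 : ℝ) ^ n ≤ 11 := by
        rw [geom_sum_eq (by norm_num)]
        have : (0 : ℝ) ≤ (10 / 11) ^ M := by positivity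
        have e : ((10 / 11 : ℝ) ^ M - 1) / (10 / 11 - 1) = 11 - 11 * (10 / 11) ^ M := by
          rw [show (10 / 11 - 1 : ℝ) = -(1 / 11) by norm_num]
          field_simp
          ring
        rw [e]
        linarith
      linarith
    have h7 : ∑ n ∈ range M, cf M (n + 1) * (rk k ^ (2 * (n + 1)) * S1 (n + 1)) +
        ∑ e ∈ range M, (if 2 * (e + 1) ≤ M then cf M (2 * (e + 1)) / 2 *
          (rk k ^ (4 * (e + 1)) * S2 (e + 1)) else 0) ≤ ∑ P ∈ PS k 0 M, XX f₀ M P (A, B) := by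
      rw [PS_sum, ← Finset.range_eq_Ico, ← Finset.sum_add_distrib]
      refine Finset.sum_le_sum fun n hn => ?_
      rw [mem_range] at hn
      have h9 : cf M (n + 1) * (rk k ^ (2 * (n + 1)) * S1 (n + 1)) +
          (if 2 * (n + 1) ≤ M then cf M (2 * (n + 1)) / 2 * (rk k ^ (4 * (n + 1)) * S2 (n + 1)) else 0) =
          ∑ P ∈ IR k (n + 1), (cf M P.natDegree * (rk k ^ (2 * P.natDegree) * (∑ i, E.loc P i).re) +
            (if 2 * P.natDegree ≤ M then cf M (2 * P.natDegree) / 2 else 0) *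
              (rk k ^ (4 * P.natDegree) * (∑ i, E.loc P i ^ 2).re)) := by
        rw [Finset.sum_add_distrib, hS1, hS2]
        simp only
        rw [Finset.mul_sum, Finset.mul_sum, Finset.mul_sum]
        congr 1
        · refine Finset.sum_congr rfl fun P hP => ?_
          rw [(mem_IR.1 hP).2.2]
        · split_ifs with h10
          · rw [Finset.mul_sum]
            refine Finset.sum_congr rfl fun P hP => ?_
            rw [(mem_IR.1 hP).2.2, if_pos h10]
          · symm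
            refine Finset.sum_eq_zero fun P hP => ?_
            rw [(mem_IR.1 hP).2.2, if_neg h10, zero_mul]
      rw [h9]
      refine Finset.sum_le_sum fun P hP => ?_
      obtain ⟨g1, g2, g3⟩ := mem_IR.1 hP
      exact one_prime hf hd E hM g1 g2 (by omega)
    linarith
  linarith

end

end Pool.Agent.N430.CV
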