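import Pool.Agent.N430.CV.B3

set_option autoImplicit false
set_option linter.all false

/-! Means and variances of the random variables. -/

namespace Pool.Agent.N430.CV

open Finset Polynomial Pool.Agent.N430.BP Pool.Agent.N430.BP.FF Pool.Agent.R410.NG Pool.Agent.N430.RT

section mean
variable {F : Type} [Field F] [Fintype F] [DecidableEq F]

lemma sum_two (hF : ringChar F ≠ 2) (f : F → F) {x y : F} (hxy : x ≠ y) :
    ∑ a : F, ∑ b : F, quadraticChar F (f x + a * x + b) * quadraticChar F (f y + a * y + b) = 0 := by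
  have hd : y - x ≠ 0 := sub_ne_zero.2 (Ne.symm hxy)
  have e : ∑ a : F, ∑ b : F, quadraticChar F (f x + a * x + b) * quadraticChar F (f y + a * y + b) =
      ∑ w : F × F, quadraticChar F w.1 * quadraticChar F w.2 := by
    rw [← Fintype.sum_prod_type' (fun a b => quadraticChar F (f x + a * x + b) *
      quadraticChar F (f y + a * y + b))]
    refine Fintype.sum_equiv
      { toFun := fun w : F × F => (f x + w.1 * x + w.2, f y + w.1 * y + w.2)
        invFun := fun w : F × F => (((w.2 - f y) - (w.1 - f x)) / (y - x),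
          (w.1 - f x) - ((w.2 - f y) - (w.1 - f x)) / (y - x) * x)
        left_inv := fun w => ?_
        right_inv := fun w => ?_ } _ _ fun w => rfl
    · refine Prod.ext ?_ ?_
      · simp only
        field_simp
        ring
      · simp only
        field_simp
        ring
    · refine Prod.ext ?_ ?_
      · simp only
        ring
      · simp only
        field_simp
        ring
  rw [e, Fintype.sum_prod_type]
  simp only
  rw [← Fintype.sum_mul_sum, sum_chi_all hF, zero_mul]

lemma sum_one (f : F → F) (x : F) :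
    ∑ a : F, ∑ b : F, quadraticChar F (f x + a * x + b) * quadraticChar F (f x + a * x + b) =
      (Fintype.card F : ℤ) * (Fintype.card F - 1) := by
  have h1 : ∀ a : F, ∑ b : F, quadraticChar F (f x + a * x + b) *
      quadraticChar F (f x + a * x + b) = (Fintype.card F : ℤ) - 1 := by
    intro a
    have e : ∑ b : F, quadraticChar F (f x + a * x + b) * quadraticChar F (f x + a * x + b) =
        ∑ z : F, quadraticChar F z * quadraticChar F z :=
      Fintype.sum_equiv (Equiv.addLeft (f x + a * x)) _ _ fun b => rfl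
    rw [e]
    have e2 : ∀ z : F, quadraticChar F z * quadraticChar F z = if z = 0 then 0 else 1 := by
      intro z
      split_ifs with h
      · rw [h]
        simp
      · rw [← sq]
        exact quadraticChar_sq_one h
    simp only [e2]
    rw [Finset.sum_ite, Finset.sum_const_zero, zero_add, Finset.sum_const, nsmul_eq_mul, mul_one]
    have h3 : #(univ.filter fun z : F => ¬ z = 0) = Fintype.card F - 1 := by
      rw [Finset.filter_not, Finset.card_sdiff_of_subset (Finset.filter_subset _ _), card_univ,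
        Finset.filter_eq' univ (0 : F)]
      simp
    rw [h3, Nat.cast_sub Fintype.card_pos]
    simp
  simp only [h1]
  rw [Finset.sum_const, card_univ, nsmul_eq_mul]

lemma mean_sq (hF : ringChar F ≠ 2) (f : F → F) :
    ∑ a : F, ∑ b : F, (∑ x : F, quadraticChar F (f x + a * x + b)) ^ 2 =
    (Fintype.card F : ℤ) ^ 2 * (Fintype.card F - 1) := by
  have e : ∀ a b : F, (∑ x : F, quadraticChar F (f x + a * x + b)) ^ 2 = ∑ x : F, ∑ y : F,
      quadraticChar F (f x + a * x + b) * quadraticChar F (f y + a * y + b) := by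
    intro a b
    rw [sq, Fintype.sum_mul_sum]
  simp only [e]
  have h1 : ∑ a : F, ∑ b : F, ∑ x : F, ∑ y : F,
      quadraticChar F (f x + a * x + b) * quadraticChar F (f y + a * y + b) =
      ∑ x : F, ∑ y : F, ∑ a : F, ∑ b : F,
      quadraticChar F (f x + a * x + b) * quadraticChar F (f y + a * y + b) := by
    calc _ = ∑ a : F, ∑ x : F, ∑ b : F, ∑ y : F,
          quadraticChar F (f x + a * x + b) * quadraticChar F (f y + a * y + b) :=
          Finset.sum_congr rfl fun a _ => Finset.sum_comm
      _ = ∑ x : F, ∑ a : F, ∑ b : F, ∑ y : F,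
          quadraticChar F (f x + a * x + b) * quadraticChar F (f y + a * y + b) := Finset.sum_comm
      _ = ∑ x : F, ∑ a : F, ∑ y : F, ∑ b : F,
          quadraticChar F (f x + a * x + b) * quadraticChar F (f y + a * y + b) :=
          Finset.sum_congr rfl fun x _ => Finset.sum_congr rfl fun a _ => Finset.sum_comm
      _ = _ := Finset.sum_congr rfl fun x _ => Finset.sum_comm
  have h2 : ∀ x : F, ∑ y : F, ∑ a : F, ∑ b : F,
      quadraticChar F (f x + a * x + b) * quadraticChar F (f y + a * y + b) =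
      (Fintype.card F : ℤ) * (Fintype.card F - 1) := by
    intro x
    rw [Finset.sum_eq_single x (fun y _ hy => sum_two hF f (Ne.symm hy)) (fun h => absurd (mem_univ x) h)]
    exact sum_one f x
  rw [h1]
  simp only [h2]
  rw [Finset.sum_const, card_univ, nsmul_eq_mul]
  ring

/-- few pairs are bad -/
lemma bad_card (f f' : F → F) :
    #(univ.filter fun w : F × F => ∃ x, f x + w.1 * x + w.2 = 0 ∧ f' x + w.1 = 0) ≤ Fintype.card F := by
  have h1 : (univ.filter fun w : F × F => ∃ x, f x + w.1 * x + w.2 = 0 ∧ f' x + w.1 = 0) ⊆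
      univ.image fun x : F => (-f' x, -f x + f' x * x) := by
    rintro ⟨a, b⟩ hw
    rw [mem_filter] at hw
    obtain ⟨_, x, h2, h3⟩ := hw
    rw [mem_image]
    refine ⟨x, mem_univ _, Prod.ext ?_ ?_⟩
    · simp only at h3 ⊢
      linear_combination -h3
    · simp only at h2 h3 ⊢
      linear_combination -h2 + h3 * x
  refine (card_le_card h1).trans (card_image_le.trans ?_)
  rw [card_univ]

end mean

lemma mn_mono {V : Type} [Fintype V] {f g : V → ℝ} (h : ∀ v, f v ≤ g v) : mn f ≤ mn g := by
  unfold mn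
  exact div_le_div_of_nonneg_right (Finset.sum_le_sum fun v _ => h v) (Nat.cast_nonneg _)

section
variable {k : Type} [Field k] [Fintype k]

lemma card_Rs_r {P : k[X]} (hm : P.Monic) [Fintype (Rs P)] :
    (Fintype.card (Rs P) : ℝ) = (rk k ^ (2 * P.natDegree))⁻¹ := by
  have h1 := card_Rs hm
  rw [Nat.card_eq_fintype_card] at h1
  rw [← card_rk, h1]
  push_cast
  rfl

/-- **The second moment of the trace.** -/
lemma trP_sq (h2 : ringChar k ≠ 2) (f₀ : k[X][X]) {P : k[X]} (hm : P.Monic) (hP : Irreducible P)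
    {N : ℕ} (hN : P.natDegree ≤ N) :
    mV N (fun v => trP f₀ v.1 v.2 P ^ 2) = (rk k ^ (2 * P.natDegree))⁻¹ - 1 := by
  classical
  let _ := fldP hP
  let ft : Fintype (Rs P) := @Fintype.ofFinite _ (fin_quot hm)
  have hch : ringChar (Rs P) ≠ 2 := by
    have h3 : ringChar k = ringChar (Rs P) := Algebra.ringChar_eq k (Rs P)
    intro h
    exact h2 (h3.trans h)
  have h1 := mV_res hm hN (fun a b => trc (Rs P) (gg f₀ P a b) ^ 2) 0 0
  simp only [zero_add] at h1
  have e : (fun v : k[X] × k[X] => trP f₀ v.1 v.2 P ^ 2) = fun v =>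
      trc (Rs P) (gg f₀ P (Ideal.Quotient.mk _ v.1) (Ideal.Quotient.mk _ v.2)) ^ 2 := by
    funext v
    rw [trP_eq f₀ hm hP v.1 v.2]
  rw [e, h1]
  have h4 : ∑ a : Rs P, ∑ b : Rs P, trc (Rs P) (gg f₀ P a b) ^ 2 =
      (Fintype.card (Rs P) : ℝ) ^ 2 * ((Fintype.card (Rs P) : ℝ) - 1) := by
    have h5 : ∀ a b : Rs P, trc (Rs P) (gg f₀ P a b) ^ 2 = (((∑ x : Rs P, quadraticChar (Rs P)
        ((f₀.map (Ideal.Quotient.mk (Ideal.span {P}))).eval x + a * x + b)) ^ 2 : ℤ) : ℝ) := by
      intro a b
      rw [trc_char hch]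
      simp only [gg_eval]
      push_cast
      ring
    rw [Finset.sum_congr rfl fun a _ => Finset.sum_congr rfl fun b _ => h5 a b]
    have h6 := mean_sq hch fun x : Rs P => (f₀.map (Ideal.Quotient.mk (Ideal.span {P}))).eval x
    have h7 : ((∑ a : Rs P, ∑ b : Rs P, (∑ x : Rs P, quadraticChar (Rs P)
        ((f₀.map (Ideal.Quotient.mk (Ideal.span {P}))).eval x + a * x + b)) ^ 2 : ℤ) : ℝ) =
        (((Fintype.card (Rs P) : ℤ) ^ 2 * (Fintype.card (Rs P) - 1) : ℤ) : ℝ) := by rw [h6]
    push_cast at h7 ⊢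
    exact h7
  have hc : (0 : ℝ) < Fintype.card (Rs P) := by exact_mod_cast Fintype.card_pos
  rw [h4, mul_div_cancel_left₀ _ (by positivity), card_Rs_r hm]

open Classical in
/-- **The bad pairs.** -/
lemma bad_mean (f₀ : k[X][X]) {P : k[X]} (hm : P.Monic) (hP : Irreducible P)
    {N : ℕ} (hN : P.natDegree ≤ N) :
    mV N (fun v => if Good f₀ v.1 v.2 P then 0 else 1) ≤ rk k ^ (2 * P.natDegree) := by
  let _ := fldP hP
  let ft : Fintype (Rs P) := @Fintype.ofFinite _ (fin_quot hm)
  set F : Rs P → Rs P := fun x => (f₀.map (Ideal.Quotient.mk (Ideal.span {P}))).eval x with hF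
  set F' : Rs P → Rs P := fun x => (derivative (f₀.map (Ideal.Quotient.mk (Ideal.span {P})))).eval x with hF'
  have h1 := mV_res hm hN (fun a b => if ∃ x, F x + a * x + b = 0 ∧ F' x + a = 0 then (1 : ℝ) else 0) 0 0
  simp only [zero_add] at h1
  have e : (fun v : k[X] × k[X] => if Good f₀ v.1 v.2 P then (0 : ℝ) else 1) = fun v =>
      if ∃ x, F x + Ideal.Quotient.mk _ v.1 * x + Ideal.Quotient.mk _ v.2 = 0 ∧
        F' x + Ideal.Quotient.mk _ v.1 = 0 then (1 : ℝ) else 0 := by
    funext v
    unfold Good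
    by_cases h : ∃ x, F x + Ideal.Quotient.mk _ v.1 * x + Ideal.Quotient.mk _ v.2 = 0 ∧
        F' x + Ideal.Quotient.mk _ v.1 = 0
    · rw [if_pos h, if_neg]
      intro h3
      obtain ⟨x, hx⟩ := h
      exact h3 x hx
    · rw [if_neg h, if_pos]
      intro x hx
      exact h ⟨x, hx⟩
  rw [e, h1]
  have hc : (0 : ℝ) < Fintype.card (Rs P) := by exact_mod_cast Fintype.card_pos
  have h2 : (∑ a : Rs P, ∑ b : Rs P, if ∃ x, F x + a * x + b = 0 ∧ F' x + a = 0 then (1 : ℝ) else 0) ≤
      Fintype.card (Rs P) := by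
    rw [← Fintype.sum_prod_type' (fun a b => if ∃ x, F x + a * x + b = 0 ∧ F' x + a = 0 then (1 : ℝ) else 0),
      Finset.sum_boole]
    exact_mod_cast bad_card F F'
  rw [div_le_iff₀ (by positivity)]
  refine h2.trans (le_of_eq ?_)
  rw [card_Rs_r hm]
  have : rk k ^ (2 * P.natDegree) ≠ 0 := by
    have := (rk_bounds k).1
    positivity
  field_simp

end

end Pool.Agent.N430.CV
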