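import Pool.Agent.N430.CV.B4

set_option autoImplicit false
set_option linter.all false

/-! Centred variables. -/

namespace Pool.Agent.N430.CV

open Finset Polynomial Pool.Agent.N430.BP Pool.Agent.N430.BP.FF Pool.Agent.R410.NG Pool.Agent.N430.RT

section
variable {k : Type} [Field k] [Fintype k]

lemma mV_add (N : ℕ) (F G : k[X] × k[X] → ℝ) : mV N (fun v => F v + G v) = mV N F + mV N G := by
  unfold mV
  exact mn_add _ _

lemma mV_mul (N : ℕ) (c : ℝ) (F : k[X] × k[X] → ℝ) : mV N (fun v => c * F v) = c * mV N F := by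
  unfold mV
  exact mn_mul_left _ _

lemma mV_const (N : ℕ) (c : ℝ) : mV N (fun _ : k[X] × k[X] => c) = c := by
  unfold mV
  exact mn_const _

lemma mV_mono (N : ℕ) {F G : k[X] × k[X] → ℝ} (h : ∀ v, F v ≤ G v) : mV N F ≤ mV N G := by
  unfold mV
  exact mn_mono fun v => h _

lemma good_per {f₀ P : k[X]} : True := trivial

lemma Good_per (f₀ : k[X][X]) (P : k[X]) {v v' : k[X] × k[X]} (h1 : P ∣ v.1 - v'.1) (h2 : P ∣ v.2 - v'.2) :
    Good f₀ v.1 v.2 P ↔ Good f₀ v'.1 v'.2 P := by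
  have e1 : Ideal.Quotient.mk (Ideal.span {P}) v.1 = Ideal.Quotient.mk (Ideal.span {P}) v'.1 := by
    rw [mk_eq_iff]
    exact h1
  have e2 : Ideal.Quotient.mk (Ideal.span {P}) v.2 = Ideal.Quotient.mk (Ideal.span {P}) v'.2 := by
    rw [mk_eq_iff]
    exact h2
  unfold Good
  rw [e1, e2]

lemma XX_per (f₀ : k[X][X]) (M : ℕ) (P : k[X]) : Per P (XX f₀ M P) := by
  classical
  intro v v' h1 h2
  have e1 : trP f₀ v.1 v.2 P = trP f₀ v'.1 v'.2 P := trP_per f₀ P v v' h1 h2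
  have e2 := Good_per f₀ P h1 h2
  unfold XX
  rw [e1]
  simp only [e2]

open Classical in
/-- the bad indicator -/
noncomputable def bd (f₀ : k[X][X]) (P : k[X]) (v : k[X] × k[X]) : ℝ := if Good f₀ v.1 v.2 P then 0 else 1

lemma XX_eq (f₀ : k[X][X]) (M : ℕ) (P : k[X]) (v : k[X] × k[X]) : XX f₀ M P v =
    cf M P.natDegree * (rk k ^ (2 * P.natDegree) * trP f₀ v.1 v.2 P) +
    (if 2 * P.natDegree ≤ M then cf M (2 * P.natDegree) / 2 else 0) *
      (rk k ^ (4 * P.natDegree) * (trP f₀ v.1 v.2 P ^ 2 - 2 * (rk k ^ (2 * P.natDegree))⁻¹)) +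
    7 * rk k ^ P.natDegree * bd f₀ P v := by
  classical
  unfold XX bd
  split_ifs <;> ring

lemma bd_bounds (f₀ : k[X][X]) (P : k[X]) (v : k[X] × k[X]) :
    0 ≤ bd f₀ P v ∧ bd f₀ P v ≤ 1 ∧ bd f₀ P v ^ 2 = bd f₀ P v := by
  classical
  unfold bd
  split_ifs <;> norm_num

/-- bounds for the three parts -/
lemma parts {f₀ : k[X][X]} (hf : f₀.Monic) (hd : f₀.natDegree = 3) {M : ℕ} (hM : 3 ≤ M) {P : k[X]}
    (hm : P.Monic) (hP : Irreducible P) (hPM : P.natDegree ≤ M) (v : k[X] × k[X]) :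
    |cf M P.natDegree * (rk k ^ (2 * P.natDegree) * trP f₀ v.1 v.2 P)| ≤ 3 * rk k ^ P.natDegree ∧
    |(if 2 * P.natDegree ≤ M then cf M (2 * P.natDegree) / 2 else 0) *
      (rk k ^ (4 * P.natDegree) * (trP f₀ v.1 v.2 P ^ 2 - 2 * (rk k ^ (2 * P.natDegree))⁻¹))| ≤
      6 * (rk k ^ P.natDegree) ^ 2 := by
  obtain ⟨r0, r1⟩ := rk_bounds k
  set e := P.natDegree with he
  set r := rk k ^ e with hr
  have hr0 : 0 < r := by rw [hr]; positivity
  have hr2 : rk k ^ (2 * e) = r ^ 2 := by rw [hr, ← pow_mul, mul_comm]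
  have hr4 : rk k ^ (4 * e) = r ^ 4 := by rw [hr, ← pow_mul, mul_comm]
  obtain ⟨c0, c1⟩ := cf_bounds hM hPM
  obtain ⟨d0, d1⟩ := half_bounds (e := e) hM
  set c := cf M e with hc
  set d := (if 2 * e ≤ M then cf M (2 * e) / 2 else 0 : ℝ) with hdd
  rw [hr2, hr4]
  have h4 : |trP f₀ v.1 v.2 P| ≤ 3 * r⁻¹ := by
    have := trP_bound hf hd le_rfl (by decide) hm hP v.1 v.2
    rw [← hr] at this
    push_cast at this
    exact this
  set x := trP f₀ v.1 v.2 P with hx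
  constructor
  · rw [abs_mul, abs_mul, abs_of_nonneg c0, abs_of_nonneg (by positivity : 0 ≤ r ^ 2)]
    calc c * (r ^ 2 * |x|) ≤ 1 * (r ^ 2 * (3 * r⁻¹)) :=
          mul_le_mul c1 (mul_le_mul_of_nonneg_left h4 (by positivity)) (by positivity) (by norm_num)
      _ = 3 * r := by field_simp
  · rw [abs_mul, abs_mul, abs_of_nonneg d0, abs_of_nonneg (by positivity : 0 ≤ r ^ 4)]
    have h5 : |x ^ 2 - 2 * (r ^ 2)⁻¹| ≤ 11 * (r⁻¹) ^ 2 := by
      have h6 : x ^ 2 ≤ 9 * (r⁻¹) ^ 2 := by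
        have := pow_le_pow_left₀ (abs_nonneg x) h4 2
        rw [sq_abs] at this
        linarith [this, show (3 * r⁻¹) ^ 2 = 9 * (r⁻¹) ^ 2 by ring]
      have h7 : (r ^ 2)⁻¹ = (r⁻¹) ^ 2 := by rw [inv_pow]
      rw [h7, abs_le]
      have := sq_nonneg x
      have := sq_nonneg (r⁻¹)
      constructor <;> linarith
    calc d * (r ^ 4 * |x ^ 2 - 2 * (r ^ 2)⁻¹|) ≤ 1 / 2 * (r ^ 4 * (11 * (r⁻¹) ^ 2)) :=
          mul_le_mul d1 (mul_le_mul_of_nonneg_left h5 (by positivity)) (by positivity) (by norm_num)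
      _ = 11 / 2 * r ^ 2 := by field_simp
      _ ≤ 6 * r ^ 2 := by nlinarith [sq_nonneg r]

lemma XX_bound {f₀ : k[X][X]} (hf : f₀.Monic) (hd : f₀.natDegree = 3) {M : ℕ} (hM : 3 ≤ M) {P : k[X]}
    (hm : P.Monic) (hP : Irreducible P) (hPM : P.natDegree ≤ M) (v : k[X] × k[X]) :
    |XX f₀ M P v| ≤ 16 * rk k ^ P.natDegree := by
  obtain ⟨r0, r1⟩ := rk_bounds k
  obtain ⟨h1, h2⟩ := parts hf hd hM hm hP hPM v
  obtain ⟨h3, h4, _⟩ := bd_bounds f₀ P v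
  rw [XX_eq]
  set r := rk k ^ P.natDegree with hr
  have hr0 : 0 < r := by rw [hr]; positivity
  have hr1 : r ≤ 1 := by rw [hr]; exact pow_le_one₀ r0.le (by linarith)
  have h5 : |7 * r * bd f₀ P v| ≤ 7 * r := by
    rw [abs_of_nonneg (by positivity)]
    exact mul_le_of_le_one_right (by positivity) h4
  refine (abs_add_three _ _ _).trans ?_
  nlinarith

/-- **The mean.** -/
lemma XX_mean (h2 : ringChar k ≠ 2) {f₀ : k[X][X]} {M : ℕ} {P : k[X]}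
    (hm : P.Monic) (hP : Irreducible P) {N : ℕ} (hN : P.natDegree ≤ N) (hM : 3 ≤ M) :
    mV N (XX f₀ M P) ≤ -((if 2 * P.natDegree ≤ M then cf M (2 * P.natDegree) / 2 else 0) *
      rk k ^ (2 * P.natDegree)) + 7 * rk k ^ (3 * P.natDegree) := by
  classical
  obtain ⟨r0, r1⟩ := rk_bounds k
  have e1 := trP_mean h2 f₀ hm hP hN
  have e2 := trP_sq h2 f₀ hm hP hN
  have e3 := bad_mean f₀ hm hP hN
  set e := P.natDegree with he
  set r := rk k ^ e with hr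
  have hr0 : 0 < r := by rw [hr]; positivity
  have hr2 : rk k ^ (2 * e) = r ^ 2 := by rw [hr, ← pow_mul, mul_comm]
  have hr3 : rk k ^ (3 * e) = r ^ 3 := by rw [hr, ← pow_mul, mul_comm]
  have hr4 : rk k ^ (4 * e) = r ^ 4 := by rw [hr, ← pow_mul, mul_comm]
  obtain ⟨d0, d1⟩ := half_bounds (e := e) hM
  have h1 : XX f₀ M P = fun v => (cf M e * rk k ^ (2 * e) * trP f₀ v.1 v.2 P +
      ((if 2 * e ≤ M then cf M (2 * e) / 2 else 0) * rk k ^ (4 * e) * trP f₀ v.1 v.2 P ^ 2 +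
      -((if 2 * e ≤ M then cf M (2 * e) / 2 else 0) * rk k ^ (4 * e) * (2 * (rk k ^ (2 * e))⁻¹)))) +
      7 * r * bd f₀ P v := by
    funext v
    rw [XX_eq]
    ring
  rw [h1, mV_add, mV_add, mV_add, mV_mul, mV_mul, mV_mul, mV_const, e1, e2, hr2, hr3, hr4]
  have e4 : mV N (bd f₀ P) ≤ r ^ 2 := by
    rw [← hr2]
    exact e3
  set d := (if 2 * e ≤ M then cf M (2 * e) / 2 else 0 : ℝ) with hdd
  have h3 : d * r ^ 4 * ((r ^ 2)⁻¹ - 1) + -(d * r ^ 4 * (2 * (r ^ 2)⁻¹)) = -(d * r ^ 2) - d * r ^ 4 := by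
    field_simp
    ring
  have h4 : 7 * r * mV N (bd f₀ P) ≤ 7 * r ^ 3 := by
    calc 7 * r * mV N (bd f₀ P) ≤ 7 * r * r ^ 2 := mul_le_mul_of_nonneg_left e4 (by positivity)
      _ = _ := by ring
  have h5 : 0 ≤ d * r ^ 4 := by positivity
  rw [mul_zero, zero_add, h3]
  linarith

/-- **The second moment.** -/
lemma XX_sq (h2 : ringChar k ≠ 2) {f₀ : k[X][X]} (hf : f₀.Monic) (hd : f₀.natDegree = 3) {M : ℕ} {P : k[X]}
    (hm : P.Monic) (hP : Irreducible P) {N : ℕ} (hN : P.natDegree ≤ N) (hM : 3 ≤ M) (hPM : P.natDegree ≤ M) :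
    mV N (fun v => XX f₀ M P v ^ 2) ≤ rk k ^ (2 * P.natDegree) + 247 * rk k ^ (3 * P.natDegree) := by
  classical
  obtain ⟨r0, r1⟩ := rk_bounds k
  have e2 := trP_sq h2 f₀ hm hP hN
  have e3 := bad_mean f₀ hm hP hN
  have hparts := parts hf hd hM hm hP hPM
  obtain ⟨c0, c1⟩ := cf_bounds hM hPM
  set e := P.natDegree with he
  set r := rk k ^ e with hr
  have hr0 : 0 < r := by rw [hr]; positivity
  have hr1 : r ≤ 1 := by rw [hr]; exact pow_le_one₀ r0.le (by linarith)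
  have hr2 : rk k ^ (2 * e) = r ^ 2 := by rw [hr, ← pow_mul, mul_comm]
  have hr3 : rk k ^ (3 * e) = r ^ 3 := by rw [hr, ← pow_mul, mul_comm]
  have e4 : mV N (bd f₀ P) ≤ r ^ 2 := by
    rw [← hr2]
    exact e3
  have h1 : ∀ v, XX f₀ M P v ^ 2 ≤ (cf M e ^ 2 * r ^ 4 * trP f₀ v.1 v.2 P ^ 2 + 72 * r ^ 3) +
      175 * r ^ 2 * bd f₀ P v := by
    intro v
    obtain ⟨h3, h4⟩ := hparts v
    obtain ⟨b0, b1, b2⟩ := bd_bounds f₀ P v
    rw [XX_eq]
    set x := cf M e * (rk k ^ (2 * e) * trP f₀ v.1 v.2 P) with hx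
    set s := (if 2 * e ≤ M then cf M (2 * e) / 2 else 0) *
      (rk k ^ (4 * e) * (trP f₀ v.1 v.2 P ^ 2 - 2 * (rk k ^ (2 * e))⁻¹)) with hs
    set b := bd f₀ P v with hb
    have e5 : cf M e ^ 2 * r ^ 4 * trP f₀ v.1 v.2 P ^ 2 = x ^ 2 := by
      rw [hx, hr2]
      ring
    rw [e5]
    have h5 : |s + 7 * r * b| ≤ 6 * r ^ 2 + 7 * r * b := by
      refine (abs_add_le _ _).trans ?_
      rw [abs_of_nonneg (by positivity : 0 ≤ 7 * r * b)]
      linarith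
    have h6 : x * (s + 7 * r * b) ≤ 3 * r * (6 * r ^ 2 + 7 * r * b) := by
      refine (le_abs_self _).trans ?_
      rw [abs_mul]
      exact mul_le_mul h3 h5 (abs_nonneg _) (by positivity)
    have h7 : (s + 7 * r * b) ^ 2 ≤ (6 * r ^ 2 + 7 * r * b) ^ 2 := by
      rw [← sq_abs]
      exact pow_le_pow_left₀ (abs_nonneg _) h5 2
    have e6 : (x + s + 7 * r * b) ^ 2 = x ^ 2 + 2 * (x * (s + 7 * r * b)) + (s + 7 * r * b) ^ 2 := by ring
    rw [e6]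
    have e7 : (6 * r ^ 2 + 7 * r * b) ^ 2 = 36 * r ^ 4 + 84 * r ^ 3 * b + 49 * r ^ 2 * b := by
      have : b * b = b := by rw [← sq]; exact b2
      have : (6 * r ^ 2 + 7 * r * b) ^ 2 = 36 * r ^ 4 + 84 * r ^ 3 * b + 49 * r ^ 2 * (b * b) := by ring
      rw [this, ‹b * b = b›]
    rw [e7] at h7
    have h8 : r ^ 4 ≤ r ^ 3 := pow_le_pow_of_le_one hr0.le hr1 (by norm_num)
    have h9 : r ^ 3 * b ≤ r ^ 2 * b :=
      mul_le_mul_of_nonneg_right (pow_le_pow_of_le_one hr0.le hr1 (by norm_num)) b0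
    have e8 : 3 * r * (6 * r ^ 2 + 7 * r * b) = 18 * r ^ 3 + 21 * (r ^ 2 * b) := by ring
    rw [e8] at h6
    linarith
  refine (mV_mono N h1).trans ?_
  rw [mV_add, mV_add, mV_const, mV_mul, mV_mul, e2, hr2, hr3]
  have h4 : 175 * r ^ 2 * mV N (bd f₀ P) ≤ 175 * r ^ 3 := by
    calc 175 * r ^ 2 * mV N (bd f₀ P) ≤ 175 * r ^ 2 * r ^ 2 := mul_le_mul_of_nonneg_left e4 (by positivity)
      _ = 175 * r ^ 4 := by ring
      _ ≤ _ := by
        have : r ^ 4 ≤ r ^ 3 := pow_le_pow_of_le_one hr0.le hr1 (by norm_num)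
        linarith
  have h5 : cf M e ^ 2 * r ^ 4 * ((r ^ 2)⁻¹ - 1) ≤ r ^ 2 := by
    have h6 : cf M e ^ 2 ≤ 1 := pow_le_one₀ c0 c1
    have e9 : cf M e ^ 2 * r ^ 4 * ((r ^ 2)⁻¹ - 1) = cf M e ^ 2 * r ^ 2 - cf M e ^ 2 * r ^ 4 := by
      field_simp
    rw [e9]
    have h7 : cf M e ^ 2 * r ^ 2 ≤ 1 * r ^ 2 := mul_le_mul_of_nonneg_right h6 (by positivity)
    have h8 : 0 ≤ cf M e ^ 2 * r ^ 4 := by positivity
    linarith
  linarith

/-- the centred variable -/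
noncomputable def YY (f₀ : k[X][X]) (M N : ℕ) (P : k[X]) (v : k[X] × k[X]) : ℝ :=
  XX f₀ M P v - mV N (XX f₀ M P)

lemma abs_mV_le {N : ℕ} {F : k[X] × k[X] → ℝ} {b : ℝ} (h : ∀ v, |F v| ≤ b) : |mV N F| ≤ b := by
  unfold mV
  exact abs_mn_le fun v => h _

lemma YY_all (h2 : ringChar k ≠ 2) {f₀ : k[X][X]} (hf : f₀.Monic) (hd : f₀.natDegree = 3) {M : ℕ} {P : k[X]}
    (hm : P.Monic) (hP : Irreducible P) {N : ℕ} (hN : P.natDegree ≤ N) (hM : 3 ≤ M) (hPM : P.natDegree ≤ M) :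
    Per P (YY f₀ M N P) ∧ (∀ v, |YY f₀ M N P v| ≤ 32 * rk k ^ P.natDegree) ∧ mV N (YY f₀ M N P) = 0 ∧
    mV N (fun v => YY f₀ M N P v ^ 2) ≤ rk k ^ (2 * P.natDegree) + 247 * rk k ^ (3 * P.natDegree) := by
  have hb := XX_bound hf hd hM hm hP hPM
  have h3 : |mV N (XX f₀ M P)| ≤ 16 * rk k ^ P.natDegree := abs_mV_le hb
  refine ⟨fun v v' h4 h5 => ?_, fun v => ?_, ?_, ?_⟩
  · unfold YY
    rw [XX_per f₀ M P v v' h4 h5]
  · unfold YY
    refine (abs_sub _ _).trans ?_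
    linarith [hb v]
  · have e : YY f₀ M N P = fun v => XX f₀ M P v + (-(mV N (XX f₀ M P))) := by
      funext v
      rfl
    rw [e, mV_add, mV_const]
    ring
  · have e : (fun v => YY f₀ M N P v ^ 2) = fun v => (XX f₀ M P v ^ 2 +
        (-2 * mV N (XX f₀ M P)) * XX f₀ M P v) + mV N (XX f₀ M P) ^ 2 := by
      funext v
      unfold YY
      ring
    rw [e, mV_add, mV_add, mV_mul, mV_const]
    have h6 := XX_sq h2 hf hd hm hP hN hM hPM
    have h7 := sq_nonneg (mV N (XX f₀ M P))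
    have e2 : mV N (XX f₀ M P) = mV N (fun v => XX f₀ M P v) := rfl
    nlinarith

end

end Pool.Agent.N430.CV
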