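import Pool.Agent.N430.BP.FF3

set_option autoImplicit false
set_option linter.all false

/-! Truncated exponentials. -/

namespace Pool.Agent.N430.CV

open Finset Polynomial Pool.Agent.N430.BP Pool.Agent.N430.BP.FF

/-- the truncated exponential -/
noncomputable def tx (n : ℕ) (y : ℝ) : ℝ := ∑ m ∈ range n, y ^ m / (m.factorial : ℝ)

lemma tail_le {x : ℝ} (hx : 0 ≤ x) (n : ℕ) :
    Real.exp x - ∑ m ∈ range n, x ^ m / (m.factorial : ℝ) ≤ Real.exp (-n + 3 * x) := by
  have hs : ∀ y : ℝ, Summable fun m : ℕ => y ^ m / (m.factorial : ℝ) := Real.summable_pow_div_factorial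
  have he : ∀ y : ℝ, Real.exp y = ∑' m : ℕ, y ^ m / (m.factorial : ℝ) := fun y => by
    rw [Real.exp_eq_exp_ℝ, NormedSpace.exp_eq_tsum_div]
  have h1 : Real.exp x - ∑ m ∈ range n, x ^ m / (m.factorial : ℝ) =
      ∑' i : ℕ, x ^ (i + n) / ((i + n).factorial : ℝ) := by
    rw [he, ← (hs x).sum_add_tsum_nat_add n]
    ring
  have h2 : ∀ i : ℕ, x ^ (i + n) / ((i + n).factorial : ℝ) ≤
      Real.exp (-n) * ((3 * x) ^ (i + n) / ((i + n).factorial : ℝ)) := by
    intro i
    rw [← mul_div_assoc]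
    apply div_le_div_of_nonneg_right _ (Nat.cast_nonneg _)
    rw [mul_pow, ← mul_assoc]
    have h3 : 1 ≤ Real.exp (-n) * 3 ^ (i + n) := by
      have h4 : Real.exp n ≤ 3 ^ (i + n) := by
        calc Real.exp n = Real.exp 1 ^ n := by rw [← Real.exp_nat_mul, mul_one]
          _ ≤ 3 ^ n := pow_le_pow_left₀ (Real.exp_pos _).le (by linarith [Real.exp_one_lt_d9]) n
          _ ≤ 3 ^ (i + n) := pow_le_pow_right₀ (by norm_num) (by omega)
      calc (1 : ℝ) = Real.exp (-n) * Real.exp n := by rw [← Real.exp_add]; simp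
        _ ≤ _ := mul_le_mul_of_nonneg_left h4 (Real.exp_pos _).le
    exact le_mul_of_one_le_left (by positivity) h3
  have h5 : ∑' i : ℕ, (3 * x) ^ (i + n) / ((i + n).factorial : ℝ) ≤ Real.exp (3 * x) := by
    rw [he, ← (hs (3 * x)).sum_add_tsum_nat_add n]
    have : 0 ≤ ∑ m ∈ range n, (3 * x) ^ m / (m.factorial : ℝ) := Finset.sum_nonneg fun m _ => by positivity
    linarith
  have h6 : Summable fun i : ℕ => x ^ (i + n) / ((i + n).factorial : ℝ) :=
    (summable_nat_add_iff n).2 (hs x)
  have h7 : Summable fun i : ℕ => (3 * x) ^ (i + n) / ((i + n).factorial : ℝ) :=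
    (summable_nat_add_iff n).2 (hs (3 * x))
  rw [h1]
  calc ∑' i : ℕ, x ^ (i + n) / ((i + n).factorial : ℝ) ≤
      ∑' i : ℕ, Real.exp (-n) * ((3 * x) ^ (i + n) / ((i + n).factorial : ℝ)) :=
        h6.tsum_le_tsum h2 (h7.mul_left _)
    _ = Real.exp (-n) * ∑' i : ℕ, (3 * x) ^ (i + n) / ((i + n).factorial : ℝ) := tsum_mul_left
    _ ≤ Real.exp (-n) * Real.exp (3 * x) := mul_le_mul_of_nonneg_left h5 (Real.exp_pos _).le
    _ = _ := by rw [← Real.exp_add]

lemma exp_le_tx {y : ℝ} {n : ℕ} (h : 4 * |y| + 1 ≤ n) : Real.exp y ≤ 2 * tx n y := by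
  have h1 := Complex.norm_exp_sub_sum_le_exp_norm_sub_sum (y : ℂ) n
  have h2 : ‖Complex.exp (y : ℂ) - ∑ m ∈ range n, (y : ℂ) ^ m / m.factorial‖ = |Real.exp y - tx n y| := by
    have : Complex.exp (y : ℂ) - ∑ m ∈ range n, (y : ℂ) ^ m / m.factorial =
        ((Real.exp y - tx n y : ℝ) : ℂ) := by
      unfold tx
      push_cast
      rfl
    rw [this, Complex.norm_real, Real.norm_eq_abs]
  rw [h2, Complex.norm_real, Real.norm_eq_abs] at h1
  have h3 := tail_le (abs_nonneg y) n
  have h4 : Real.exp (-n + 3 * |y|) ≤ 1 / 2 * Real.exp y := by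
    have h5 : -(n : ℝ) + 3 * |y| ≤ -1 + y := by
      have := neg_abs_le y
      linarith
    calc Real.exp (-n + 3 * |y|) ≤ Real.exp (-1 + y) := Real.exp_le_exp.2 h5
      _ = Real.exp (-1) * Real.exp y := Real.exp_add _ _
      _ ≤ 1 / 2 * Real.exp y := by
        refine mul_le_mul_of_nonneg_right ?_ (Real.exp_pos _).le
        rw [Real.exp_neg, one_div]
        exact inv_anti₀ (by norm_num) (by linarith [Real.exp_one_gt_d9])
  have h6 := (abs_le.1 (h1.trans (h3.trans h4))).2
  linarith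

/-- the local series -/
lemma loc_series {t b : ℝ} (ht : 0 ≤ t) (hb : 0 ≤ b) (L : ℕ) :
    ∑ i ∈ range L, t ^ (i + 2) * b ^ i / ((i + 2).factorial : ℝ) ≤
      t ^ 2 / 2 + t ^ 3 * b * Real.exp (t * b) := by
  rcases L with _ | L
  · simp
    positivity
  rw [Finset.sum_range_succ']
  have h1 : ∑ i ∈ range L, t ^ (i + 1 + 2) * b ^ (i + 1) / ((i + 1 + 2).factorial : ℝ) ≤
      t ^ 3 * b * Real.exp (t * b) := by
    have h2 : ∀ i ∈ range L, t ^ (i + 1 + 2) * b ^ (i + 1) / ((i + 1 + 2).factorial : ℝ) ≤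
        t ^ 3 * b * ((t * b) ^ i / (i.factorial : ℝ)) := by
      intro i _
      have h3 : (i.factorial : ℝ) ≤ ((i + 1 + 2).factorial : ℝ) := by
        exact_mod_cast Nat.factorial_le (by omega)
      have h4 : (0 : ℝ) < i.factorial := by exact_mod_cast i.factorial_pos
      calc t ^ (i + 1 + 2) * b ^ (i + 1) / ((i + 1 + 2).factorial : ℝ) ≤
          t ^ (i + 1 + 2) * b ^ (i + 1) / (i.factorial : ℝ) :=
            div_le_div_of_nonneg_left (by positivity) h4 h3
        _ = _ := by
          rw [mul_pow]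
          ring
    refine (Finset.sum_le_sum h2).trans ?_
    rw [← Finset.mul_sum]
    exact mul_le_mul_of_nonneg_left (Real.sum_le_exp_of_nonneg (by positivity) L) (by positivity)
  have h5 : t ^ (0 + 2) * b ^ 0 / ((0 + 2).factorial : ℝ) = t ^ 2 / 2 := by
    simp
  rw [h5]
  linarith

lemma cauchy {A B : ℕ → ℝ} (hA : ∀ i, 0 ≤ A i) (hB : ∀ i, 0 ≤ B i) (L : ℕ) :
    ∑ n ∈ range L, ∑ j ∈ range (n + 1), A (n - j) * B j ≤
      (∑ i ∈ range L, A i) * ∑ j ∈ range L, B j := by
  have h1 : ∀ n ∈ range L, ∑ j ∈ range (n + 1), A (n - j) * B j =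
      ∑ j ∈ range L, if j ≤ n then A (n - j) * B j else 0 := by
    intro n hn
    rw [mem_range] at hn
    rw [← Finset.sum_filter]
    congr 1
    ext j
    simp only [mem_range, mem_filter]
    omega
  rw [Finset.sum_congr rfl h1, Finset.sum_comm, Finset.mul_sum]
  refine Finset.sum_le_sum fun j hj => ?_
  rw [mem_range] at hj
  rw [← Finset.sum_filter]
  have h2 : (range L).filter (fun n => j ≤ n) = Ico j L := by
    ext n
    simp only [mem_range, mem_filter, mem_Ico]
    omega
  rw [h2, Finset.sum_Ico_eq_sum_range]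
  have h3 : ∀ i ∈ range (L - j), A (j + i - j) * B j = A i * B j := by
    intro i _
    rw [Nat.add_sub_cancel_left]
  rw [Finset.sum_congr rfl h3, ← Finset.sum_mul]
  refine mul_le_mul_of_nonneg_right ?_ (hB j)
  exact Finset.sum_le_sum_of_subset_of_nonneg (range_subset_range.2 (Nat.sub_le L j)) fun i _ _ => hA i

lemma square_group {c : ℕ → ℝ} (hc : ∀ n, 0 ≤ c n) (J : ℕ) :
    ∑ i ∈ range (J + 1), ∑ j ∈ range (J + 1), c (i + j) / ((i.factorial : ℝ) * j.factorial) ≤
      ∑ n ∈ range (2 * J + 1), c n * (2 ^ n / (n.factorial : ℝ)) := by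
  have h1 : ∀ n : ℕ, (2 : ℝ) ^ n / (n.factorial : ℝ) =
      ∑ j ∈ range (n + 1), 1 / (((n - j).factorial : ℝ) * j.factorial) := by
    intro n
    have h2 : (2 : ℝ) ^ n = ∑ j ∈ range (n + 1), (n.choose j : ℝ) := by
      have := Nat.sum_range_choose n
      exact_mod_cast this.symm
    rw [h2, Finset.sum_div]
    refine Finset.sum_congr rfl fun j hj => ?_
    rw [mem_range] at hj
    rw [Nat.cast_choose ℝ (by omega)]
    have f1 : (j.factorial : ℝ) ≠ 0 := by exact_mod_cast j.factorial_ne_zero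
    have f2 : ((n - j).factorial : ℝ) ≠ 0 := by exact_mod_cast (n - j).factorial_ne_zero
    have f3 : (n.factorial : ℝ) ≠ 0 := by exact_mod_cast n.factorial_ne_zero
    field_simp
  have h2 : ∑ n ∈ range (2 * J + 1), c n * (2 ^ n / (n.factorial : ℝ)) =
      ∑ j ∈ range (2 * J + 1), ∑ n ∈ range (2 * J + 1),
        if j ≤ n then c n / (((n - j).factorial : ℝ) * j.factorial) else 0 := by
    rw [Finset.sum_comm]
    refine Finset.sum_congr rfl fun n hn => ?_
    rw [mem_range] at hn
    rw [h1, Finset.mul_sum, ← Finset.sum_filter]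
    refine Finset.sum_congr ?_ fun j _ => by rw [mul_one_div]
    ext j
    simp only [mem_range, mem_filter]
    omega
  rw [h2, Finset.sum_comm]
  refine le_trans ?_ (Finset.sum_le_sum_of_subset_of_nonneg (s := range (J + 1))
    (range_subset_range.2 (by omega)) fun j _ _ => Finset.sum_nonneg fun n _ => ?_)
  · refine Finset.sum_le_sum fun j hj => ?_
    rw [mem_range] at hj
    rw [← Finset.sum_filter]
    have h3 : (range (2 * J + 1)).filter (fun n => j ≤ n) = Ico j (2 * J + 1) := by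
      ext n
      simp only [mem_range, mem_filter, mem_Ico]
      omega
    rw [h3, Finset.sum_Ico_eq_sum_range]
    have h4 : ∀ i ∈ range (2 * J + 1 - j), c (j + i) / (((j + i - j).factorial : ℝ) * j.factorial) =
        c (i + j) / ((i.factorial : ℝ) * j.factorial) := by
      intro i _
      rw [Nat.add_sub_cancel_left, add_comm j i]
    rw [Finset.sum_congr rfl h4]
    refine Finset.sum_le_sum_of_subset_of_nonneg (range_subset_range.2 (by omega)) fun i _ _ => ?_
    have := hc (i + j)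
    positivity
  · split_ifs
    · have := hc n
      positivity
    · exact le_rfl

section
variable {k : Type} [Field k] [Fintype k]
variable {X : k[X] → k[X] × k[X] → ℝ} {b s : k[X] → ℝ} {x N : ℕ}

/-- **The generating function of the moments.** -/
theorem gen_le {I : Finset k[X]} (hI : ∀ P ∈ I, P.Monic ∧ Irreducible P ∧ P.natDegree ≤ x ∧
    Per P (X P)) (hb : ∀ P ∈ I, 0 ≤ b P ∧ (∀ v, |X P v| ≤ b P) ∧ mV N (X P) = 0 ∧
      mV N (fun v => X P v ^ 2) ≤ s P) {t : ℝ} (ht : 0 ≤ t) {L : ℕ} (hL : L * x ≤ N) :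
    ∑ n ∈ range L, t ^ n / (n.factorial : ℝ) * |mV N (fun v => (∑ Q ∈ I, X Q v) ^ n)| ≤
      Real.exp (∑ P ∈ I, s P * (t ^ 2 / 2 + t ^ 3 * b P * Real.exp (t * b P))) := by
  classical
  induction I using Finset.induction_on with
  | empty =>
    rw [Finset.sum_empty, Real.exp_zero]
    rcases L with _ | L
    · simp
    rw [Finset.sum_range_succ']
    have h1 : ∀ i ∈ range L, t ^ (i + 1) / ((i + 1).factorial : ℝ) *
        |mV N (fun v : k[X] × k[X] => (∑ Q ∈ (∅ : Finset k[X]), X Q v) ^ (i + 1))| = 0 := by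
      intro i _
      simp only [Finset.sum_empty, zero_pow (by omega : i + 1 ≠ 0)]
      unfold mV
      rw [mn_const, abs_zero, mul_zero]
    rw [Finset.sum_eq_zero h1]
    simp only [pow_zero]
    unfold mV
    rw [mn_const]
    simp
  | insert P I hPI ih =>
    have hI' := fun Q (hQ : Q ∈ I) => hI Q (mem_insert_of_mem hQ)
    have hb' := fun Q (hQ : Q ∈ I) => hb Q (mem_insert_of_mem hQ)
    have hP := hI P (mem_insert_self P I)
    obtain ⟨b0, b1, b2, b3⟩ := hb P (mem_insert_self P I)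
    have ih' := ih hI' hb'
    set A : ℕ → ℝ := fun n => t ^ n / (n.factorial : ℝ) * |mV N (fun v => (∑ Q ∈ I, X Q v) ^ n)| with hA
    set B : ℕ → ℝ := fun n => t ^ n / (n.factorial : ℝ) * |mV N (fun v => X P v ^ n)| with hB
    have hA0 : ∀ n, 0 ≤ A n := fun n => by rw [hA]; positivity
    have hB0 : ∀ n, 0 ≤ B n := fun n => by rw [hB]; positivity
    have h1 : ∀ n ∈ range L, t ^ n / (n.factorial : ℝ) *
        |mV N (fun v => (∑ Q ∈ insert P I, X Q v) ^ n)| ≤ ∑ j ∈ range (n + 1), A (n - j) * B j := by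
      intro n hn
      rw [mem_range] at hn
      have e1 : ∀ v, (∑ Q ∈ insert P I, X Q v) ^ n = ∑ j ∈ range (n + 1),
          (n.choose j : ℝ) * ((∑ Q ∈ I, X Q v) ^ (n - j) * X P v ^ j) := by
        intro v
        rw [Finset.sum_insert hPI, add_pow]
        refine Finset.sum_congr rfl fun j _ => ?_
        ring
      simp only [e1]
      have e2 : mV N (fun v => ∑ j ∈ range (n + 1),
          (n.choose j : ℝ) * ((∑ Q ∈ I, X Q v) ^ (n - j) * X P v ^ j)) =
          ∑ j ∈ range (n + 1), (n.choose j : ℝ) * (mV N (fun v => (∑ Q ∈ I, X Q v) ^ (n - j)) *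
            mV N (fun v => X P v ^ j)) := by
        unfold mV
        rw [mn_sum]
        refine Finset.sum_congr rfl fun j hj => ?_
        rw [mn_mul_left]
        congr 1
        refine mV_split hI' hP hPI ?_
        rw [mem_range] at hj
        refine le_trans (Nat.mul_le_mul_right x ?_) hL
        omega
      rw [e2]
      refine (mul_le_mul_of_nonneg_left (Finset.abs_sum_le_sum_abs _ _) (by positivity)).trans ?_
      rw [Finset.mul_sum]
      refine Finset.sum_le_sum fun j hj => ?_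
      rw [mem_range] at hj
      rw [abs_mul, abs_mul, Nat.abs_cast, Nat.cast_choose ℝ (by omega), hA, hB]
      simp only
      have f1 : (j.factorial : ℝ) ≠ 0 := by exact_mod_cast j.factorial_ne_zero
      have f2 : ((n - j).factorial : ℝ) ≠ 0 := by exact_mod_cast (n - j).factorial_ne_zero
      have f3 : (n.factorial : ℝ) ≠ 0 := by exact_mod_cast n.factorial_ne_zero
      have e3 : t ^ n = t ^ (n - j) * t ^ j := by
        rw [← pow_add]
        congr 1
        omega
      rw [e3]
      refine le_of_eq ?_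
      field_simp
    refine (Finset.sum_le_sum h1).trans ((cauchy hA0 hB0 L).trans ?_)
    rw [Finset.sum_insert hPI, Real.exp_add, mul_comm]
    refine mul_le_mul ?_ ih' (Finset.sum_nonneg fun n _ => hA0 n) (Real.exp_pos _).le
    -- the local factor
    have hs0 : 0 ≤ s P := by
      refine le_trans ?_ b3
      unfold mV mn
      positivity
    have h2 : ∀ i : ℕ, B (i + 2) ≤ s P * (t ^ (i + 2) * b P ^ i / ((i + 2).factorial : ℝ)) := by
      intro i
      rw [hB]
      simp only
      have h3 : |mV N (fun v => X P v ^ (i + 2))| ≤ b P ^ i * s P := by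
        have h4 : |mV N (fun v => X P v ^ (i + 2))| ≤ mV N (fun v => b P ^ i * X P v ^ 2) := by
          unfold mV mn
          rw [abs_div, abs_of_nonneg (Nat.cast_nonneg (Fintype.card (VV k N)) : (0 : ℝ) ≤ _)]
          refine div_le_div_of_nonneg_right ((Finset.abs_sum_le_sum_abs _ _).trans
            (Finset.sum_le_sum fun v _ => ?_)) (Nat.cast_nonneg _)
          simp only
          rw [pow_add, abs_mul, abs_pow, abs_of_nonneg (sq_nonneg (X P _))]
          exact mul_le_mul_of_nonneg_right (pow_le_pow_left₀ (abs_nonneg _) (b1 _) i) (sq_nonneg _)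
        refine h4.trans ?_
        have h5 : mV N (fun v => b P ^ i * X P v ^ 2) = b P ^ i * mV N (fun v => X P v ^ 2) := by
          unfold mV
          exact mn_mul_left _ _
        rw [h5]
        exact mul_le_mul_of_nonneg_left b3 (by positivity)
      calc t ^ (i + 2) / ((i + 2).factorial : ℝ) * |mV N (fun v => X P v ^ (i + 2))| ≤
          t ^ (i + 2) / ((i + 2).factorial : ℝ) * (b P ^ i * s P) :=
            mul_le_mul_of_nonneg_left h3 (by positivity)
        _ = _ := by ring
    have h3 : ∑ j ∈ range L, B j ≤ 1 + ∑ i ∈ range L, B (i + 2) := by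
      have h4 : ∑ j ∈ range L, B j ≤ ∑ j ∈ range (L + 2), B j :=
        Finset.sum_le_sum_of_subset_of_nonneg (range_subset_range.2 (by omega)) fun j _ _ => hB0 j
      refine h4.trans (le_of_eq ?_)
      rw [Finset.sum_range_succ', Finset.sum_range_succ']
      have e0 : B 0 = 1 := by
        rw [hB]
        simp only [pow_zero]
        unfold mV
        rw [mn_const]
        simp
      have e1 : B (0 + 1) = 0 := by
        rw [hB]
        simp only [zero_add, pow_one]
        rw [b2, abs_zero, mul_zero]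
      rw [e0, e1]
      ring
    refine h3.trans ?_
    have h4 : ∑ i ∈ range L, B (i + 2) ≤ s P * (t ^ 2 / 2 + t ^ 3 * b P * Real.exp (t * b P)) := by
      refine (Finset.sum_le_sum fun i _ => h2 i).trans ?_
      rw [← Finset.mul_sum]
      exact mul_le_mul_of_nonneg_left (loc_series ht b0 L) hs0
    have h5 := Real.add_one_le_exp (s P * (t ^ 2 / 2 + t ^ 3 * b P * Real.exp (t * b P)))
    linarith

/-- **The mean of the square of the truncated exponential.** -/
theorem tx_mean {I : Finset k[X]} (hI : ∀ P ∈ I, P.Monic ∧ Irreducible P ∧ P.natDegree ≤ x ∧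
    Per P (X P)) (hb : ∀ P ∈ I, 0 ≤ b P ∧ (∀ v, |X P v| ≤ b P) ∧ mV N (X P) = 0 ∧
      mV N (fun v => X P v ^ 2) ≤ s P) {t : ℝ} (ht : 0 ≤ t) {J : ℕ} (hL : (2 * J + 1) * x ≤ N) :
    mV N (fun v => tx (J + 1) (t / 2 * ∑ Q ∈ I, X Q v) ^ 2) ≤
      Real.exp (∑ P ∈ I, s P * (t ^ 2 / 2 + t ^ 3 * b P * Real.exp (t * b P))) := by
  refine le_trans ?_ (gen_le hI hb ht hL)
  set m : ℕ → ℝ := fun n => mV N (fun v => (∑ Q ∈ I, X Q v) ^ n) with hm
  have h1 : mV N (fun v => tx (J + 1) (t / 2 * ∑ Q ∈ I, X Q v) ^ 2) =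
      ∑ i ∈ range (J + 1), ∑ j ∈ range (J + 1), ((t / 2) ^ (i + j) * m (i + j)) /
        ((i.factorial : ℝ) * j.factorial) := by
    have e1 : ∀ v, tx (J + 1) (t / 2 * ∑ Q ∈ I, X Q v) ^ 2 = ∑ i ∈ range (J + 1), ∑ j ∈ range (J + 1),
        ((t / 2) ^ (i + j) / ((i.factorial : ℝ) * j.factorial)) * (∑ Q ∈ I, X Q v) ^ (i + j) := by
      intro v
      unfold tx
      rw [sq, Finset.sum_mul_sum]
      refine Finset.sum_congr rfl fun i _ => Finset.sum_congr rfl fun j _ => ?_
      rw [mul_pow, mul_pow, pow_add, pow_add]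
      have f1 : (j.factorial : ℝ) ≠ 0 := by exact_mod_cast j.factorial_ne_zero
      have f2 : (i.factorial : ℝ) ≠ 0 := by exact_mod_cast i.factorial_ne_zero
      field_simp
    simp only [e1]
    unfold mV
    rw [mn_sum]
    refine Finset.sum_congr rfl fun i _ => ?_
    rw [mn_sum]
    refine Finset.sum_congr rfl fun j _ => ?_
    rw [mn_mul_left, hm]
    simp only
    unfold mV
    ring
  rw [h1]
  have h2 : ∑ i ∈ range (J + 1), ∑ j ∈ range (J + 1), ((t / 2) ^ (i + j) * m (i + j)) /
      ((i.factorial : ℝ) * j.factorial) ≤ ∑ i ∈ range (J + 1), ∑ j ∈ range (J + 1),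
      ((t / 2) ^ (i + j) * |m (i + j)|) / ((i.factorial : ℝ) * j.factorial) := by
    refine Finset.sum_le_sum fun i _ => Finset.sum_le_sum fun j _ => ?_
    refine div_le_div_of_nonneg_right ?_ (by positivity)
    exact mul_le_mul_of_nonneg_left (le_abs_self _) (by positivity)
  refine h2.trans ((square_group (c := fun n => (t / 2) ^ n * |m n|) (fun n => by positivity) J).trans
    (le_of_eq ?_))
  refine Finset.sum_congr rfl fun n _ => ?_
  rw [div_pow]
  field_simp
  rfl

end

end Pool.Agent.N430.CV
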