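import Pool.Agent.N430.CV.B5
import Pool.Agent.N430.CV.B6

set_option autoImplicit false
set_option linter.all false

/-! Sums over the primes and large deviations. -/

namespace Pool.Agent.N430.CV

open Finset Polynomial Pool.Agent.N430.BP Pool.Agent.N430.BP.FF Pool.Agent.R410.NG Pool.Agent.N430.RT

section
variable {k : Type} [Field k] [Fintype k]

lemma sum_IR (F : ℕ → ℝ) (n : ℕ) : ∑ P ∈ IR k n, F P.natDegree = (#(IR k n) : ℝ) * F n := by
  rw [Finset.sum_congr rfl (g := fun _ => F n) fun P hP => by rw [(mem_IR.1 hP).2.2], Finset.sum_const,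
    nsmul_eq_mul]

lemma sum2 (a b : ℕ) : ∑ P ∈ PS k a b, rk k ^ (2 * P.natDegree) ≤ ∑ n ∈ Ico a b, 1 / ((n : ℝ) + 1) := by
  rw [PS_sum]
  refine Finset.sum_le_sum fun n _ => ?_
  rw [sum_IR (fun e => rk k ^ (2 * e))]
  have := dens_le k (n := n + 1) (by omega)
  push_cast at this
  exact this

lemma sum3 (a b : ℕ) : ∑ P ∈ PS k a b, rk k ^ (3 * P.natDegree) ≤ 4 := by
  obtain ⟨r0, r1⟩ := rk_bounds k
  rw [PS_sum]
  refine le_trans (Finset.sum_le_sum (g := fun n => rk k ^ n) fun n _ => ?_) ?_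
  · rw [sum_IR (fun e => rk k ^ (3 * e))]
    have h1 := dens_le k (n := n + 1) (by omega)
    have e : rk k ^ (3 * (n + 1)) = rk k ^ (2 * (n + 1)) * rk k ^ (n + 1) := by
      rw [← pow_add]
      congr 1
      ring
    rw [e, ← mul_assoc]
    have h2 : (1 : ℝ) / ((n + 1 : ℕ) : ℝ) ≤ 1 := by
      rw [div_le_one (by positivity)]
      push_cast
      have : (0 : ℝ) ≤ n := Nat.cast_nonneg n
      linarith
    calc (#(IR k (n + 1)) : ℝ) * rk k ^ (2 * (n + 1)) * rk k ^ (n + 1) ≤ 1 * rk k ^ (n + 1) :=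
          mul_le_mul_of_nonneg_right (h1.trans h2) (by positivity)
      _ ≤ rk k ^ n := by
        rw [one_mul]
        exact pow_le_pow_of_le_one r0.le (by linarith) (by omega)
  · refine le_trans (Finset.sum_le_sum_of_subset_of_nonneg (t := range b) ?_ fun _ _ _ => by positivity)
      (geom_le k b)
    intro n hn
    rw [mem_Ico] at hn
    rw [mem_range]
    exact hn.2

lemma harm_le (M : ℕ) : ∑ n ∈ Ico 0 M, 1 / ((n : ℝ) + 1) ≤ 1 + Real.log M := by
  have h1 := harmonic_le_one_add_log M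
  have h2 : ((harmonic M : ℚ) : ℝ) = ∑ n ∈ Ico 0 M, 1 / ((n : ℝ) + 1) := by
    unfold harmonic
    push_cast
    rw [← Finset.range_eq_Ico]
    simp [one_div]
  rwa [h2] at h1

lemma cf_ge {M e : ℕ} (hM : 3 ≤ M) (he : 2 * e ≤ M) : 1 - 6 * (e : ℝ) / M ≤ cf M (2 * e) := by
  have hMr : (3 : ℝ) ≤ M := by exact_mod_cast hM
  have hM0 : (0 : ℝ) < M := by linarith
  have hy : 2 / (M : ℝ) ≤ 2 / 3 := div_le_div_of_nonneg_left (by norm_num) (by norm_num) hMr
  have hy0 : 0 < 2 / (M : ℝ) := by positivity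
  have h1 := one_add_mul_le_pow (a := -(2 / (M : ℝ))) (by linarith) (2 * e)
  have heM : (2 * (e : ℝ)) / M ≤ 1 := by
    rw [div_le_one hM0]
    exact_mod_cast he
  have he0 : 0 ≤ (2 * (e : ℝ)) / M := by positivity
  unfold cf
  push_cast at h1 ⊢
  have h2 : 1 - 2 * (2 * (e : ℝ) / M) ≤ (1 - 2 / (M : ℝ)) ^ (2 * e) := by
    have e1 : 1 + 2 * (e : ℝ) * -(2 / (M : ℝ)) = 1 - 2 * (2 * (e : ℝ) / M) := by ring
    rw [e1, ← sub_eq_add_neg] at h1
    exact h1
  set y := 2 * (e : ℝ) / M with hyd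
  have e2 : 6 * (e : ℝ) / M = 3 * y := by rw [hyd]; ring
  rw [e2]
  have h3 : (1 - y) * (1 - 2 * y) ≤ (1 - y) * (1 - 2 / (M : ℝ)) ^ (2 * e) :=
    mul_le_mul_of_nonneg_left h2 (by linarith)
  nlinarith

/-- **The total mean.** -/
theorem mean_total (h2 : ringChar k ≠ 2) (f₀ : k[X][X]) {M N : ℕ} (hM : 3 ≤ M) (hN : M ≤ N) :
    ∑ P ∈ PS k 0 M, mV N (XX f₀ M P) ≤ -(1 / 2) * Real.log M + 34 := by
  obtain ⟨r0, r1⟩ := rk_bounds k
  have hMr : (3 : ℝ) ≤ M := by exact_mod_cast hM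
  have hM0 : (0 : ℝ) < M := by linarith
  set h : ℕ → ℝ := fun e => if 2 * e ≤ M then cf M (2 * e) / 2 else 0 with hh
  have h1 : ∑ P ∈ PS k 0 M, mV N (XX f₀ M P) ≤
      ∑ P ∈ PS k 0 M, (-(h P.natDegree * rk k ^ (2 * P.natDegree)) + 7 * rk k ^ (3 * P.natDegree)) := by
    refine Finset.sum_le_sum fun P hP => ?_
    obtain ⟨g1, g2, g3, g4⟩ := mem_PS hP
    exact XX_mean h2 g1 g2 (by omega) hM
  rw [Finset.sum_add_distrib, ← Finset.mul_sum, Finset.sum_neg_distrib] at h1
  have h3 := sum3 (k := k) 0 M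
  have h4 : 1 / 2 * Real.log M - 6 ≤ ∑ P ∈ PS k 0 M, h P.natDegree * rk k ^ (2 * P.natDegree) := by
    rw [PS_sum, ← Finset.range_eq_Ico]
    have h5 : ∀ n ∈ range M, ∑ P ∈ IR k (n + 1), h P.natDegree * rk k ^ (2 * P.natDegree) =
        h (n + 1) * ((#(IR k (n + 1)) : ℝ) * rk k ^ (2 * (n + 1))) := by
      intro n _
      rw [sum_IR (fun e => h e * rk k ^ (2 * e))]
      ring
    rw [Finset.sum_congr rfl h5]
    have h6 : ∑ n ∈ range (M / 2), (1 / 2 * (1 / ((n : ℝ) + 1)) - (3 / M + rk k ^ n)) ≤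
        ∑ n ∈ range M, h (n + 1) * ((#(IR k (n + 1)) : ℝ) * rk k ^ (2 * (n + 1))) := by
      refine le_trans (Finset.sum_le_sum fun n hn => ?_)
        (Finset.sum_le_sum_of_subset_of_nonneg (s := range (M / 2)) (range_subset_range.2 (by omega))
          fun n _ _ => ?_)
      · rw [mem_range] at hn
        have h7 : 2 * (n + 1) ≤ M := by omega
        have h8 := cf_ge (e := n + 1) hM h7
        have h9 := (abs_le.1 (density k (n := n + 1) (by omega))).1
        obtain ⟨c0, c1⟩ := cf_bounds hM h7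
        rw [hh]
        simp only
        rw [if_pos h7]
        set c := cf M (2 * (n + 1)) with hc
        set D := (#(IR k (n + 1)) : ℝ) * rk k ^ (2 * (n + 1)) with hD
        push_cast at h8 h9
        have h10 : rk k ^ (n + 1) ≤ rk k ^ n := pow_le_pow_of_le_one r0.le (by linarith) (by omega)
        have h11 : 0 < rk k ^ (n + 1) := by positivity
        have hn1 : (0 : ℝ) < (n : ℝ) + 1 := by positivity
        have h12 : c * (1 / ((n : ℝ) + 1) - 2 * rk k ^ (n + 1)) ≤ c * D :=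
          mul_le_mul_of_nonneg_left (by linarith) c0
        have h13 : (1 - 6 * ((n : ℝ) + 1) / M) * (1 / ((n : ℝ) + 1)) ≤ c * (1 / ((n : ℝ) + 1)) :=
          mul_le_mul_of_nonneg_right h8 (by positivity)
        have e1 : (1 - 6 * ((n : ℝ) + 1) / M) * (1 / ((n : ℝ) + 1)) = 1 / ((n : ℝ) + 1) - 6 / M := by
          field_simp
        have h14 : c * (2 * rk k ^ (n + 1)) ≤ 2 * rk k ^ (n + 1) :=
          mul_le_of_le_one_left (by positivity) c1
        have e2 : (3 : ℝ) / M = 6 / M / 2 := by ring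
        rw [e1] at h13
        rw [e2]
        nlinarith
      · have h7 : 0 ≤ h (n + 1) := (half_bounds (e := n + 1) hM).1
        positivity
    rw [Finset.sum_sub_distrib, ← Finset.mul_sum, Finset.sum_add_distrib, Finset.sum_const, card_range,
      nsmul_eq_mul] at h6
    have h7 := geom_le k (M / 2)
    have h8 : ((M / 2 : ℕ) : ℝ) * (3 / M) ≤ 3 / 2 := by
      have h9 : ((M / 2 : ℕ) : ℝ) ≤ M / 2 := Nat.cast_div_le
      calc ((M / 2 : ℕ) : ℝ) * (3 / M) ≤ (M / 2) * (3 / M) := mul_le_mul_of_nonneg_right h9 (by positivity)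
        _ = 3 / 2 := by field_simp
    have h9 : Real.log M - 1 ≤ ∑ n ∈ range (M / 2), 1 / ((n : ℝ) + 1) := by
      have h10 := log_add_one_le_harmonic (M / 2)
      have h11 : ((harmonic (M / 2) : ℚ) : ℝ) = ∑ n ∈ range (M / 2), 1 / ((n : ℝ) + 1) := by
        unfold harmonic
        push_cast
        simp [one_div]
      rw [h11] at h10
      have h12 : Real.log M - Real.log 2 ≤ Real.log (((M / 2 : ℕ) : ℝ) + 1) := by
        rw [← Real.log_div hM0.ne' (by norm_num)]
        apply Real.log_le_log (by positivity)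
        have : M < 2 * (M / 2 + 1) := by omega
        have h13 : (M : ℝ) < 2 * (((M / 2 : ℕ) : ℝ) + 1) := by exact_mod_cast this
        linarith
      have h13 := Real.log_two_lt_d9
      push_cast at h10
      linarith
    linarith
  linarith

/-- **Large deviations.** -/
theorem cheb (h2 : ringChar k ≠ 2) {f₀ : k[X][X]} (hf : f₀.Monic) (hd : f₀.natDegree = 3) {M N a b m : ℕ}
    (hM : 3 ≤ M) (hb : b ≤ M) (hm : 1 ≤ m) (hN : (2 * m + 1) * b ≤ N) {V W : ℝ} (hV0 : 0 < V)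
    (hV : ∑ n ∈ Ico a b, 1 / ((n : ℝ) + 1) ≤ V) (hW : 0 < W) :
    mV N (fun v => open Classical in if W ≤ |∑ P ∈ PS k a b, YY f₀ M N P v| then (1 : ℝ) else 0) ≤
      (12288 * m * V / W ^ 2) ^ m := by
  classical
  have hbN : b ≤ N := by nlinarith
  have h1 := moment_sub (k := k) (X := YY f₀ M N) (b := fun P => 32 * rk k ^ P.natDegree) (x := b) (N := N)
    (I := PS k a b) (by
      intro P hP
      obtain ⟨g1, g2, g3, g4⟩ := mem_PS hP
      exact ⟨g1, g2, g4, (YY_all h2 hf hd g1 g2 (by omega) hM (by omega)).1⟩) (by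
      intro P hP
      obtain ⟨g1, g2, g3, g4⟩ := mem_PS hP
      obtain ⟨_, y2, y3, _⟩ := YY_all h2 hf hd g1 g2 (N := N) (by omega) hM (by omega)
      have := (rk_bounds k).1
      exact ⟨by positivity, y2, y3⟩) hm hN (V := 1024 * V) (by positivity) (by
      have h3 : ∑ P ∈ PS k a b, (32 * rk k ^ P.natDegree) ^ 2 = 1024 * ∑ P ∈ PS k a b, rk k ^ (2 * P.natDegree) := by
        rw [Finset.mul_sum]
        refine Finset.sum_congr rfl fun P _ => ?_
        rw [mul_pow, ← pow_mul, mul_comm P.natDegree 2]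
        norm_num
      rw [h3]
      exact mul_le_mul_of_nonneg_left ((sum2 a b).trans hV) (by norm_num))
  have h3 : ∀ v : k[X] × k[X], (if W ≤ |∑ P ∈ PS k a b, YY f₀ M N P v| then (1 : ℝ) else 0) ≤
      (W ^ (2 * m))⁻¹ * (∑ P ∈ PS k a b, YY f₀ M N P v) ^ (2 * m) := by
    intro v
    split_ifs with h
    · rw [inv_mul_eq_div, le_div_iff₀ (by positivity), one_mul]
      have h4 := pow_le_pow_left₀ hW.le h (2 * m)
      rwa [pow_mul |_|, sq_abs, ← pow_mul] at h4
    · have : 0 ≤ (∑ P ∈ PS k a b, YY f₀ M N P v) ^ (2 * m) := by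
        rw [pow_mul]
        positivity
      positivity
  refine (mV_mono N h3).trans ?_
  rw [mV_mul]
  refine (mul_le_mul_of_nonneg_left h1 (by positivity)).trans (le_of_eq ?_)
  rw [pow_mul W, ← inv_pow, ← mul_pow]
  congr 1
  field_simp
  ring

end

end Pool.Agent.N430.CV
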