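import Pool.Agent.N430.CV.B7

set_option autoImplicit false
set_option linter.all false

/-! The tail of the central values. -/

namespace Pool.Agent.N430.CV

open Finset Polynomial Pool.Agent.N430.BP Pool.Agent.N430.BP.FF Pool.Agent.R410.NG Pool.Agent.N430.RT

section
variable {k : Type} [Field k] [Fintype k]

/-- the hypothesis on the values -/
def Vals (f₀ : k[X][X]) (κ : ℝ) (N : ℕ) (val : VV k N → ℝ) : Prop :=
  ∀ v, 0 ≤ val v ∧ val v ≤ Real.exp (κ * N) ∧ ∀ M : ℕ, 3 ≤ M →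
    val v ≤ Real.exp (∑ P ∈ PS k 0 M, XX f₀ M P ((v.1 : k[X]), (v.2 : k[X])) + 48 + 2 * (κ * N) / M)

lemma sumXX (h2 : ringChar k ≠ 2) (f₀ : k[X][X]) {M N : ℕ} (hM : 3 ≤ M) (hN : M ≤ N) (v : k[X] × k[X]) :
    ∑ P ∈ PS k 0 M, XX f₀ M P v ≤ ∑ P ∈ PS k 0 M, YY f₀ M N P v + (-(1 / 2) * Real.log M + 34) := by
  have h1 : ∑ P ∈ PS k 0 M, XX f₀ M P v = ∑ P ∈ PS k 0 M, YY f₀ M N P v +
      ∑ P ∈ PS k 0 M, mV N (XX f₀ M P) := by
    rw [← Finset.sum_add_distrib]
    refine Finset.sum_congr rfl fun P _ => ?_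
    unfold YY
    ring
  rw [h1]
  have := mean_total h2 f₀ hM hN
  linarith

open Classical in
/-- **The tail.** -/
theorem tailA (h2 : ringChar k ≠ 2) {f₀ : k[X][X]} (hf : f₀.Monic) (hd : f₀.natDegree = 3) {κ t : ℝ}
    (hκ : 1 ≤ κ) (ht : 0 < t) {N : ℕ} (hN : 3 ≤ N) {val : VV k N → ℝ} (hv : Vals f₀ κ N val) {V : ℝ}
    (hV : 1500 * Real.exp (136 * κ * (t + 1)) * Real.log N ≤ V) (hV2 : V ≤ κ * N) :
    mn (fun v : VV k N => if Real.exp V ≤ val v then (1 : ℝ) else 0) ≤ Real.exp (-((t + 1) * V)) := by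
  set ℓ := Real.log N with hℓ
  have hℓ1 : 1 ≤ ℓ := log_ge hN
  have hNr : (3 : ℝ) ≤ N := by exact_mod_cast hN
  set B := 136 * κ * (t + 1) with hB
  have hB0 : 0 < B := by positivity
  have hexp : B + 1 ≤ Real.exp B := Real.add_one_le_exp B
  have hκ0 : 0 < κ := by linarith
  have hB1 : 136 * κ ≤ B := by
    rw [hB]
    nlinarith
  have hV1 : 1500 * Real.exp B ≤ V := by
    refine le_trans ?_ hV
    have : (0 : ℝ) ≤ 1500 * Real.exp B := by positivity
    nlinarith
  have hV136 : 136 * κ ≤ V := by nlinarith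
  have hV1500 : 1500 ≤ V := by nlinarith [Real.exp_pos B]
  have hV0 : 0 < V := by linarith
  -- the length
  set M := ⌈16 * κ * N / V⌉₊ with hM
  have hge : (16 : ℝ) ≤ 16 * κ * N / V := by
    rw [le_div_iff₀ hV0]
    nlinarith
  have hM1 : 16 * κ * N / V ≤ M := Nat.le_ceil _
  have hM2 : (M : ℝ) < 16 * κ * N / V + 1 := Nat.ceil_lt_add_one (by linarith)
  have hM16 : (16 : ℝ) ≤ M := hge.trans hM1
  have hM3 : 3 ≤ M := by
    have : (3 : ℝ) ≤ M := by linarith
    exact_mod_cast this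
  have hM0 : (0 : ℝ) < M := by linarith
  have hM17 : (M : ℝ) ≤ 17 * κ * N / V := by
    have e : 17 * κ * N / V = 16 * κ * N / V + κ * N / V := by ring
    have : 1 ≤ κ * N / V := by rw [le_div_iff₀ hV0]; linarith
    linarith
  have hcost : 2 * (κ * N) / M ≤ V / 8 := by
    rw [div_le_iff₀ hM0]
    have := mul_le_mul_of_nonneg_left hM1 (by positivity : 0 ≤ V / 8)
    have e : V / 8 * (16 * κ * N / V) = 2 * (κ * N) := by
      field_simp
      ring
    rw [e] at this
    exact this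
  -- the moment
  set m := ⌊V / (68 * κ)⌋₊ with hm
  have hmle : (m : ℝ) ≤ V / (68 * κ) := Nat.floor_le (by positivity)
  have hmge : V / (136 * κ) ≤ m := by
    have h1 : V / (68 * κ) < m + 1 := Nat.lt_floor_add_one _
    have h3 : 1 ≤ V / (136 * κ) := by
      rw [le_div_iff₀ (by positivity)]
      linarith
    have e : V / (68 * κ) = V / (136 * κ) + V / (136 * κ) := by
      field_simp
      ring
    linarith
  have hm1 : 1 ≤ m := by
    have h3 : 1 ≤ V / (136 * κ) := by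
      rw [le_div_iff₀ (by positivity)]
      linarith
    have : (1 : ℝ) ≤ m := h3.trans hmge
    exact_mod_cast this
  have hMN : (2 * m + 1) * M ≤ N := by
    have h3 : (2 * (m : ℝ) + 1) ≤ V / (17 * κ) := by
      have h4 : 1 ≤ V / (34 * κ) := by
        rw [le_div_iff₀ (by positivity)]
        linarith
      have e : V / (17 * κ) = 2 * (V / (68 * κ)) + V / (34 * κ) := by
        field_simp
        ring
      linarith
    have h4 : (2 * (m : ℝ) + 1) * M ≤ N := by
      calc (2 * (m : ℝ) + 1) * M ≤ V / (17 * κ) * (17 * κ * N / V) :=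
            mul_le_mul h3 hM17 hM0.le (by positivity)
        _ = N := by field_simp
    exact_mod_cast h4
  have hMleN : M ≤ N := by nlinarith
  have hlogM : 1 + Real.log M ≤ 2 * ℓ := by
    have : Real.log M ≤ ℓ := Real.log_le_log hM0 (by exact_mod_cast hMleN)
    linarith
  have hlogM0 : 0 ≤ Real.log M := Real.log_nonneg (by linarith)
  have key := cheb h2 hf hd (a := 0) (b := M) (N := N) hM3 le_rfl hm1 hMN (V := 2 * ℓ) (W := V / 2)
    (by linarith) ((harm_le M).trans hlogM) (by linarith)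
  have h5 : mn (fun v : VV k N => if Real.exp V ≤ val v then (1 : ℝ) else 0) ≤
      mV N (fun v => if V / 2 ≤ |∑ P ∈ PS k 0 M, YY f₀ M N P v| then (1 : ℝ) else 0) := by
    unfold mV
    refine mn_mono fun v => ?_
    simp only
    split_ifs with h6 h7 h7
    · exact le_rfl
    · exfalso
      apply h7
      have h8 := (hv v).2.2 M hM3
      have h9 := Real.exp_le_exp.1 (h6.trans h8)
      have h10 := sumXX h2 f₀ hM3 hMleN ((v.1 : k[X]), (v.2 : k[X]))
      have h11 := le_abs_self (∑ P ∈ PS k 0 M, YY f₀ M N P ((v.1 : k[X]), (v.2 : k[X])))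
      linarith
    · norm_num
    · exact le_rfl
  refine h5.trans (key.trans ?_)
  have h6 : 12288 * m * (2 * ℓ) / (V / 2) ^ 2 ≤ Real.exp (-B) := by
    have h7 : 12288 * m * (2 * ℓ) / (V / 2) ^ 2 ≤ 1500 * ℓ / V := by
      rw [div_le_div_iff₀ (by positivity) hV0]
      have h8 : (m : ℝ) * 68 ≤ V := by
        have h9 := mul_le_mul_of_nonneg_right hmle (by positivity : 0 ≤ 68 * κ)
        have e : V / (68 * κ) * (68 * κ) = V := by field_simp
        rw [e] at h9
        have : (m : ℝ) * 68 ≤ m * (68 * κ) := by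
          have : (0 : ℝ) ≤ m := Nat.cast_nonneg m
          nlinarith
        linarith
      have h9 : (0 : ℝ) ≤ ℓ * V := by positivity
      have h10 := mul_le_mul_of_nonneg_left h8 h9
      nlinarith
    have h8 : 1500 * ℓ / V ≤ Real.exp (-B) := by
      rw [div_le_iff₀ hV0, Real.exp_neg]
      have h9 := mul_le_mul_of_nonneg_left hV (by positivity : 0 ≤ (Real.exp B)⁻¹)
      have e : (Real.exp B)⁻¹ * (1500 * Real.exp B * ℓ) = 1500 * ℓ := by
        have := (Real.exp_pos B).ne'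
        field_simp
      linarith
    exact h7.trans h8
  calc (12288 * m * (2 * ℓ) / (V / 2) ^ 2) ^ m ≤ Real.exp (-B) ^ m :=
        pow_le_pow_left₀ (by positivity) h6 m
    _ = Real.exp (-(B * m)) := by
        rw [← Real.exp_nat_mul]
        congr 1
        ring
    _ ≤ Real.exp (-((t + 1) * V)) := by
        apply Real.exp_le_exp.2
        have h7 := mul_le_mul_of_nonneg_left hmge hB0.le
        have e : B * (V / (136 * κ)) = (t + 1) * V := by
          rw [hB]
          field_simp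
        linarith

open Classical in
/-- **The contribution of the large values.** -/
theorem tail_sum (h2 : ringChar k ≠ 2) {f₀ : k[X][X]} (hf : f₀.Monic) (hd : f₀.natDegree = 3) {κ t : ℝ}
    (hκ : 1 ≤ κ) (ht : 0 < t) {N : ℕ} (hN : 3 ≤ N) {val : VV k N → ℝ} (hv : Vals f₀ κ N val) {j₀ : ℕ}
    (hj : 1500 * Real.exp (136 * κ * (t + 1)) * Real.log N ≤ j₀) :
    mn (fun v : VV k N => if Real.exp j₀ ≤ val v then val v ^ t else 0) ≤
      2 * Real.exp t * Real.exp (-j₀) := by
  set L := ⌊κ * N⌋₊ + 1 with hL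
  have hκN : 0 ≤ κ * N := by positivity
  have h1 : ∀ v : VV k N, (if Real.exp j₀ ≤ val v then val v ^ t else 0) ≤
      ∑ j ∈ Ico j₀ L, Real.exp (t * (j + 1)) * (if Real.exp j ≤ val v then (1 : ℝ) else 0) := by
    intro v
    obtain ⟨v0, v1, _⟩ := hv v
    split_ifs with h
    · have hp : 0 < val v := lt_of_lt_of_le (Real.exp_pos _) h
      have hl : (j₀ : ℝ) ≤ Real.log (val v) := (Real.le_log_iff_exp_le hp).2 h
      have hl0 : 0 ≤ Real.log (val v) := le_trans (Nat.cast_nonneg _) hl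
      set j := ⌊Real.log (val v)⌋₊ with hjd
      have hj1 : (j : ℝ) ≤ Real.log (val v) := Nat.floor_le hl0
      have hj2 : Real.log (val v) < j + 1 := Nat.lt_floor_add_one _
      have hjm : j ∈ Ico j₀ L := by
        rw [mem_Ico]
        refine ⟨Nat.le_floor hl, ?_⟩
        rw [hL, Nat.lt_succ_iff]
        apply Nat.floor_le_floor
        rw [← Real.log_exp (κ * N)]
        exact Real.log_le_log hp v1
      refine le_trans ?_ (Finset.single_le_sum (f := fun j : ℕ => Real.exp (t * (j + 1)) *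
        (if Real.exp j ≤ val v then (1 : ℝ) else 0)) (fun j _ => by positivity) hjm)
      rw [if_pos ((Real.le_log_iff_exp_le hp).1 hj1), mul_one, Real.rpow_def_of_pos hp]
      apply Real.exp_le_exp.2
      nlinarith
    · exact Finset.sum_nonneg fun j _ => by positivity
  refine (mn_mono h1).trans ?_
  rw [mn_sum]
  have h3 : ∀ j ∈ Ico j₀ L, mn (fun v : VV k N => Real.exp (t * (j + 1)) *
      (if Real.exp j ≤ val v then (1 : ℝ) else 0)) ≤ Real.exp t * Real.exp (-j₀) * (1 / 2) ^ (j - j₀) := by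
    intro j hj'
    rw [mem_Ico] at hj'
    rw [mn_mul_left]
    have h4 : (j : ℝ) ≤ κ * N := by
      have : j ≤ ⌊κ * N⌋₊ := by omega
      exact (Nat.le_floor_iff hκN).1 this
    have h5 : (j₀ : ℝ) ≤ j := by exact_mod_cast hj'.1
    have h6 := tailA h2 hf hd hκ ht hN hv (V := j) (hj.trans h5) h4
    refine (mul_le_mul_of_nonneg_left h6 (Real.exp_pos _).le).trans ?_
    have e : Real.exp (t * (j + 1)) * Real.exp (-((t + 1) * j)) =
        Real.exp t * Real.exp (-j₀) * Real.exp (-((j - j₀ : ℕ) : ℝ)) := by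
      rw [← Real.exp_add, ← Real.exp_add, ← Real.exp_add, Nat.cast_sub hj'.1]
      congr 1
      ring
    rw [e]
    refine mul_le_mul_of_nonneg_left ?_ (by positivity)
    have e2 : Real.exp (-((j - j₀ : ℕ) : ℝ)) = Real.exp (-1) ^ (j - j₀) := by
      rw [← Real.exp_nat_mul]
      congr 1
      ring
    rw [e2]
    refine pow_le_pow_left₀ (Real.exp_pos _).le ?_ _
    rw [Real.exp_neg, one_div]
    exact inv_anti₀ (by norm_num) (by linarith [Real.exp_one_gt_d9])
  refine (Finset.sum_le_sum h3).trans ?_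
  rw [← Finset.mul_sum, Finset.sum_Ico_eq_sum_range]
  have h4 : ∑ i ∈ range (L - j₀), (1 / 2 : ℝ) ^ (j₀ + i - j₀) ≤ 2 := by
    have h5 : ∀ i ∈ range (L - j₀), (1 / 2 : ℝ) ^ (j₀ + i - j₀) = (1 / 2) ^ i := by
      intro i _
      rw [Nat.add_sub_cancel_left]
    rw [Finset.sum_congr rfl h5]
    exact sum_geometric_two_le _
  calc Real.exp t * Real.exp (-j₀) * ∑ i ∈ range (L - j₀), (1 / 2 : ℝ) ^ (j₀ + i - j₀) ≤
      Real.exp t * Real.exp (-j₀) * 2 := mul_le_mul_of_nonneg_left h4 (by positivity)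
    _ = _ := by ring

/-- the constant of the exponential moments -/
noncomputable def Ct (t : ℝ) : ℝ := 4 * (124 * t ^ 2 + 7936 * t ^ 3 * Real.exp (32 * t))

/-- **The exponential moments of the sum over the small primes.** -/
theorem expo (h2 : ringChar k ≠ 2) {f₀ : k[X][X]} (hf : f₀.Monic) (hd : f₀.natDegree = 3) {t : ℝ}
    (ht : 0 < t) {M M₁ N J : ℕ} (hM : 3 ≤ M) (hM₁ : M₁ ≤ M) (hN : (2 * J + 1) * M₁ ≤ N) :
    mV N (fun v => tx (J + 1) (t / 2 * ∑ Q ∈ PS k 0 M₁, YY f₀ M N Q v) ^ 2) ≤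
      Real.exp (t ^ 2 / 2 * (1 + Real.log M₁) + Ct t) := by
  obtain ⟨r0, r1⟩ := rk_bounds k
  have hMN : M₁ ≤ N := by nlinarith
  have h1 := tx_mean (k := k) (X := YY f₀ M N) (b := fun P => 32 * rk k ^ P.natDegree)
    (s := fun P => rk k ^ (2 * P.natDegree) + 247 * rk k ^ (3 * P.natDegree)) (x := M₁) (N := N)
    (I := PS k 0 M₁) (by
      intro P hP
      obtain ⟨g1, g2, g3, g4⟩ := mem_PS hP
      exact ⟨g1, g2, g4, (YY_all h2 hf hd g1 g2 (by omega) hM (by omega)).1⟩) (by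
      intro P hP
      obtain ⟨g1, g2, g3, g4⟩ := mem_PS hP
      obtain ⟨_, y2, y3, y4⟩ := YY_all h2 hf hd g1 g2 (N := N) (by omega) hM (by omega)
      exact ⟨by positivity, y2, y3, y4⟩) ht.le hN
  refine h1.trans (Real.exp_le_exp.2 ?_)
  have h3 : ∀ P ∈ PS k 0 M₁, (rk k ^ (2 * P.natDegree) + 247 * rk k ^ (3 * P.natDegree)) *
      (t ^ 2 / 2 + t ^ 3 * (32 * rk k ^ P.natDegree) * Real.exp (t * (32 * rk k ^ P.natDegree))) ≤
      t ^ 2 / 2 * rk k ^ (2 * P.natDegree) + (124 * t ^ 2 + 7936 * t ^ 3 * Real.exp (32 * t)) *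
        rk k ^ (3 * P.natDegree) := by
    intro P _
    set e := P.natDegree
    set r := rk k ^ e with hr
    have hr0 : 0 < r := by rw [hr]; positivity
    have hr1 : r ≤ 1 := by rw [hr]; exact pow_le_one₀ r0.le (by linarith)
    have hr2 : rk k ^ (2 * e) = r ^ 2 := by rw [hr, ← pow_mul, mul_comm]
    have hr3 : rk k ^ (3 * e) = r ^ 3 := by rw [hr, ← pow_mul, mul_comm]
    rw [hr2, hr3]
    have h4 : Real.exp (t * (32 * r)) ≤ Real.exp (32 * t) := Real.exp_le_exp.2 (by nlinarith)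
    have h5 : r ^ 2 + 247 * r ^ 3 ≤ 248 * r ^ 2 := by
      have : r ^ 3 ≤ r ^ 2 := pow_le_pow_of_le_one hr0.le hr1 (by norm_num)
      linarith
    have h6 : (r ^ 2 + 247 * r ^ 3) * (t ^ 3 * (32 * r) * Real.exp (t * (32 * r))) ≤
        (248 * r ^ 2) * (t ^ 3 * (32 * r) * Real.exp (32 * t)) :=
      mul_le_mul h5 (mul_le_mul_of_nonneg_left h4 (by positivity)) (by positivity) (by positivity)
    have e1 : (248 * r ^ 2) * (t ^ 3 * (32 * r) * Real.exp (32 * t)) =
        7936 * t ^ 3 * Real.exp (32 * t) * r ^ 3 := by ring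
    rw [e1] at h6
    have h7 : 0 ≤ t ^ 2 * r ^ 3 := by positivity
    nlinarith
  refine (Finset.sum_le_sum h3).trans ?_
  rw [Finset.sum_add_distrib, ← Finset.mul_sum, ← Finset.mul_sum]
  have h4 := (sum2 (k := k) 0 M₁).trans (harm_le M₁)
  have h5 := sum3 (k := k) 0 M₁
  have h6 := mul_le_mul_of_nonneg_left h4 (by positivity : 0 ≤ t ^ 2 / 2)
  have h7 := mul_le_mul_of_nonneg_left h5 (by positivity : 0 ≤ 124 * t ^ 2 + 7936 * t ^ 3 * Real.exp (32 * t))
  unfold Ct
  linarith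

end

end Pool.Agent.N430.CV
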