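import Pool.Agent.N430.CV.B8

set_option autoImplicit false
set_option linter.all false

/-! The moments of the central values. -/

namespace Pool.Agent.N430.CV

open Finset Polynomial Pool.Agent.N430.BP Pool.Agent.N430.BP.FF Pool.Agent.R410.NG Pool.Agent.N430.RT

section
variable {k : Type} [Field k] [Fintype k]

lemma PS_split {M₁ M : ℕ} (h : M₁ ≤ M) (F : k[X] → ℝ) :
    ∑ P ∈ PS k 0 M, F P = ∑ P ∈ PS k 0 M₁, F P + ∑ P ∈ PS k M₁ M, F P := by
  rw [PS_sum, PS_sum, PS_sum, Finset.sum_Ico_consecutive _ (Nat.zero_le _) h]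

lemma inv_sum_le {a b : ℕ} : ∑ n ∈ Ico a b, 1 / ((n : ℝ) + 1) ≤ b * (1 / ((a : ℝ) + 1)) := by
  calc ∑ n ∈ Ico a b, 1 / ((n : ℝ) + 1) ≤ ∑ n ∈ Ico a b, 1 / ((a : ℝ) + 1) := by
        refine Finset.sum_le_sum fun n hn => ?_
        rw [mem_Ico] at hn
        apply div_le_div_of_nonneg_left (by norm_num) (by positivity)
        have : (a : ℝ) ≤ n := by exact_mod_cast hn.1
        linarith
    _ = ((b - a : ℕ) : ℝ) * (1 / ((a : ℝ) + 1)) := by
        rw [Finset.sum_const, Nat.card_Ico, nsmul_eq_mul]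
    _ ≤ _ := by
        refine mul_le_mul_of_nonneg_right ?_ (by positivity)
        exact_mod_cast Nat.sub_le b a

set_option maxHeartbeats 4000000 in
open Classical in
/-- **The core estimate.** -/
theorem core (h2 : ringChar k ≠ 2) {f₀ : k[X][X]} (hf : f₀.Monic) (hd : f₀.natDegree = 3) {κ t : ℝ}
    (hκ : 1 ≤ κ) (ht : 0 < t) {N : ℕ} (hN : 3 ≤ N) {val : VV k N → ℝ} (hv : Vals f₀ κ N val)
    {δ A B A1 G V2 B2 : ℝ} (hδ0 : 0 < δ) (hδ1 : δ ≤ 1) (hA : A = 1500 * Real.exp (136 * κ * (t + 1)))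
    (hB : B = 2 * t * A + t) (hA1 : A1 = 300 * (B + 1)) (hG : G = 2 * B + 4 * t * A1 + 5)
    (hV2 : V2 = 3 * κ * G / δ) (hB2 : B2 = 24 * κ * B / δ) (c2 : Real.log (Real.log N) ≤ δ * Real.log N)
    (c3 : 24 * κ / δ ≤ Real.log N) (c4 : 1024 * V2 * Real.exp B2 / (κ * δ) ≤ Real.log N) :
    mn (fun v : VV k N => val v ^ t) ≤ 2 * Real.exp t * Real.exp (-Real.log N) +
      (4 * Real.exp (82 * t + t ^ 2 / 2 + Ct t) * Real.exp ((t ^ 2 / 2 - t / 2 + 5 / 2 * t * δ) * Real.log N) +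
        2 * Real.exp (-(t * Real.log N))) := by
  set ℓ := Real.log N with hℓ
  have hℓ1 : 1 ≤ ℓ := log_ge hN
  have hℓ0 : 0 < ℓ := by linarith
  have hNr : (3 : ℝ) ≤ N := by exact_mod_cast hN
  have hN0 : (0 : ℝ) < N := by linarith
  have hκ0 : 0 < κ := by linarith
  have hℓN : ℓ ≤ N - 1 := Real.log_le_sub_one_of_pos hN0
  have hA1500 : 1500 ≤ A := by
    rw [hA]
    have := Real.one_le_exp (by positivity : 0 ≤ 136 * κ * (t + 1))
    linarith
  have hB0 : 0 < B := by rw [hB]; positivity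
  have hA10 : 0 < A1 := by rw [hA1]; positivity
  have hG5 : 5 ≤ G := by
    rw [hG]
    have : 0 ≤ 4 * t * A1 := by positivity
    linarith
  have hG0 : 0 < G := by linarith
  have hV20 : 0 < V2 := by rw [hV2]; positivity
  have hδℓ : 0 < δ * ℓ := by positivity
  -- the threshold
  set j₀ := ⌈A * ℓ⌉₊ with hj₀
  have hj1 : A * ℓ ≤ j₀ := Nat.le_ceil _
  have hj2 : (j₀ : ℝ) ≤ 2 * A * ℓ := by
    have h1 : (j₀ : ℝ) < A * ℓ + 1 := Nat.ceil_lt_add_one (by positivity)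
    nlinarith
  -- the length
  set M := ⌈2 * κ * N / (δ * ℓ)⌉₊ with hM
  have hx : 2 < 2 * κ * N / (δ * ℓ) := by
    rw [lt_div_iff₀ hδℓ]
    have h1 : δ * ℓ ≤ ℓ := by nlinarith
    nlinarith
  have hM3 : 3 ≤ M := by
    have : 2 < M := Nat.lt_ceil.2 (by push_cast; exact hx)
    omega
  have hM0 : (0 : ℝ) < M := by
    have : 0 < M := by omega
    exact_mod_cast this
  have hM1 : 2 * κ * N / (δ * ℓ) ≤ M := Nat.le_ceil _
  have hM2 : (M : ℝ) ≤ 3 * κ * N / (δ * ℓ) := by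
    have h1 : (M : ℝ) < 2 * κ * N / (δ * ℓ) + 1 := Nat.ceil_lt_add_one (by linarith)
    have h3 : 1 ≤ κ * N / (δ * ℓ) := by
      rw [le_div_iff₀ hδℓ]
      have h1 : δ * ℓ ≤ ℓ := by nlinarith
      nlinarith
    have e : 3 * κ * N / (δ * ℓ) = 2 * κ * N / (δ * ℓ) + κ * N / (δ * ℓ) := by ring
    linarith
  have hcost : 2 * (κ * N) / M ≤ δ * ℓ := by
    rw [div_le_iff₀ hM0]
    have := mul_le_mul_of_nonneg_left hM1 hδℓ.le
    have e : δ * ℓ * (2 * κ * N / (δ * ℓ)) = 2 * (κ * N) := by field_simp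
    rw [e] at this
    exact this
  have hlogM : ℓ - δ * ℓ ≤ Real.log M := by
    have h1 : (N : ℝ) / ℓ ≤ M := by
      refine le_trans ?_ hM1
      rw [div_le_div_iff₀ hℓ0 hδℓ]
      have h3 : (N : ℝ) * (δ * ℓ) ≤ N * ℓ := mul_le_mul_of_nonneg_left (by nlinarith) hN0.le
      have h4 : (N : ℝ) * ℓ ≤ 2 * κ * N * ℓ := by
        have : 0 < (N : ℝ) * ℓ := by positivity
        nlinarith
      linarith
    have h3 := Real.log_le_log (by positivity) h1
    rw [Real.log_div hN0.ne' hℓ0.ne'] at h3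
    linarith
  -- the small primes
  set M₁ := ⌊(N : ℝ) / (G * ℓ)⌋₊ with hM₁
  have hM₁1 : (M₁ : ℝ) ≤ N / (G * ℓ) := Nat.floor_le (by positivity)
  have hM₁2 : (N : ℝ) / (G * ℓ) < M₁ + 1 := Nat.lt_floor_add_one _
  have hM₁M : M₁ ≤ M := by
    have h1 : (M₁ : ℝ) ≤ M := by
      refine hM₁1.trans (le_trans ?_ hM1)
      rw [div_le_div_iff₀ (by positivity) hδℓ]
      have h3 : (N : ℝ) * (δ * ℓ) ≤ N * ℓ := mul_le_mul_of_nonneg_left (by nlinarith) hN0.le
      have h4 : (N : ℝ) * ℓ ≤ 2 * κ * N * (G * ℓ) := by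
        have h5 : 0 < (N : ℝ) * ℓ := by positivity
        have h6 : 1 ≤ 2 * κ * G := by nlinarith
        have e : 2 * κ * N * (G * ℓ) = (2 * κ * G) * (N * ℓ) := by ring
        rw [e]
        nlinarith
      linarith
    exact_mod_cast h1
  have hM₁N : (M₁ : ℝ) ≤ N := by
    refine hM₁1.trans ?_
    rw [div_le_iff₀ (by positivity)]
    have h1 : 1 ≤ G * ℓ := by nlinarith
    exact le_mul_of_one_le_right hN0.le h1
  have hlogM₁ : Real.log M₁ ≤ ℓ := by
    rcases Nat.eq_zero_or_pos M₁ with h0 | h0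
    · rw [h0, Nat.cast_zero, Real.log_zero]
      exact hℓ0.le
    · exact Real.log_le_log (by exact_mod_cast h0) hM₁N
  have small : ∀ x : ℕ, (x : ℝ) ≤ G * ℓ → x * M₁ ≤ N := by
    intro x hx
    have h1 : (x : ℝ) * M₁ ≤ N := by
      calc (x : ℝ) * M₁ ≤ (G * ℓ) * (N / (G * ℓ)) := mul_le_mul hx hM₁1 (Nat.cast_nonneg _) (by positivity)
        _ = N := by field_simp
    exact_mod_cast h1
  -- the moments of the small primes
  set m₁ := ⌈B * ℓ⌉₊ with hm₁
  have hm₁1 : B * ℓ ≤ m₁ := Nat.le_ceil _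
  have hm₁2 : (m₁ : ℝ) < B * ℓ + 1 := Nat.ceil_lt_add_one (by positivity)
  have hm₁3 : 1 ≤ m₁ := by
    have : 0 < m₁ := Nat.ceil_pos.2 (by positivity)
    omega
  have hm₁4 : (m₁ : ℝ) ≤ (B + 1) * ℓ := by nlinarith
  have htA1 : 0 < t * A1 := by positivity
  have hm₁N : (2 * m₁ + 1) * M₁ ≤ N := by
    apply small
    push_cast
    rw [hG]
    nlinarith
  have key1 := cheb h2 hf hd (a := 0) (b := M₁) (N := N) hM3 hM₁M hm₁3 hm₁N (V := 2 * ℓ) (W := A1 * ℓ)
    (by positivity) ((harm_le M₁).trans (by linarith)) (by positivity)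
  have key1' : (12288 * m₁ * (2 * ℓ) / (A1 * ℓ) ^ 2) ^ m₁ ≤ Real.exp (-(B * ℓ)) := by
    have h3 : 12288 * m₁ * (2 * ℓ) / (A1 * ℓ) ^ 2 ≤ Real.exp (-1) := by
      have h4 : (1 : ℝ) / 3 ≤ Real.exp (-1) := by
        rw [Real.exp_neg, one_div]
        exact inv_anti₀ (Real.exp_pos _) (by linarith [Real.exp_one_lt_d9])
      refine le_trans ?_ h4
      rw [div_le_div_iff₀ (by positivity) (by norm_num)]
      have h5 : 12288 * (m₁ : ℝ) * (2 * ℓ) * 3 ≤ 73728 * ((B + 1) * ℓ) * ℓ := by nlinarith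
      have h6 : 1 * (A1 * ℓ) ^ 2 = 90000 * ((B + 1) * (B + 1)) * (ℓ * ℓ) := by
        rw [hA1]
        ring
      rw [h6]
      have h7 : (B + 1) * (ℓ * ℓ) ≤ ((B + 1) * (B + 1)) * (ℓ * ℓ) := by
        refine mul_le_mul_of_nonneg_right ?_ (by positivity)
        nlinarith
      have h8 : 0 ≤ (B + 1) * (ℓ * ℓ) := by positivity
      nlinarith
    calc (12288 * m₁ * (2 * ℓ) / (A1 * ℓ) ^ 2) ^ m₁ ≤ Real.exp (-1) ^ m₁ :=
          pow_le_pow_left₀ (by positivity) h3 m₁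
      _ = Real.exp (-m₁) := by
          rw [← Real.exp_nat_mul]
          congr 1
          ring
      _ ≤ _ := Real.exp_le_exp.2 (by linarith)
  -- the moments of the large primes
  set m₂ := ⌊δ * ℓ / (12 * κ)⌋₊ with hm₂
  have hm₂1 : (m₂ : ℝ) ≤ δ * ℓ / (12 * κ) := Nat.floor_le (by positivity)
  have h24 : 24 * κ ≤ δ * ℓ := by
    rw [div_le_iff₀ hδ0] at c3
    linarith
  have hm₂2 : δ * ℓ / (24 * κ) ≤ m₂ := by
    have h1 : δ * ℓ / (12 * κ) < m₂ + 1 := Nat.lt_floor_add_one _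
    have h3 : 1 ≤ δ * ℓ / (24 * κ) := by
      rw [le_div_iff₀ (by positivity)]
      linarith
    have e : δ * ℓ / (12 * κ) = δ * ℓ / (24 * κ) + δ * ℓ / (24 * κ) := by
      field_simp
      ring
    linarith
  have hm₂3 : 1 ≤ m₂ := by
    have h3 : 1 ≤ δ * ℓ / (24 * κ) := by
      rw [le_div_iff₀ (by positivity)]
      linarith
    have : (1 : ℝ) ≤ m₂ := h3.trans hm₂2
    exact_mod_cast this
  have hm₂N : (2 * m₂ + 1) * M ≤ N := by
    have h3 : (2 * (m₂ : ℝ) + 1) ≤ δ * ℓ / (3 * κ) := by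
      have h4 : 1 ≤ δ * ℓ / (6 * κ) := by
        rw [le_div_iff₀ (by positivity)]
        linarith
      have e : δ * ℓ / (3 * κ) = 2 * (δ * ℓ / (12 * κ)) + δ * ℓ / (6 * κ) := by
        field_simp
        ring
      linarith
    have h4 : (2 * (m₂ : ℝ) + 1) * M ≤ N := by
      calc (2 * (m₂ : ℝ) + 1) * M ≤ δ * ℓ / (3 * κ) * (3 * κ * N / (δ * ℓ)) :=
            mul_le_mul h3 hM2 hM0.le (by positivity)
        _ = N := by field_simp
    exact_mod_cast h4
  have hMN : M ≤ N := by nlinarith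
  have key2 := cheb h2 hf hd (a := M₁) (b := M) (N := N) hM3 le_rfl hm₂3 hm₂N (V := V2) (W := δ * ℓ)
    hV20 (by
      refine inv_sum_le.trans ?_
      have h3 : (0 : ℝ) < (M₁ : ℝ) + 1 := by positivity
      have h4 : 1 / ((M₁ : ℝ) + 1) ≤ G * ℓ / N := by
        rw [div_le_div_iff₀ h3 hN0]
        rw [div_lt_iff₀ (by positivity)] at hM₁2
        linarith
      calc (M : ℝ) * (1 / ((M₁ : ℝ) + 1)) ≤ (3 * κ * N / (δ * ℓ)) * (G * ℓ / N) :=
            mul_le_mul hM2 h4 (by positivity) (by positivity)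
        _ = V2 := by
            rw [hV2]
            field_simp) hδℓ
  have key2' : (12288 * m₂ * V2 / (δ * ℓ) ^ 2) ^ m₂ ≤ Real.exp (-(B * ℓ)) := by
    have h3 : 12288 * m₂ * V2 / (δ * ℓ) ^ 2 ≤ Real.exp (-B2) := by
      have h4 : 12288 * m₂ * V2 / (δ * ℓ) ^ 2 ≤ 1024 * V2 / (κ * δ) / ℓ := by
        have h5 : 12288 * (m₂ : ℝ) * V2 / (δ * ℓ) ^ 2 ≤ 12288 * (δ * ℓ / (12 * κ)) * V2 / (δ * ℓ) ^ 2 := by
          refine div_le_div_of_nonneg_right ?_ (by positivity)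
          refine mul_le_mul_of_nonneg_right ?_ hV20.le
          exact mul_le_mul_of_nonneg_left hm₂1 (by norm_num)
        refine h5.trans (le_of_eq ?_)
        field_simp
        ring
      refine h4.trans ?_
      rw [div_le_iff₀ hℓ0, Real.exp_neg]
      have h5 := mul_le_mul_of_nonneg_left c4 (by positivity : 0 ≤ (Real.exp B2)⁻¹)
      have e : (Real.exp B2)⁻¹ * (1024 * V2 * Real.exp B2 / (κ * δ)) = 1024 * V2 / (κ * δ) := by
        have := (Real.exp_pos B2).ne'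
        field_simp
      rw [e] at h5
      exact h5
    calc (12288 * m₂ * V2 / (δ * ℓ) ^ 2) ^ m₂ ≤ Real.exp (-B2) ^ m₂ :=
          pow_le_pow_left₀ (by positivity) h3 m₂
      _ = Real.exp (-(B2 * m₂)) := by
          rw [← Real.exp_nat_mul]
          congr 1
          ring
      _ ≤ _ := by
          apply Real.exp_le_exp.2
          have hB20 : 0 ≤ B2 := by rw [hB2]; positivity
          have h4 := mul_le_mul_of_nonneg_left hm₂2 hB20
          have e : B2 * (δ * ℓ / (24 * κ)) = B * ℓ := by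
            rw [hB2]
            field_simp
          linarith
  -- the exponential moment
  set J := ⌈2 * t * A1 * ℓ⌉₊ with hJ
  have hJ1 : 2 * t * A1 * ℓ ≤ J := Nat.le_ceil _
  have hJ2 : (J : ℝ) < 2 * t * A1 * ℓ + 1 := Nat.ceil_lt_add_one (by positivity)
  have hJN : (2 * J + 1) * M₁ ≤ N := by
    apply small
    push_cast
    rw [hG]
    nlinarith
  have key3 := expo h2 hf hd ht hM3 hM₁M hJN
  -- the four parts
  set Y1 : k[X] × k[X] → ℝ := fun v => ∑ P ∈ PS k 0 M₁, YY f₀ M N P v with hY1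
  set Y2 : k[X] × k[X] → ℝ := fun v => ∑ P ∈ PS k M₁ M, YY f₀ M N P v with hY2
  set F1 : VV k N → ℝ := fun v => if Real.exp j₀ ≤ val v then val v ^ t else 0 with hF1
  set E0 : ℝ := Real.exp (t * (82 + 2 * (δ * ℓ) - 1 / 2 * Real.log M)) with hE0
  set F2 : VV k N → ℝ := fun v => (E0 * 4) * tx (J + 1) (t / 2 * Y1 ((v.1 : k[X]), (v.2 : k[X]))) ^ 2 with hF2
  set F3 : VV k N → ℝ := fun v => Real.exp (t * j₀) *
    (if A1 * ℓ ≤ |Y1 ((v.1 : k[X]), (v.2 : k[X]))| then (1 : ℝ) else 0) with hF3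
  set F4 : VV k N → ℝ := fun v => Real.exp (t * j₀) *
    (if δ * ℓ ≤ |Y2 ((v.1 : k[X]), (v.2 : k[X]))| then (1 : ℝ) else 0) with hF4
  have hpt : ∀ v, val v ^ t ≤ (F1 v + F2 v) + (F3 v + F4 v) := by
    intro v
    obtain ⟨v0, v1, v2⟩ := hv v
    have p1 : 0 ≤ F1 v := by
      simp only [hF1]
      split_ifs <;> positivity
    have p2 : 0 ≤ F2 v := by
      simp only [hF2]
      positivity
    have p3 : 0 ≤ F3 v := by
      simp only [hF3]
      positivity
    have p4 : 0 ≤ F4 v := by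
      simp only [hF4]
      positivity
    by_cases q1 : Real.exp j₀ ≤ val v
    · have : F1 v = val v ^ t := by simp only [hF1, if_pos q1]
      linarith
    have hvt : val v ^ t ≤ Real.exp (t * j₀) := by
      push Not at q1
      calc val v ^ t ≤ Real.exp j₀ ^ t := Real.rpow_le_rpow v0 q1.le ht.le
        _ = Real.exp (t * j₀) := by rw [← Real.exp_mul, mul_comm]
    by_cases q2 : A1 * ℓ ≤ |Y1 ((v.1 : k[X]), (v.2 : k[X]))|
    · have : F3 v = Real.exp (t * j₀) := by simp only [hF3, if_pos q2, mul_one]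
      linarith
    by_cases q3 : δ * ℓ ≤ |Y2 ((v.1 : k[X]), (v.2 : k[X]))|
    · have : F4 v = Real.exp (t * j₀) := by simp only [hF4, if_pos q3, mul_one]
      linarith
    -- the good case
    push Not at q2 q3
    have g1 := v2 M hM3
    have g2 := sumXX h2 f₀ hM3 hMN ((v.1 : k[X]), (v.2 : k[X]))
    rw [PS_split hM₁M (fun P => YY f₀ M N P ((v.1 : k[X]), (v.2 : k[X])))] at g2
    have g3 := le_abs_self (Y2 ((v.1 : k[X]), (v.2 : k[X])))
    have g4 : val v ≤ Real.exp (Y1 ((v.1 : k[X]), (v.2 : k[X])) + (82 + 2 * (δ * ℓ) - 1 / 2 * Real.log M)) := by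
      refine g1.trans (Real.exp_le_exp.2 ?_)
      have e1 : ∑ P ∈ PS k 0 M₁, YY f₀ M N P ((v.1 : k[X]), (v.2 : k[X])) = Y1 ((v.1 : k[X]), (v.2 : k[X])) := rfl
      have e2 : ∑ P ∈ PS k M₁ M, YY f₀ M N P ((v.1 : k[X]), (v.2 : k[X])) = Y2 ((v.1 : k[X]), (v.2 : k[X])) := rfl
      rw [e1, e2] at g2
      linarith
    have g5 : val v ^ t ≤ E0 * Real.exp (t / 2 * Y1 ((v.1 : k[X]), (v.2 : k[X]))) ^ 2 := by
      calc val v ^ t ≤ Real.exp (Y1 ((v.1 : k[X]), (v.2 : k[X])) +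
            (82 + 2 * (δ * ℓ) - 1 / 2 * Real.log M)) ^ t := Real.rpow_le_rpow v0 g4 ht.le
        _ = _ := by
          rw [← Real.exp_mul, hE0, ← Real.exp_nat_mul, ← Real.exp_add]
          congr 1
          push_cast
          ring
    have g6 : Real.exp (t / 2 * Y1 ((v.1 : k[X]), (v.2 : k[X]))) ≤
        2 * tx (J + 1) (t / 2 * Y1 ((v.1 : k[X]), (v.2 : k[X]))) := by
      apply exp_le_tx
      rw [abs_mul, abs_of_pos (by positivity : 0 < t / 2)]
      push_cast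
      have := mul_le_mul_of_nonneg_left q2.le (by positivity : 0 ≤ 2 * t)
      linarith
    have g7 : Real.exp (t / 2 * Y1 ((v.1 : k[X]), (v.2 : k[X]))) ^ 2 ≤
        4 * tx (J + 1) (t / 2 * Y1 ((v.1 : k[X]), (v.2 : k[X]))) ^ 2 := by
      have := pow_le_pow_left₀ (Real.exp_pos _).le g6 2
      linarith [this, show (2 * tx (J + 1) (t / 2 * Y1 ((v.1 : k[X]), (v.2 : k[X])))) ^ 2 =
        4 * tx (J + 1) (t / 2 * Y1 ((v.1 : k[X]), (v.2 : k[X]))) ^ 2 by ring]
    have g8 : val v ^ t ≤ F2 v := by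
      refine g5.trans ?_
      have e3 : F2 v = E0 * (4 * tx (J + 1) (t / 2 * Y1 ((v.1 : k[X]), (v.2 : k[X]))) ^ 2) := by
        simp only [hF2]
        ring
      rw [e3]
      exact mul_le_mul_of_nonneg_left g7 (Real.exp_pos _).le
    linarith
  refine (mn_mono hpt).trans ?_
  rw [mn_add, mn_add, mn_add]
  have r1 : mn F1 ≤ 2 * Real.exp t * Real.exp (-ℓ) := by
    have h3 := tail_sum h2 hf hd hκ ht hN hv (j₀ := j₀) (by rw [← hA]; exact hj1)
    refine h3.trans (mul_le_mul_of_nonneg_left (Real.exp_le_exp.2 ?_) (by positivity))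
    nlinarith
  have r2 : mn F2 ≤ 4 * Real.exp (82 * t + t ^ 2 / 2 + Ct t) *
      Real.exp ((t ^ 2 / 2 - t / 2 + 5 / 2 * t * δ) * ℓ) := by
    have h3 : mn F2 = (E0 * 4) * mn (fun v : VV k N => tx (J + 1) (t / 2 * Y1 ((v.1 : k[X]), (v.2 : k[X]))) ^ 2) := by
      simp only [hF2]
      exact mn_mul_left _ _
    have h4 : mn (fun v : VV k N => tx (J + 1) (t / 2 * Y1 ((v.1 : k[X]), (v.2 : k[X]))) ^ 2) ≤
        Real.exp (t ^ 2 / 2 * (1 + Real.log M₁) + Ct t) := key3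
    rw [h3]
    calc (E0 * 4) * mn (fun v : VV k N => tx (J + 1) (t / 2 * Y1 ((v.1 : k[X]), (v.2 : k[X]))) ^ 2) ≤
        (E0 * 4) * Real.exp (t ^ 2 / 2 * (1 + Real.log M₁) + Ct t) :=
          mul_le_mul_of_nonneg_left h4 (by positivity)
      _ = 4 * Real.exp (t * (82 + 2 * (δ * ℓ) - 1 / 2 * Real.log M) +
            (t ^ 2 / 2 * (1 + Real.log M₁) + Ct t)) := by
          rw [hE0, Real.exp_add (t * (82 + 2 * (δ * ℓ) - 1 / 2 * Real.log M))
            (t ^ 2 / 2 * (1 + Real.log M₁) + Ct t)]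
          ring
      _ ≤ 4 * Real.exp ((82 * t + t ^ 2 / 2 + Ct t) + (t ^ 2 / 2 - t / 2 + 5 / 2 * t * δ) * ℓ) := by
          refine mul_le_mul_of_nonneg_left (Real.exp_le_exp.2 ?_) (by norm_num)
          have h5 := mul_le_mul_of_nonneg_left hlogM ht.le
          have h6 := mul_le_mul_of_nonneg_left hlogM₁ (by positivity : 0 ≤ t ^ 2 / 2)
          nlinarith
      _ = _ := by
          rw [Real.exp_add]
          ring
  have hE : Real.exp (t * j₀) * Real.exp (-(B * ℓ)) ≤ Real.exp (-(t * ℓ)) := by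
    rw [← Real.exp_add]
    apply Real.exp_le_exp.2
    have := mul_le_mul_of_nonneg_left hj2 ht.le
    rw [hB]
    nlinarith
  have r3 : mn F3 ≤ Real.exp (-(t * ℓ)) := by
    have h3 : mn F3 = Real.exp (t * j₀) * mn (fun v : VV k N =>
        if A1 * ℓ ≤ |Y1 ((v.1 : k[X]), (v.2 : k[X]))| then (1 : ℝ) else 0) := by
      simp only [hF3]
      exact mn_mul_left _ _
    rw [h3]
    exact (mul_le_mul_of_nonneg_left (key1.trans key1') (Real.exp_pos _).le).trans hE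
  have r4 : mn F4 ≤ Real.exp (-(t * ℓ)) := by
    have h3 : mn F4 = Real.exp (t * j₀) * mn (fun v : VV k N =>
        if δ * ℓ ≤ |Y2 ((v.1 : k[X]), (v.2 : k[X]))| then (1 : ℝ) else 0) := by
      simp only [hF4]
      exact mn_mul_left _ _
    rw [h3]
    exact (mul_le_mul_of_nonneg_left (key2.trans key2') (Real.exp_pos _).le).trans hE
  linarith

end

end Pool.Agent.N430.CV
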