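import Pool.Agent.N430.CLT.Slutsky
import Pool.Agent.N430.BP.FF1

set_option autoImplicit false
set_option linter.all false

/-! Lévy's theorem, uniformly over classes of laws. -/

namespace Pool.Agent.N430.CV

open Finset Filter Topology MeasureTheory ProbabilityTheory Pool.Agent.N430.CLT Pool.Agent.N430.BP.FF

theorem levy (Cl : ℕ → ProbabilityMeasure ℝ → Prop)
    (h : ∀ t ε : ℝ, 0 < ε → ∃ N₀ : ℕ, ∀ N ≥ N₀, ∀ μ, Cl N μ →
      ‖charFun (μ : Measure ℝ) t - Complex.exp (-((t ^ 2 / 2 : ℝ) : ℂ))‖ ≤ ε) (x ε : ℝ) (hε : 0 < ε) :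
    ∃ N₀ : ℕ, ∀ N ≥ N₀, ∀ μ, Cl N μ → |((μ : Measure ℝ) (Set.Iic x)).toReal - Phi x| ≤ ε := by
  by_contra hcon
  push Not at hcon
  choose N hN μ hμ hbad using hcon
  let ν : ProbabilityMeasure ℝ := ⟨gaussianReal 0 1, inferInstance⟩
  have h1 : Tendsto μ atTop (𝓝 ν) := by
    rw [ProbabilityMeasure.tendsto_iff_tendsto_charFun]
    intro s
    have h3 : charFun (ν : Measure ℝ) s = Complex.exp (-((s ^ 2 / 2 : ℝ) : ℂ)) := by
      change charFun (gaussianReal 0 1) s = _
      rw [charFun_gaussianReal]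
      congr 1
      push_cast
      ring
    rw [h3, Metric.tendsto_atTop]
    intro δ hδ
    obtain ⟨N₀, hN₀⟩ := h s (δ / 2) (by positivity)
    refine ⟨N₀, fun n hn => ?_⟩
    rw [dist_eq_norm]
    have := hN₀ (N n) (le_trans hn (hN n)) (μ n) (hμ n)
    linarith
  have h2 : (ν : Measure ℝ) (frontier (Set.Iic x)) = 0 := by
    rw [frontier_Iic]
    change gaussianReal 0 1 {x} = 0
    have := noAtoms_gaussianReal (μ := 0) (v := 1) one_ne_zero
    exact measure_singleton x
  have h3 := ProbabilityMeasure.tendsto_measure_of_null_frontier_of_tendsto' h1 h2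
  have h4 := (ENNReal.tendsto_toReal (measure_ne_top (ν : Measure ℝ) (Set.Iic x))).comp h3
  rw [Metric.tendsto_atTop] at h4
  obtain ⟨n, hn⟩ := h4 ε hε
  have h5 := hn n le_rfl
  rw [Real.dist_eq] at h5
  exact absurd (hbad n) (not_lt.2 h5.le)

section
variable {V : Type} [Fintype V] [Nonempty V]

/-- the law of a function on a finite set -/
noncomputable def lw (Y : V → ℝ) : Measure ℝ :=
  (Fintype.card V : ENNReal)⁻¹ • ∑ v, Measure.dirac (Y v)

instance (Y : V → ℝ) : IsProbabilityMeasure (lw Y) := by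
  unfold lw
  constructor
  simp only [Measure.smul_apply, Measure.coe_finset_sum, Finset.sum_apply, measure_univ,
    Finset.sum_const, card_univ, nsmul_eq_mul, mul_one, smul_eq_mul]
  exact ENNReal.inv_mul_cancel (by exact_mod_cast Fintype.card_ne_zero) (ENNReal.natCast_ne_top _)

lemma charFun_lw (Y : V → ℝ) (t : ℝ) :
    charFun (lw Y) t = ((mn fun v => Real.cos (t * Y v) : ℝ) : ℂ) +
      ((mn fun v => Real.sin (t * Y v) : ℝ) : ℂ) * Complex.I := by
  rw [charFun_apply_real]
  unfold lw mn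
  rw [integral_smul_measure, integral_finsetSum_measure (by
    intro i _
    exact integrable_dirac (by simp))]
  simp only [integral_dirac]
  rw [ENNReal.toReal_inv, ENNReal.toReal_natCast, Complex.real_smul]
  have e : ∀ v, Complex.exp ((t : ℂ) * (Y v : ℂ) * Complex.I) =
      ((Real.cos (t * Y v) : ℝ) : ℂ) + ((Real.sin (t * Y v) : ℝ) : ℂ) * Complex.I := by
    intro v
    rw [show (t : ℂ) * (Y v : ℂ) = ((t * Y v : ℝ) : ℂ) by push_cast; ring, Complex.exp_mul_I]
    push_cast
    rfl
  simp only [e]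
  rw [Finset.sum_add_distrib, ← Finset.sum_mul]
  push_cast
  field_simp

lemma lw_Iic (Y : V → ℝ) (c : ℝ) : (lw Y (Set.Iic c)).toReal = mn fun v =>
    open Classical in if Y v ≤ c then (1 : ℝ) else 0 := by
  classical
  unfold lw mn
  simp only [Measure.smul_apply, Measure.coe_finset_sum, Finset.sum_apply, smul_eq_mul]
  rw [ENNReal.toReal_mul, ENNReal.toReal_inv, ENNReal.toReal_natCast, ENNReal.toReal_sum (by
    intro a _
    exact measure_ne_top _ _)]
  rw [div_eq_inv_mul]
  congr 1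
  refine Finset.sum_congr rfl fun m _ => ?_
  rw [Measure.dirac_apply' _ measurableSet_Iic]
  by_cases h : Y m ≤ c
  · rw [Set.indicator_of_mem (by exact h), if_pos h]; simp
  · rw [Set.indicator_of_notMem (by exact h), if_neg h]; simp

end

end Pool.Agent.N430.CV
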