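import Pool.Agent.N430.CV.B8
import Pool.Agent.N430.CV.L1

set_option autoImplicit false
set_option linter.all false

/-! Characteristic functions of sums over primes. -/

namespace Pool.Agent.N430.CV

open Finset Polynomial Pool.Agent.N430.BP Pool.Agent.N430.BP.FF Pool.Agent.R410.NG Pool.Agent.N430.RT
open Pool.Agent.N430.CLT (rem norm_rem_le norm_prod_sub_prod)

section
variable {k : Type} [Field k] [Fintype k]
variable {X : k[X] → k[X] × k[X] → ℝ} {x N N' : ℕ}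

lemma mV_level {P : k[X]} (hm : P.Monic) {F : k[X] × k[X] → ℝ} (hF : Per P F) {N N' : ℕ}
    (h : P.natDegree ≤ N) (h' : P.natDegree ≤ N') : mV N F = mV N' F := by
  have := fin_quot hm
  let _ := Fintype.ofFinite (k[X] ⧸ Ideal.span {P})
  have e : ∀ n, P.natDegree ≤ n → mV n F = (∑ a, ∑ b, qf P F (a, b)) /
      (Fintype.card (k[X] ⧸ Ideal.span {P}) : ℝ) ^ 2 := by
    intro n hn
    have h1 := mV_res hm hn (fun a b => qf P F (a, b)) 0 0
    simp only [zero_add] at h1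
    rw [← h1]
    congr 1
    funext v
    exact (qf_mk hF v).symm
  rw [e N h, e N' h']

/-- the moments do not depend on the level -/
lemma mom_level {I : Finset k[X]} (hI : ∀ P ∈ I, P.Monic ∧ Irreducible P ∧ P.natDegree ≤ x ∧ Per P (X P))
    {n : ℕ} (hN : n * x ≤ N) (hN' : n * x ≤ N') :
    mV N (fun v => (∑ Q ∈ I, X Q v) ^ n) = mV N' (fun v => (∑ Q ∈ I, X Q v) ^ n) := by
  classical
  have h1 : ∀ v, (∑ Q ∈ I, X Q v) ^ n = ∑ f ∈ Fintype.piFinset (fun _ : Fin n => I), ∏ t, X (f t) v :=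
    fun v => Finset.sum_pow' I (fun Q => X Q v) n
  simp only [h1]
  unfold mV
  rw [mn_sum, mn_sum]
  refine Finset.sum_congr rfl fun f hf => ?_
  rw [Fintype.mem_piFinset] at hf
  have hmon : (∏ t, f t).Monic := monic_prod_of_monic _ _ fun t _ => (hI _ (hf t)).1
  have hdeg : (∏ t, f t).natDegree ≤ n * x := by
    rw [natDegree_prod_of_monic _ _ fun t _ => (hI _ (hf t)).1]
    refine (Finset.sum_le_card_nsmul _ _ x fun t _ => (hI _ (hf t)).2.2.1).trans ?_
    simp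
  have hper : Per (∏ t, f t) (fun v => ∏ t, X (f t) v) :=
    Per.prod _ fun t _ => ((hI _ (hf t)).2.2.2).mono (Finset.dvd_prod_of_mem f (mem_univ t))
  exact mV_level hmon hper (hdeg.trans hN) (hdeg.trans hN')

/-- the characteristic function -/
noncomputable def ch (N : ℕ) (F : k[X] × k[X] → ℝ) : ℂ :=
  ((mV N fun v => Real.cos (F v) : ℝ) : ℂ) + ((mV N fun v => Real.sin (F v) : ℝ) : ℂ) * Complex.I

lemma ch_mul {D P : k[X]} (hD : D.Monic) (hP : P.Monic) (hc : IsCoprime D P) {N : ℕ}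
    (hN : D.natDegree + P.natDegree ≤ N) {F G : k[X] × k[X] → ℝ} (hF : Per D F) (hG : Per P G) :
    ch N (fun v => F v + G v) = ch N F * ch N G := by
  have cF : Per D (fun v => Real.cos (F v)) := fun v v' h1 h2 => by simp only [hF v v' h1 h2]
  have sF : Per D (fun v => Real.sin (F v)) := fun v v' h1 h2 => by simp only [hF v v' h1 h2]
  have cG : Per P (fun v => Real.cos (G v)) := fun v v' h1 h2 => by simp only [hG v v' h1 h2]
  have sG : Per P (fun v => Real.sin (G v)) := fun v v' h1 h2 => by simp only [hG v v' h1 h2]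
  have e1 : mV N (fun v => Real.cos (F v + G v)) =
      mV N (fun v => Real.cos (F v)) * mV N (fun v => Real.cos (G v)) +
      (-1) * (mV N (fun v => Real.sin (F v)) * mV N (fun v => Real.sin (G v))) := by
    rw [← mV_indep hD hP hc hN cF cG, ← mV_indep hD hP hc hN sF sG, ← mV_mul, ← mV_add]
    congr 1
    funext v
    rw [Real.cos_add]
    ring
  have e2 : mV N (fun v => Real.sin (F v + G v)) =
      mV N (fun v => Real.sin (F v)) * mV N (fun v => Real.cos (G v)) +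
      mV N (fun v => Real.cos (F v)) * mV N (fun v => Real.sin (G v)) := by
    rw [← mV_indep hD hP hc hN sF cG, ← mV_indep hD hP hc hN cF sG, ← mV_add]
    congr 1
    funext v
    rw [Real.sin_add]
  unfold ch
  rw [e1, e2]
  push_cast
  linear_combination (-(((mV N (fun v => Real.sin (F v)) : ℝ) : ℂ) *
    ((mV N (fun v => Real.sin (G v)) : ℝ) : ℂ))) * Complex.I_sq

/-- independence -/
lemma ch_prod (I : Finset k[X]) : (∀ P ∈ I, P.Monic ∧ Irreducible P ∧ Per P (X P)) →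
    ∑ P ∈ I, P.natDegree ≤ N → ch N (fun v => ∑ P ∈ I, X P v) = ∏ P ∈ I, ch N (X P) := by
  classical
  induction I using Finset.induction_on with
  | empty =>
    intro _ _
    simp only [Finset.sum_empty, Finset.prod_empty]
    unfold ch
    simp only [Real.cos_zero, Real.sin_zero, mV_const]
    simp
  | insert P I hPI ih =>
    intro hI hN
    have hI' := fun Q (hQ : Q ∈ I) => hI Q (mem_insert_of_mem hQ)
    have hP := hI P (mem_insert_self P I)
    rw [Finset.sum_insert hPI] at hN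
    have ih' := ih hI' (by omega)
    rw [Finset.prod_insert hPI, ← ih', mul_comm]
    have e : (fun v => ∑ Q ∈ insert P I, X Q v) = fun v => (∑ Q ∈ I, X Q v) + X P v := by
      funext v
      rw [Finset.sum_insert hPI, add_comm]
    rw [e]
    have hmon : (∏ Q ∈ I, Q).Monic := monic_prod_of_monic _ _ fun Q hQ => (hI' Q hQ).1
    have hdeg : (∏ Q ∈ I, Q).natDegree = ∑ Q ∈ I, Q.natDegree :=
      natDegree_prod_of_monic _ _ fun Q hQ => (hI' Q hQ).1
    have hcop : IsCoprime (∏ Q ∈ I, Q) P := by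
      refine IsCoprime.prod_left fun Q hQ => ?_
      have hne : Q ≠ P := fun h => hPI (h ▸ hQ)
      rw [(hI' Q hQ).2.1.coprime_iff_not_dvd]
      intro hd
      exact hne (Polynomial.eq_of_monic_of_associated (hI' Q hQ).1 hP.1
        ((hI' Q hQ).2.1.associated_of_dvd hP.2.1 hd))
    have hper : Per (∏ Q ∈ I, Q) (fun v => ∑ Q ∈ I, X Q v) := by
      intro v v' h1 h2
      refine Finset.sum_congr rfl fun Q hQ => ?_
      exact ((hI' Q hQ).2.2).mono (Finset.dvd_prod_of_mem _ hQ) v v' h1 h2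
    exact ch_mul hmon hP.1 hcop (by rw [hdeg]; omega) hper hP.2.2

lemma mV_sub_le {N : ℕ} {F G H : k[X] × k[X] → ℝ} (h : ∀ v, |F v - G v| ≤ H v) :
    |mV N F - mV N G| ≤ mV N H := by
  have e : mV N F - mV N G = mV N (fun v => F v + (-1) * G v) := by
    rw [mV_add, mV_mul]
    ring
  rw [e, abs_le]
  constructor
  · have : -mV N H = mV N (fun v => (-1) * H v) := by
      rw [mV_mul]
      ring
    rw [this]
    refine mV_mono N fun v => ?_
    have := (abs_le.1 (h v)).1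
    linarith
  · refine mV_mono N fun v => ?_
    have := (abs_le.1 (h v)).2
    linarith

lemma cos_taylor (K : ℕ) : ∃ c : ℕ → ℝ, ∀ s : ℝ,
    |Real.cos s - ∑ j ∈ range K, c j * s ^ j| ≤ |s| ^ K / (K.factorial : ℝ) := by
  refine ⟨fun j => (Complex.I ^ j / (j.factorial : ℂ)).re, fun s => ?_⟩
  refine le_trans (le_of_eq ?_) ((Complex.abs_re_le_norm (rem K s)).trans (norm_rem_le K s))
  congr 1
  unfold rem
  rw [Complex.sub_re, Complex.re_sum, Complex.exp_ofReal_mul_I_re]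
  congr 1
  refine Finset.sum_congr rfl fun j _ => ?_
  have : ((s : ℂ) * Complex.I) ^ j / (j.factorial : ℂ) = ((s ^ j : ℝ) : ℂ) * (Complex.I ^ j / (j.factorial : ℂ)) := by
    push_cast
    ring
  rw [this, Complex.re_ofReal_mul, mul_comm]

lemma sin_taylor (K : ℕ) : ∃ c : ℕ → ℝ, ∀ s : ℝ,
    |Real.sin s - ∑ j ∈ range K, c j * s ^ j| ≤ |s| ^ K / (K.factorial : ℝ) := by
  refine ⟨fun j => (Complex.I ^ j / (j.factorial : ℂ)).im, fun s => ?_⟩
  refine le_trans (le_of_eq ?_) ((Complex.abs_im_le_norm (rem K s)).trans (norm_rem_le K s))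
  congr 1
  unfold rem
  rw [Complex.sub_im, Complex.im_sum, Complex.exp_ofReal_mul_I_im]
  congr 1
  refine Finset.sum_congr rfl fun j _ => ?_
  have : ((s : ℂ) * Complex.I) ^ j / (j.factorial : ℂ) = ((s ^ j : ℝ) : ℂ) * (Complex.I ^ j / (j.factorial : ℂ)) := by
    push_cast
    ring
  rw [this, Complex.im_ofReal_mul, mul_comm]

lemma rem_three (s : ℝ) : rem 3 s = ((Real.cos s - (1 - s ^ 2 / 2) : ℝ) : ℂ) +
    ((Real.sin s - s : ℝ) : ℂ) * Complex.I := by
  unfold rem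
  rw [Complex.exp_mul_I]
  simp only [Finset.sum_range_succ, Finset.sum_range_zero, Nat.factorial]
  push_cast
  linear_combination (-(s : ℂ) ^ 2 / 2) * Complex.I_sq

lemma cos3 (s : ℝ) : |Real.cos s - (1 - s ^ 2 / 2)| ≤ |s| ^ 3 := by
  have h1 := (Complex.abs_re_le_norm (rem 3 s)).trans (norm_rem_le 3 s)
  rw [rem_three] at h1
  simp only [Complex.add_re, Complex.ofReal_re, Complex.mul_re, Complex.I_re, mul_zero, Complex.ofReal_im,
    Complex.I_im, mul_one, sub_self, add_zero] at h1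
  refine h1.trans ?_
  rw [div_le_iff₀ (by positivity)]
  have : (0 : ℝ) ≤ |s| ^ 3 := by positivity
  norm_num [Nat.factorial]
  linarith

lemma sin3 (s : ℝ) : |Real.sin s - s| ≤ |s| ^ 3 := by
  have h1 := (Complex.abs_im_le_norm (rem 3 s)).trans (norm_rem_le 3 s)
  rw [rem_three] at h1
  simp only [Complex.add_im, Complex.ofReal_im, Complex.mul_im, Complex.I_im, mul_one, Complex.ofReal_re,
    Complex.I_re, mul_zero, add_zero, zero_add] at h1
  refine h1.trans ?_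
  rw [div_le_iff₀ (by positivity)]
  have : (0 : ℝ) ≤ |s| ^ 3 := by positivity
  norm_num [Nat.factorial]
  linarith

lemma norm_le_two (a b : ℝ) : ‖(a : ℂ) + (b : ℂ) * Complex.I‖ ≤ |a| + |b| := by
  refine (norm_add_le _ _).trans ?_
  rw [norm_mul, Complex.norm_I, mul_one, Complex.norm_real, Complex.norm_real, Real.norm_eq_abs,
    Real.norm_eq_abs]

/-- one function at two levels -/
lemma fn_level {g : ℝ → ℝ} {m : ℕ} {c : ℕ → ℝ}
    (hg : ∀ s : ℝ, |g s - ∑ j ∈ range (2 * m), c j * s ^ j| ≤ |s| ^ (2 * m) / ((2 * m).factorial : ℝ))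
    {I : Finset k[X]} (hI : ∀ P ∈ I, P.Monic ∧ Irreducible P ∧ P.natDegree ≤ x ∧ Per P (X P))
    (hN : 2 * m * x ≤ N) (hN' : 2 * m * x ≤ N') (τ : ℝ) :
    |mV N (fun v => g (τ * ∑ Q ∈ I, X Q v)) - mV N' (fun v => g (τ * ∑ Q ∈ I, X Q v))| ≤
      2 * (τ ^ (2 * m) / ((2 * m).factorial : ℝ) * mV N (fun v => (∑ Q ∈ I, X Q v) ^ (2 * m))) := by
  have key : ∀ n, |mV n (fun v => g (τ * ∑ Q ∈ I, X Q v)) -
      ∑ j ∈ range (2 * m), c j * τ ^ j * mV n (fun v => (∑ Q ∈ I, X Q v) ^ j)| ≤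
      τ ^ (2 * m) / ((2 * m).factorial : ℝ) * mV n (fun v => (∑ Q ∈ I, X Q v) ^ (2 * m)) := by
    intro n
    have h1 := mV_sub_le (N := n) (F := fun v => g (τ * ∑ Q ∈ I, X Q v))
      (G := fun v => ∑ j ∈ range (2 * m), c j * τ ^ j * (∑ Q ∈ I, X Q v) ^ j)
      (H := fun v => τ ^ (2 * m) / ((2 * m).factorial : ℝ) * (∑ Q ∈ I, X Q v) ^ (2 * m)) (by
        intro v
        have h2 := hg (τ * ∑ Q ∈ I, X Q v)
        have h3 : ∀ j, c j * (τ * ∑ Q ∈ I, X Q v) ^ j = c j * τ ^ j * (∑ Q ∈ I, X Q v) ^ j := by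
          intro j
          rw [mul_pow]
          ring
        simp only [h3] at h2
        refine h2.trans (le_of_eq ?_)
        rw [pow_mul, sq_abs, ← pow_mul, mul_pow]
        ring)
    rw [mV_mul] at h1
    have h4 : mV n (fun v => ∑ j ∈ range (2 * m), c j * τ ^ j * (∑ Q ∈ I, X Q v) ^ j) =
        ∑ j ∈ range (2 * m), c j * τ ^ j * mV n (fun v => (∑ Q ∈ I, X Q v) ^ j) := by
      unfold mV
      rw [mn_sum]
      refine Finset.sum_congr rfl fun j _ => ?_
      rw [mn_mul_left]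
    rwa [h4] at h1
  have h1 := key N
  have h2 := key N'
  have h3 : ∑ j ∈ range (2 * m), c j * τ ^ j * mV N (fun v => (∑ Q ∈ I, X Q v) ^ j) =
      ∑ j ∈ range (2 * m), c j * τ ^ j * mV N' (fun v => (∑ Q ∈ I, X Q v) ^ j) := by
    refine Finset.sum_congr rfl fun j hj => ?_
    rw [mem_range] at hj
    rw [mom_level hI (n := j) (N := N) (N' := N') (by nlinarith) (by nlinarith)]
  rw [h3] at h1
  rw [← mom_level hI hN hN'] at h2
  have h5 := abs_le.1 h1
  have h6 := abs_le.1 h2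
  rw [abs_le]
  constructor <;> linarith [h5.1, h5.2, h6.1, h6.2]

/-- the characteristic function at two levels -/
lemma ch_level {I : Finset k[X]} (hI : ∀ P ∈ I, P.Monic ∧ Irreducible P ∧ P.natDegree ≤ x ∧ Per P (X P))
    {m : ℕ} (hN : 2 * m * x ≤ N) (hN' : 2 * m * x ≤ N') (τ : ℝ) :
    ‖ch N (fun v => τ * ∑ Q ∈ I, X Q v) - ch N' (fun v => τ * ∑ Q ∈ I, X Q v)‖ ≤
      4 * (τ ^ (2 * m) / ((2 * m).factorial : ℝ) * mV N (fun v => (∑ Q ∈ I, X Q v) ^ (2 * m))) := by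
  obtain ⟨c, hc⟩ := cos_taylor (2 * m)
  obtain ⟨c', hc'⟩ := sin_taylor (2 * m)
  have h1 := fn_level hc hI hN hN' τ
  have h2 := fn_level hc' hI hN hN' τ
  have e : ch N (fun v => τ * ∑ Q ∈ I, X Q v) - ch N' (fun v => τ * ∑ Q ∈ I, X Q v) =
      ((mV N (fun v => Real.cos (τ * ∑ Q ∈ I, X Q v)) - mV N' (fun v => Real.cos (τ * ∑ Q ∈ I, X Q v)) : ℝ) : ℂ) +
      ((mV N (fun v => Real.sin (τ * ∑ Q ∈ I, X Q v)) - mV N' (fun v => Real.sin (τ * ∑ Q ∈ I, X Q v)) : ℝ) : ℂ) *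
        Complex.I := by
    unfold ch
    push_cast
    ring
  rw [e]
  refine (norm_le_two _ _).trans ?_
  linarith

lemma ch_norm_le (N : ℕ) (F : k[X] × k[X] → ℝ) : ‖ch N F‖ ≤ 1 := by
  have jen : ∀ G : k[X] × k[X] → ℝ, mV N G ^ 2 ≤ mV N (fun v => G v ^ 2) := by
    intro G
    have h1 : (0 : ℝ) ≤ mV N (fun v => (G v ^ 2 + (-2 * mV N G) * G v) + mV N G ^ 2) := by
      have : mV N (fun _ : k[X] × k[X] => (0 : ℝ)) ≤
          mV N (fun v => (G v ^ 2 + (-2 * mV N G) * G v) + mV N G ^ 2) := by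
        refine mV_mono N fun v => ?_
        have := sq_nonneg (G v - mV N G)
        nlinarith
      rwa [mV_const] at this
    rw [mV_add, mV_add, mV_mul, mV_const] at h1
    have e2 : mV N (fun v => G v) = mV N G := rfl
    nlinarith
  have h1 := jen fun v => Real.cos (F v)
  have h2 := jen fun v => Real.sin (F v)
  have h3 : mV N (fun v => Real.cos (F v) ^ 2) + mV N (fun v => Real.sin (F v) ^ 2) = 1 := by
    rw [← mV_add, ← mV_const (k := k) N 1]
    congr 1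
    funext v
    exact Real.cos_sq_add_sin_sq _
  have h4 : ‖ch N F‖ ^ 2 ≤ 1 := by
    unfold ch
    rw [Complex.sq_norm, Complex.normSq_add_mul_I]
    linarith
  nlinarith [norm_nonneg (ch N F)]

lemma exp_neg_bound {z : ℝ} (hz : 0 ≤ z) : |(1 - z) - Real.exp (-z)| ≤ z ^ 2 := by
  by_cases h : z ≤ 1
  · have h5 := Real.abs_exp_sub_one_sub_id_le (x := -z) (by rw [abs_neg, abs_of_nonneg hz]; exact h)
    rw [abs_sub_comm]
    rw [neg_sq] at h5
    have e : Real.exp (-z) - (1 - z) = Real.exp (-z) - 1 - -z := by ring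
    rw [e]
    exact h5
  · push Not at h
    have h1 := Real.add_one_le_exp (-z)
    have h2 : Real.exp (-z) ≤ 1 := by
      rw [Real.exp_le_one_iff]
      linarith
    rw [abs_le]
    constructor <;> nlinarith

/-- the local factor -/
lemma ch_loc {N : ℕ} {Y : k[X] × k[X] → ℝ} {b v₀ : ℝ} (τ : ℝ) (h0 : mV N Y = 0) (hb : ∀ v, |Y v| ≤ b)
    (hv : mV N (fun v => Y v ^ 2) = v₀) :
    ‖ch N (fun v => τ * Y v) - ((Real.exp (-(τ ^ 2 * v₀ / 2)) : ℝ) : ℂ)‖ ≤
      2 * (|τ| ^ 3 * b * v₀) + τ ^ 4 * v₀ ^ 2 := by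
  have hv0 : 0 ≤ v₀ := by
    rw [← hv, ← mV_const (k := k) N 0]
    exact mV_mono N fun v => sq_nonneg _
  have hcube : ∀ v, |τ * Y v| ^ 3 ≤ |τ| ^ 3 * b * Y v ^ 2 := by
    intro v
    rw [abs_mul, mul_pow, mul_assoc]
    refine mul_le_mul_of_nonneg_left ?_ (by positivity)
    rw [← sq_abs (Y v), pow_succ, mul_comm]
    exact mul_le_mul_of_nonneg_right (hb v) (by positivity)
  have h1 : |mV N (fun v => Real.cos (τ * Y v)) - (1 - τ ^ 2 * v₀ / 2)| ≤ |τ| ^ 3 * b * v₀ := by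
    have h2 := mV_sub_le (N := N) (F := fun v => Real.cos (τ * Y v))
      (G := fun v => 1 + (-(τ ^ 2 / 2)) * Y v ^ 2) (H := fun v => |τ| ^ 3 * b * Y v ^ 2) (by
        intro v
        have h3 := cos3 (τ * Y v)
        have e : 1 + (-(τ ^ 2 / 2)) * Y v ^ 2 = 1 - (τ * Y v) ^ 2 / 2 := by ring
        rw [e]
        exact h3.trans (hcube v))
    rw [mV_add, mV_mul, mV_mul, mV_const, hv] at h2
    have e : 1 - τ ^ 2 * v₀ / 2 = 1 + (-(τ ^ 2 / 2)) * v₀ := by ring
    rw [e]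
    exact h2
  have h2 : |mV N (fun v => Real.sin (τ * Y v))| ≤ |τ| ^ 3 * b * v₀ := by
    have h2 := mV_sub_le (N := N) (F := fun v => Real.sin (τ * Y v))
      (G := fun v => τ * Y v) (H := fun v => |τ| ^ 3 * b * Y v ^ 2) (by
        intro v
        exact (sin3 (τ * Y v)).trans (hcube v))
    rw [mV_mul, mV_mul, hv] at h2
    have e2 : mV N (fun v => Y v) = mV N Y := rfl
    rw [e2, h0, mul_zero, sub_zero] at h2
    exact h2
  have h3 := exp_neg_bound (z := τ ^ 2 * v₀ / 2) (by positivity)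
  have e : ch N (fun v => τ * Y v) - ((Real.exp (-(τ ^ 2 * v₀ / 2)) : ℝ) : ℂ) =
      (((mV N (fun v => Real.cos (τ * Y v)) - (1 - τ ^ 2 * v₀ / 2)) +
        ((1 - τ ^ 2 * v₀ / 2) - Real.exp (-(τ ^ 2 * v₀ / 2))) : ℝ) : ℂ) +
      ((mV N (fun v => Real.sin (τ * Y v)) : ℝ) : ℂ) * Complex.I := by
    unfold ch
    push_cast
    ring
  rw [e]
  refine (norm_le_two _ _).trans ?_
  have h4 := abs_add_le (mV N (fun v => Real.cos (τ * Y v)) - (1 - τ ^ 2 * v₀ / 2))
    ((1 - τ ^ 2 * v₀ / 2) - Real.exp (-(τ ^ 2 * v₀ / 2)))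
  have h5 : (τ ^ 2 * v₀ / 2) ^ 2 ≤ τ ^ 4 * v₀ ^ 2 := by
    have : 0 ≤ τ ^ 4 * v₀ ^ 2 := by positivity
    nlinarith
  linarith

/-- the characteristic function in the independent model -/
lemma ch_model {I : Finset k[X]} (hI : ∀ P ∈ I, P.Monic ∧ Irreducible P ∧ Per P (X P)) {N : ℕ}
    {b v : k[X] → ℝ} (hb : ∀ P ∈ I, mV N (X P) = 0 ∧ (∀ w, |X P w| ≤ b P) ∧ mV N (fun w => X P w ^ 2) = v P)
    (hN : ∑ P ∈ I, P.natDegree ≤ N) (τ : ℝ) :
    ‖ch N (fun w => τ * ∑ P ∈ I, X P w) - ((Real.exp (-(τ ^ 2 * (∑ P ∈ I, v P) / 2)) : ℝ) : ℂ)‖ ≤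
      ∑ P ∈ I, (2 * (|τ| ^ 3 * b P * v P) + τ ^ 4 * v P ^ 2) := by
  have e1 : (fun w => τ * ∑ P ∈ I, X P w) = fun w => ∑ P ∈ I, τ * X P w := by
    funext w
    rw [Finset.mul_sum]
  have e2 : ((Real.exp (-(τ ^ 2 * (∑ P ∈ I, v P) / 2)) : ℝ) : ℂ) =
      ∏ P ∈ I, ((Real.exp (-(τ ^ 2 * v P / 2)) : ℝ) : ℂ) := by
    rw [← Complex.ofReal_prod, ← Real.exp_sum]
    congr 2
    rw [Finset.sum_neg_distrib, Finset.mul_sum, Finset.sum_div]
  rw [e1, ch_prod (X := fun P w => τ * X P w) I (fun P hP => ⟨(hI P hP).1, (hI P hP).2.1,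
    fun w w' h1 h2 => by simp only [(hI P hP).2.2 w w' h1 h2]⟩) hN, e2]
  refine (norm_prod_sub_prod I _ _ (fun P _ => ch_norm_le N _) (fun P hP => ?_)).trans
    (Finset.sum_le_sum fun P hP => ?_)
  · rw [Complex.norm_real, Real.norm_eq_abs, abs_of_pos (Real.exp_pos _), Real.exp_le_one_iff]
    have : 0 ≤ v P := by
      rw [← (hb P hP).2.2, ← mV_const (k := k) N 0]
      exact mV_mono N fun v => sq_nonneg _
    have : 0 ≤ τ ^ 2 * v P / 2 := by positivity
    linarith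
  · exact ch_loc τ (hb P hP).1 (hb P hP).2.1 (hb P hP).2.2

end

end Pool.Agent.N430.CV
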