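import Pool.Agent.N430.CV.L2

set_option autoImplicit false
set_option linter.all false

/-! The variance and the characteristic function. -/

namespace Pool.Agent.N430.CV

open Finset Polynomial Pool.Agent.N430.BP Pool.Agent.N430.BP.FF Pool.Agent.R410.NG Pool.Agent.N430.RT

section
variable {k : Type} [Field k] [Fintype k]

/-- **The second moment from below.** -/
lemma YY_sq_ge (h2 : ringChar k ≠ 2) {f₀ : k[X][X]} (hf : f₀.Monic) (hd : f₀.natDegree = 3) {M : ℕ} {P : k[X]}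
    (hm : P.Monic) (hP : Irreducible P) {N : ℕ} (hN : P.natDegree ≤ N) (hM : 3 ≤ M) (hPM : P.natDegree ≤ M) :
    cf M P.natDegree ^ 2 * rk k ^ (2 * P.natDegree) - 300 * rk k ^ (3 * P.natDegree) ≤
      mV N (fun v => YY f₀ M N P v ^ 2) := by
  classical
  obtain ⟨r0, r1⟩ := rk_bounds k
  have e1 := trP_mean h2 f₀ hm hP hN
  have e2 := trP_sq h2 f₀ hm hP hN
  have e3 := bad_mean f₀ hm hP hN
  have hparts := parts hf hd hM hm hP hPM
  obtain ⟨c0, c1⟩ := cf_bounds hM hPM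
  set e := P.natDegree with he
  set r := rk k ^ e with hr
  have hr0 : 0 < r := by rw [hr]; positivity
  have hr1 : r ≤ 1 := by rw [hr]; exact pow_le_one₀ r0.le (by linarith)
  have hr2 : rk k ^ (2 * e) = r ^ 2 := by rw [hr, ← pow_mul, mul_comm]
  have hr3 : rk k ^ (3 * e) = r ^ 3 := by rw [hr, ← pow_mul, mul_comm]
  have hr4 : rk k ^ (4 * e) = r ^ 4 := by rw [hr, ← pow_mul, mul_comm]
  have e4 : mV N (bd f₀ P) ≤ r ^ 2 := by
    rw [← hr2]
    exact e3
  have e40 : 0 ≤ mV N (bd f₀ P) := by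
    rw [← mV_const (k := k) N 0]
    exact mV_mono N fun v => (bd_bounds f₀ P v).1
  set μ := mV N (XX f₀ M P) with hμ
  have hμb : |μ| ≤ 13 * r ^ 2 := by
    have h1 : XX f₀ M P = fun v => (cf M e * r ^ 2) * trP f₀ v.1 v.2 P +
        ((if 2 * e ≤ M then cf M (2 * e) / 2 else 0) *
          (rk k ^ (4 * e) * (trP f₀ v.1 v.2 P ^ 2 - 2 * (rk k ^ (2 * e))⁻¹)) + 7 * r * bd f₀ P v) := by
      funext v
      rw [XX_eq, ← he, hr2]
      ring
    have e6 : mV N (fun v => 7 * r * bd f₀ P v) = 7 * r * mV N (fun v => bd f₀ P v) := mV_mul N _ _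
    rw [hμ, h1, mV_add, mV_mul, e1, mul_zero, zero_add, mV_add, e6]
    have h3 := abs_mV_le (N := N) (F := fun v => (if 2 * e ≤ M then cf M (2 * e) / 2 else 0) *
          (rk k ^ (4 * e) * (trP f₀ v.1 v.2 P ^ 2 - 2 * (rk k ^ (2 * e))⁻¹))) fun v => (hparts v).2
    refine (abs_add_le _ _).trans ?_
    have h4 : |7 * r * mV N (fun v => bd f₀ P v)| ≤ 7 * r ^ 2 := by
      have e5 : mV N (fun v => bd f₀ P v) = mV N (bd f₀ P) := rfl
      rw [e5, abs_of_nonneg (by positivity)]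
      calc 7 * r * mV N (bd f₀ P) ≤ 7 * r * r ^ 2 := mul_le_mul_of_nonneg_left e4 (by positivity)
        _ ≤ 7 * 1 * r ^ 2 := by
          have : 0 ≤ r ^ 2 := by positivity
          nlinarith
        _ = _ := by ring
    linarith
  have hμ2 : μ ^ 2 ≤ 169 * r ^ 3 := by
    have h3 : |μ| ^ 2 ≤ (13 * r ^ 2) ^ 2 := pow_le_pow_left₀ (abs_nonneg _) hμb 2
    rw [sq_abs] at h3
    have h4 : r ^ 4 ≤ r ^ 3 := pow_le_pow_of_le_one hr0.le hr1 (by norm_num)
    calc μ ^ 2 ≤ (13 * r ^ 2) ^ 2 := h3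
      _ = 169 * r ^ 4 := by ring
      _ ≤ _ := by linarith
  have h1 : ∀ v, (cf M e ^ 2 * r ^ 4 * trP f₀ v.1 v.2 P ^ 2 + (-(36 * r ^ 3))) +
      (-(42 * r ^ 2)) * bd f₀ P v ≤ XX f₀ M P v ^ 2 := by
    intro v
    obtain ⟨h3, h4⟩ := hparts v
    obtain ⟨b0, b1, b2⟩ := bd_bounds f₀ P v
    rw [XX_eq]
    set x := cf M e * (rk k ^ (2 * e) * trP f₀ v.1 v.2 P) with hx
    set s := (if 2 * e ≤ M then cf M (2 * e) / 2 else 0) *
      (rk k ^ (4 * e) * (trP f₀ v.1 v.2 P ^ 2 - 2 * (rk k ^ (2 * e))⁻¹)) with hs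
    set b := bd f₀ P v with hb
    have e5 : cf M e ^ 2 * r ^ 4 * trP f₀ v.1 v.2 P ^ 2 = x ^ 2 := by
      rw [hx, hr2]
      ring
    rw [e5]
    have h5 : |s + 7 * r * b| ≤ 6 * r ^ 2 + 7 * r * b := by
      refine (abs_add_le _ _).trans ?_
      rw [abs_of_nonneg (by positivity : 0 ≤ 7 * r * b)]
      linarith
    have h6 : -(x * (s + 7 * r * b)) ≤ 3 * r * (6 * r ^ 2 + 7 * r * b) := by
      refine (neg_le_abs _).trans ?_
      rw [abs_mul]
      exact mul_le_mul h3 h5 (abs_nonneg _) (by positivity)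
    have e6 : (x + s + 7 * r * b) ^ 2 = x ^ 2 + 2 * (x * (s + 7 * r * b)) + (s + 7 * r * b) ^ 2 := by ring
    rw [e6]
    have h7 := sq_nonneg (s + 7 * r * b)
    have e8 : 3 * r * (6 * r ^ 2 + 7 * r * b) = 18 * r ^ 3 + 21 * (r ^ 2 * b) := by ring
    rw [e8] at h6
    linarith
  have h3 := mV_mono N h1
  rw [mV_add, mV_add, mV_const, mV_mul, mV_mul, e2, hr2] at h3
  have h4 : (-(42 * r ^ 2)) * mV N (fun v => bd f₀ P v) ≥ -(42 * r ^ 3) := by
    have e5 : mV N (fun v => bd f₀ P v) = mV N (bd f₀ P) := rfl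
    rw [e5]
    have h5 : 42 * r ^ 2 * mV N (bd f₀ P) ≤ 42 * r ^ 3 := by
      calc 42 * r ^ 2 * mV N (bd f₀ P) ≤ 42 * r ^ 2 * r ^ 2 := mul_le_mul_of_nonneg_left e4 (by positivity)
        _ = 42 * r ^ 4 := by ring
        _ ≤ _ := by
          have : r ^ 4 ≤ r ^ 3 := pow_le_pow_of_le_one hr0.le hr1 (by norm_num)
          linarith
    linarith
  have h5 : cf M e ^ 2 * r ^ 4 * ((r ^ 2)⁻¹ - 1) ≥ cf M e ^ 2 * r ^ 2 - r ^ 3 := by
    have e9 : cf M e ^ 2 * r ^ 4 * ((r ^ 2)⁻¹ - 1) = cf M e ^ 2 * r ^ 2 - cf M e ^ 2 * r ^ 4 := by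
      field_simp
    rw [e9]
    have h6 : cf M e ^ 2 ≤ 1 := pow_le_one₀ c0 c1
    have h7 : cf M e ^ 2 * r ^ 4 ≤ 1 * r ^ 4 := mul_le_mul_of_nonneg_right h6 (by positivity)
    have h8 : r ^ 4 ≤ r ^ 3 := pow_le_pow_of_le_one hr0.le hr1 (by norm_num)
    linarith
  have e7 : (fun v => YY f₀ M N P v ^ 2) = fun v => (XX f₀ M P v ^ 2 + (-2 * μ) * XX f₀ M P v) + μ ^ 2 := by
    funext v
    unfold YY
    rw [← hμ]
    ring
  rw [e7, mV_add, mV_add, mV_mul, mV_const, hr2, hr3]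
  have e8 : mV N (fun v => XX f₀ M P v) = μ := rfl
  rw [e8]
  have hr30 : 0 < r ^ 3 := by positivity
  nlinarith

lemma cf_ge' {M n : ℕ} (hM : 3 ≤ M) (hn : n ≤ M) : 1 - 6 * ((n : ℝ) / M) ≤ cf M n ^ 2 := by
  have hMr : (3 : ℝ) ≤ M := by exact_mod_cast hM
  have hM0 : (0 : ℝ) < M := by linarith
  have hy : 2 / (M : ℝ) ≤ 2 / 3 := div_le_div_of_nonneg_left (by norm_num) (by norm_num) hMr
  have hy0 : 0 < 2 / (M : ℝ) := by positivity
  have h1 := one_add_mul_le_pow (a := -(2 / (M : ℝ))) (by linarith) n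
  have heM : (n : ℝ) / M ≤ 1 := by
    rw [div_le_one hM0]
    exact_mod_cast hn
  have he0 : 0 ≤ (n : ℝ) / M := by positivity
  have h5 : 1 - 3 * ((n : ℝ) / M) ≤ cf M n := by
    unfold cf
    have h2 : 1 - 2 * ((n : ℝ) / M) ≤ (1 - 2 / (M : ℝ)) ^ n := by
      have e1 : 1 + (n : ℝ) * -(2 / (M : ℝ)) = 1 - 2 * ((n : ℝ) / M) := by ring
      rw [e1, ← sub_eq_add_neg] at h1
      exact h1
    set y := (n : ℝ) / M with hyd
    have h3 : (1 - y) * (1 - 2 * y) ≤ (1 - y) * (1 - 2 / (M : ℝ)) ^ n :=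
      mul_le_mul_of_nonneg_left h2 (by linarith)
    nlinarith
  nlinarith [sq_nonneg (cf M n - 1)]

/-- **The variance.** -/
theorem var_total (h2 : ringChar k ≠ 2) {f₀ : k[X][X]} (hf : f₀.Monic) (hd : f₀.natDegree = 3) {M N : ℕ}
    (hM : 3 ≤ M) (hN : M ≤ N) :
    |∑ P ∈ PS k 0 M, mV N (fun v => YY f₀ M N P v ^ 2) - Real.log M| ≤ 1300 := by
  obtain ⟨r0, r1⟩ := rk_bounds k
  have hMr : (3 : ℝ) ≤ M := by exact_mod_cast hM
  have hM0 : (0 : ℝ) < M := by linarith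
  have h3 := sum3 (k := k) 0 M
  have hup : ∑ P ∈ PS k 0 M, mV N (fun v => YY f₀ M N P v ^ 2) ≤ 1 + Real.log M + 247 * 4 := by
    have h1 : ∑ P ∈ PS k 0 M, mV N (fun v => YY f₀ M N P v ^ 2) ≤
        ∑ P ∈ PS k 0 M, (rk k ^ (2 * P.natDegree) + 247 * rk k ^ (3 * P.natDegree)) := by
      refine Finset.sum_le_sum fun P hP => ?_
      obtain ⟨g1, g2, g3, g4⟩ := mem_PS hP
      exact (YY_all h2 hf hd g1 g2 (by omega) hM (by omega)).2.2.2
    rw [Finset.sum_add_distrib, ← Finset.mul_sum] at h1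
    have h4 := (sum2 (k := k) 0 M).trans (harm_le M)
    linarith
  have hlow : Real.log M - 6 - 8 - 300 * 4 ≤ ∑ P ∈ PS k 0 M, mV N (fun v => YY f₀ M N P v ^ 2) := by
    have h1 : ∑ P ∈ PS k 0 M, (cf M P.natDegree ^ 2 * rk k ^ (2 * P.natDegree) +
        (-300) * rk k ^ (3 * P.natDegree)) ≤ ∑ P ∈ PS k 0 M, mV N (fun v => YY f₀ M N P v ^ 2) := by
      refine Finset.sum_le_sum fun P hP => ?_
      obtain ⟨g1, g2, g3, g4⟩ := mem_PS hP
      have := YY_sq_ge h2 hf hd g1 g2 (N := N) (by omega) hM (by omega)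
      linarith
    rw [Finset.sum_add_distrib, ← Finset.mul_sum] at h1
    have h5 : Real.log M - 6 - 8 ≤ ∑ P ∈ PS k 0 M, cf M P.natDegree ^ 2 * rk k ^ (2 * P.natDegree) := by
      rw [PS_sum, ← Finset.range_eq_Ico]
      have h6 : ∑ n ∈ range M, (1 / ((n : ℝ) + 1) - (6 / M + 2 * rk k ^ n)) ≤
          ∑ n ∈ range M, ∑ P ∈ IR k (n + 1), cf M P.natDegree ^ 2 * rk k ^ (2 * P.natDegree) := by
        refine Finset.sum_le_sum fun n hn => ?_
        rw [mem_range] at hn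
        rw [sum_IR (fun e => cf M e ^ 2 * rk k ^ (2 * e))]
        have h8 := cf_ge' (n := n + 1) hM (by omega)
        have h9 := (abs_le.1 (density k (n := n + 1) (by omega))).1
        obtain ⟨c0, c1⟩ := cf_bounds (n := n + 1) hM (by omega)
        set c := cf M (n + 1) with hc
        have hc2 : c ^ 2 ≤ 1 := pow_le_one₀ c0 c1
        set D := (#(IR k (n + 1)) : ℝ) * rk k ^ (2 * (n + 1)) with hD
        push_cast at h8 h9
        have h10 : rk k ^ (n + 1) ≤ rk k ^ n := pow_le_pow_of_le_one r0.le (by linarith) (by omega)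
        have h11 : 0 < rk k ^ (n + 1) := by positivity
        have hn1 : (0 : ℝ) < (n : ℝ) + 1 := by positivity
        have h12 : c ^ 2 * (1 / ((n : ℝ) + 1) - 2 * rk k ^ (n + 1)) ≤ c ^ 2 * D :=
          mul_le_mul_of_nonneg_left (by linarith) (by positivity)
        have h13 : (1 - 6 * (((n : ℝ) + 1) / M)) * (1 / ((n : ℝ) + 1)) ≤ c ^ 2 * (1 / ((n : ℝ) + 1)) :=
          mul_le_mul_of_nonneg_right h8 (by positivity)
        have e1 : (1 - 6 * (((n : ℝ) + 1) / M)) * (1 / ((n : ℝ) + 1)) = 1 / ((n : ℝ) + 1) - 6 / M := by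
          field_simp
        have h14 : c ^ 2 * (2 * rk k ^ (n + 1)) ≤ 2 * rk k ^ (n + 1) :=
          mul_le_of_le_one_left (by positivity) hc2
        have e3 : (#(IR k (n + 1)) : ℝ) * (c ^ 2 * rk k ^ (2 * (n + 1))) = c ^ 2 * D := by
          rw [hD]
          ring
        rw [e1] at h13
        rw [e3]
        nlinarith
      rw [Finset.sum_sub_distrib, Finset.sum_add_distrib, Finset.sum_const, card_range,
        nsmul_eq_mul, ← Finset.mul_sum] at h6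
      have h7 := geom_le k M
      have h8 : (M : ℝ) * (6 / M) = 6 := by field_simp
      have h9 : Real.log M ≤ ∑ n ∈ range M, 1 / ((n : ℝ) + 1) := by
        have h10 := log_add_one_le_harmonic M
        have h11 : ((harmonic M : ℚ) : ℝ) = ∑ n ∈ range M, 1 / ((n : ℝ) + 1) := by
          unfold harmonic
          push_cast
          simp [one_div]
        rw [h11] at h10
        have h12 : Real.log M ≤ Real.log ((M : ℝ) + 1) := Real.log_le_log hM0 (by linarith)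
        push_cast at h10
        linarith
      rw [h8] at h6
      linarith
    linarith
  rw [abs_le]
  constructor <;> linarith

lemma fact_bound {t : ℝ} {m : ℕ} : (24576 * t ^ 2 * m) ^ m / ((2 * m).factorial : ℝ) ≤
    (24576 * t ^ 2) ^ m / (m.factorial : ℝ) := by
  have h1 : m.factorial * (m + 1) ^ m ≤ (m + m).factorial := Nat.factorial_mul_pow_le_factorial
  have h2 : (m.factorial : ℝ) * (m : ℝ) ^ m ≤ ((2 * m).factorial : ℝ) := by
    have h3 : (m.factorial : ℝ) * ((m : ℝ) + 1) ^ m ≤ ((m + m).factorial : ℝ) := by exact_mod_cast h1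
    rw [← two_mul] at h3
    refine le_trans ?_ h3
    refine mul_le_mul_of_nonneg_left ?_ (Nat.cast_nonneg _)
    exact pow_le_pow_left₀ (Nat.cast_nonneg _) (by linarith) m
  have f1 : (0 : ℝ) < m.factorial := by exact_mod_cast m.factorial_pos
  have f2 : (0 : ℝ) < (2 * m).factorial := by exact_mod_cast (2 * m).factorial_pos
  rw [div_le_div_iff₀ f2 f1, mul_pow, mul_assoc]
  refine mul_le_mul_of_nonneg_left ?_ (by positivity)
  linarith

/-- **The characteristic function.** -/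
theorem char_est (h2 : ringChar k ≠ 2) {f₀ : k[X][X]} (hf : f₀.Monic) (hd : f₀.natDegree = 3) {M N m : ℕ}
    (hM : 3 ≤ M) (hm : 1 ≤ m) (hN : (2 * m + 1) * M ≤ N) {ℓ : ℝ} (hℓ : 1 ≤ ℓ) (hMℓ : Real.log M ≤ ℓ)
    (t : ℝ) :
    ‖ch N (fun v => t / √ℓ * ∑ P ∈ PS k 0 M, YY f₀ M N P v) - ((Real.exp (-(t ^ 2 / 2)) : ℝ) : ℂ)‖ ≤
      4 * ((24576 * t ^ 2) ^ m / (m.factorial : ℝ)) + (63488 * |t| ^ 3 / √ℓ ^ 3 + 246016 * t ^ 4 / ℓ ^ 2) +
        t ^ 2 / 2 * ((1300 + (ℓ - Real.log M)) / ℓ) := by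
  classical
  obtain ⟨r0, r1⟩ := rk_bounds k
  have hMN : M ≤ N := by nlinarith
  have hℓ0 : 0 < ℓ := by linarith
  have hs0 : 0 < √ℓ := Real.sqrt_pos.2 hℓ0
  have hs2 : √ℓ ^ 2 = ℓ := Real.sq_sqrt hℓ0.le
  set τ := t / √ℓ with hτ
  have hτ2 : τ ^ 2 = t ^ 2 / ℓ := by rw [hτ, div_pow, hs2]
  have hτ4 : τ ^ 4 = t ^ 4 / ℓ ^ 2 := by
    rw [show τ ^ 4 = (τ ^ 2) ^ 2 by ring, hτ2, div_pow]
    ring
  have hτ3 : |τ| ^ 3 = |t| ^ 3 / √ℓ ^ 3 := by rw [hτ, abs_div, abs_of_pos hs0, div_pow]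
  set I := PS k 0 M with hI
  have hPP : ∀ P ∈ I, P.Monic ∧ Irreducible P ∧ 1 ≤ P.natDegree ∧ P.natDegree ≤ M := by
    intro P hP
    obtain ⟨g1, g2, g3, g4⟩ := mem_PS hP
    exact ⟨g1, g2, by omega, g4⟩
  have hY : ∀ P ∈ I, Per P (YY f₀ M N P) ∧ (∀ v, |YY f₀ M N P v| ≤ 32 * rk k ^ P.natDegree) ∧
      mV N (YY f₀ M N P) = 0 ∧
      mV N (fun v => YY f₀ M N P v ^ 2) ≤ rk k ^ (2 * P.natDegree) + 247 * rk k ^ (3 * P.natDegree) := by
    intro P hP
    obtain ⟨g1, g2, g3, g4⟩ := hPP P hP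
    exact YY_all h2 hf hd g1 g2 (by omega) hM g4
  set N' := max N (∑ P ∈ I, P.natDegree) with hN'
  have hNN' : N ≤ N' := le_max_left _ _
  have h2m : 2 * m * M ≤ N := by nlinarith
  -- comparison of the levels
  have a1 := ch_level (k := k) (X := YY f₀ M N) (x := M) (N := N) (N' := N') (I := I)
    (fun P hP => ⟨(hPP P hP).1, (hPP P hP).2.1, (hPP P hP).2.2.2, (hY P hP).1⟩) h2m (h2m.trans hNN') τ
  have hlog0 : 0 ≤ Real.log M := Real.log_nonneg (by exact_mod_cast (by omega : 1 ≤ M))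
  have a2 := moment_sub (k := k) (X := YY f₀ M N) (b := fun P => 32 * rk k ^ P.natDegree) (x := M) (N := N)
    (I := I) (fun P hP => ⟨(hPP P hP).1, (hPP P hP).2.1, (hPP P hP).2.2.2, (hY P hP).1⟩)
    (fun P hP => ⟨by positivity, (hY P hP).2.1, (hY P hP).2.2.1⟩) hm hN (V := 2048 * ℓ) (by positivity) (by
      have h3 : ∑ P ∈ I, (32 * rk k ^ P.natDegree) ^ 2 = 1024 * ∑ P ∈ I, rk k ^ (2 * P.natDegree) := by
        rw [Finset.mul_sum]
        refine Finset.sum_congr rfl fun P _ => ?_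
        rw [mul_pow, ← pow_mul, mul_comm P.natDegree 2]
        norm_num
      rw [h3]
      have h4 := (sum2 (k := k) 0 M).trans (harm_le M)
      rw [← hI] at h4
      linarith)
  have a3 : 4 * (τ ^ (2 * m) / ((2 * m).factorial : ℝ) * mV N (fun v => (∑ Q ∈ I, YY f₀ M N Q v) ^ (2 * m))) ≤
      4 * ((24576 * t ^ 2) ^ m / (m.factorial : ℝ)) := by
    refine mul_le_mul_of_nonneg_left ?_ (by norm_num)
    have h5 : 0 ≤ τ ^ (2 * m) / ((2 * m).factorial : ℝ) := by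
      rw [pow_mul]
      positivity
    refine (mul_le_mul_of_nonneg_left a2 h5).trans ?_
    refine le_trans (le_of_eq ?_) (fact_bound (t := t) (m := m))
    rw [pow_mul, hτ2, div_mul_eq_mul_div, ← mul_pow]
    congr 2
    field_simp
    ring
  -- the model
  have hlev : ∀ P ∈ I, mV N' (YY f₀ M N P) = 0 ∧ (∀ w, |YY f₀ M N P w| ≤ 32 * rk k ^ P.natDegree) ∧
      mV N' (fun w => YY f₀ M N P w ^ 2) = mV N (fun w => YY f₀ M N P w ^ 2) := by
    intro P hP
    obtain ⟨g1, g2, g3, g4⟩ := hPP P hP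
    obtain ⟨y1, y2, y3, y4⟩ := hY P hP
    refine ⟨?_, y2, ?_⟩
    · rw [← mV_level g1 y1 (N := N) (N' := N') (by omega) (by omega)]
      exact y3
    · exact (mV_level g1 (y1.pow 2) (N := N) (N' := N') (by omega) (by omega)).symm
  have a4 := ch_model (k := k) (X := YY f₀ M N) (I := I) (N := N')
    (fun P hP => ⟨(hPP P hP).1, (hPP P hP).2.1, (hY P hP).1⟩)
    (b := fun P => 32 * rk k ^ P.natDegree) (v := fun P => mV N (fun w => YY f₀ M N P w ^ 2)) hlev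
    (le_max_right _ _) τ
  have a5 : ∑ P ∈ I, (2 * (|τ| ^ 3 * (32 * rk k ^ P.natDegree) * mV N (fun w => YY f₀ M N P w ^ 2)) +
      τ ^ 4 * mV N (fun w => YY f₀ M N P w ^ 2) ^ 2) ≤
      63488 * |t| ^ 3 / √ℓ ^ 3 + 246016 * t ^ 4 / ℓ ^ 2 := by
    have h5 : ∀ P ∈ I, (2 * (|τ| ^ 3 * (32 * rk k ^ P.natDegree) * mV N (fun w => YY f₀ M N P w ^ 2)) +
        τ ^ 4 * mV N (fun w => YY f₀ M N P w ^ 2) ^ 2) ≤
        (15872 * |τ| ^ 3 + 61504 * τ ^ 4) * rk k ^ (3 * P.natDegree) := by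
      intro P hP
      obtain ⟨y1, y2, y3, y4⟩ := hY P hP
      set e := P.natDegree with he
      set r := rk k ^ e with hr
      have hr0 : 0 < r := by rw [hr]; positivity
      have hr1 : r ≤ 1 := by rw [hr]; exact pow_le_one₀ r0.le (by linarith)
      have hr2 : rk k ^ (2 * e) = r ^ 2 := by rw [hr, ← pow_mul, mul_comm]
      have hr3 : rk k ^ (3 * e) = r ^ 3 := by rw [hr, ← pow_mul, mul_comm]
      rw [hr2, hr3] at y4
      rw [hr3]
      set w := mV N (fun w => YY f₀ M N P w ^ 2) with hw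
      have hw0 : 0 ≤ w := by
        rw [hw, ← mV_const (k := k) N 0]
        exact mV_mono N fun v => sq_nonneg _
      have hw1 : w ≤ 248 * r ^ 2 := by
        have : r ^ 3 ≤ r ^ 2 := pow_le_pow_of_le_one hr0.le hr1 (by norm_num)
        linarith
      have h6 : |τ| ^ 3 * (32 * r) * w ≤ |τ| ^ 3 * (32 * r) * (248 * r ^ 2) :=
        mul_le_mul_of_nonneg_left hw1 (by positivity)
      have h7 : w ^ 2 ≤ (248 * r ^ 2) ^ 2 := pow_le_pow_left₀ hw0 hw1 2
      have h8 : (248 * r ^ 2) ^ 2 ≤ 61504 * r ^ 3 := by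
        have : r ^ 4 ≤ r ^ 3 := pow_le_pow_of_le_one hr0.le hr1 (by norm_num)
        calc (248 * r ^ 2) ^ 2 = 61504 * r ^ 4 := by ring
          _ ≤ _ := by linarith
      have h9 : τ ^ 4 * w ^ 2 ≤ τ ^ 4 * (61504 * r ^ 3) :=
        mul_le_mul_of_nonneg_left (h7.trans h8) (by positivity)
      have e5 : |τ| ^ 3 * (32 * r) * (248 * r ^ 2) = 7936 * |τ| ^ 3 * r ^ 3 := by ring
      rw [e5] at h6
      linarith
    refine (Finset.sum_le_sum h5).trans ?_
    rw [← Finset.mul_sum]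
    have h6 := sum3 (k := k) 0 M
    rw [← hI] at h6
    have h7 : 0 ≤ 15872 * |τ| ^ 3 + 61504 * τ ^ 4 := by positivity
    refine (mul_le_mul_of_nonneg_left h6 h7).trans (le_of_eq ?_)
    rw [hτ3, hτ4]
    ring
  -- the variance
  set V := ∑ P ∈ I, mV N (fun w => YY f₀ M N P w ^ 2) with hV
  have hVt := var_total h2 hf hd hM hMN
  rw [← hI, ← hV] at hVt
  have hV0 : 0 ≤ V := Finset.sum_nonneg fun P _ => by
    rw [← mV_const (k := k) N 0]
    exact mV_mono N fun v => sq_nonneg _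
  have a6 : ‖((Real.exp (-(τ ^ 2 * V / 2)) : ℝ) : ℂ) - ((Real.exp (-(t ^ 2 / 2)) : ℝ) : ℂ)‖ ≤
      t ^ 2 / 2 * ((1300 + (ℓ - Real.log M)) / ℓ) := by
    rw [← Complex.ofReal_sub, Complex.norm_real, Real.norm_eq_abs]
    have hlip : ∀ a b : ℝ, 0 ≤ a → 0 ≤ b → |Real.exp (-a) - Real.exp (-b)| ≤ |a - b| := by
      have aux : ∀ a b : ℝ, 0 ≤ a → a ≤ b → |Real.exp (-a) - Real.exp (-b)| ≤ b - a := by
        intro a b ha hab
        have h5 : Real.exp (-b) ≤ Real.exp (-a) := Real.exp_le_exp.2 (by linarith)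
        rw [abs_of_nonneg (by linarith)]
        have h6 : Real.exp (-b) = Real.exp (-a) * Real.exp (-(b - a)) := by
          rw [← Real.exp_add]
          congr 1
          ring
        have h7 := Real.add_one_le_exp (-(b - a))
        have h8 : Real.exp (-a) ≤ 1 := by
          rw [Real.exp_le_one_iff]
          linarith
        have h9 := Real.exp_pos (-a)
        rw [h6]
        nlinarith
      intro a b ha hb
      rcases le_total a b with h | h
      · rw [abs_sub_comm a b, abs_of_nonneg (by linarith : 0 ≤ b - a)]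
        exact aux a b ha h
      · rw [abs_sub_comm, abs_of_nonneg (by linarith : 0 ≤ a - b)]
        exact aux b a hb h
    refine (hlip _ _ (by positivity) (by positivity)).trans ?_
    have e5 : τ ^ 2 * V / 2 - t ^ 2 / 2 = t ^ 2 / 2 * ((V - ℓ) / ℓ) := by
      rw [hτ2]
      field_simp
    rw [e5, abs_mul, abs_of_nonneg (by positivity : 0 ≤ t ^ 2 / 2), abs_div, abs_of_pos hℓ0]
    refine mul_le_mul_of_nonneg_left ?_ (by positivity)
    refine div_le_div_of_nonneg_right ?_ hℓ0.le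
    have h5 := abs_le.1 hVt
    rw [abs_le]
    constructor <;> linarith [h5.1, h5.2]
  have e9 : ch N (fun v => τ * ∑ P ∈ I, YY f₀ M N P v) - ((Real.exp (-(t ^ 2 / 2)) : ℝ) : ℂ) =
      (ch N (fun v => τ * ∑ P ∈ I, YY f₀ M N P v) - ch N' (fun v => τ * ∑ P ∈ I, YY f₀ M N P v)) +
      (ch N' (fun v => τ * ∑ P ∈ I, YY f₀ M N P v) - ((Real.exp (-(τ ^ 2 * V / 2)) : ℝ) : ℂ)) +
      (((Real.exp (-(τ ^ 2 * V / 2)) : ℝ) : ℂ) - ((Real.exp (-(t ^ 2 / 2)) : ℝ) : ℂ)) := by ring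
  rw [e9]
  refine (norm_add₃_le).trans ?_
  have b1 := a1.trans a3
  have b2 := a4.trans a5
  linarith

end

end Pool.Agent.N430.CV
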