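import Pool.Agent.N430.CV.L3
import Pool.Agent.N430.CV.B10

set_option autoImplicit false
set_option linter.all false

/-! The central limit theorem from above. -/

namespace Pool.Agent.N430.CV

open Finset Polynomial Pool.Agent.N430.BP Pool.Agent.N430.BP.FF Pool.Agent.R410.NG Pool.Agent.N430.RT
open Filter Topology MeasureTheory
open Pool.Agent.N430.CLT (Phi Phi_lip Phi_mono)

/-- the length -/
noncomputable def MM (N : ℕ) : ℕ := N / (⌊√(√(Real.log N))⌋₊ + 1)

lemma log_tend : Tendsto (fun N : ℕ => Real.log N) atTop atTop :=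
  Real.tendsto_log_atTop.comp tendsto_natCast_atTop_atTop

lemma sqrt_tend : Tendsto (fun N : ℕ => √(Real.log N)) atTop atTop :=
  Real.tendsto_sqrt_atTop.comp log_tend

lemma MM_ev (m : ℕ) {δ : ℝ} (hδ : 0 < δ) : ∀ᶠ N : ℕ in atTop, 3 ≤ MM N ∧ (2 * m + 1) * MM N ≤ N ∧
    1 ≤ Real.log N ∧ Real.log (MM N) ≤ Real.log N ∧
    Real.log N - Real.log (MM N) ≤ δ * √(Real.log N) ∧ (N : ℝ) / MM N ≤ δ * √(Real.log N) ∧
    1 ≤ δ * √(Real.log N) := by
  have hs : Tendsto (fun N : ℕ => √(√(Real.log N))) atTop atTop := Real.tendsto_sqrt_atTop.comp sqrt_tend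
  have h1 : ∀ᶠ N : ℕ in atTop, 12 * Real.log N ≤ N := by
    have h2 := (Real.isLittleO_log_id_atTop.def (show (0 : ℝ) < 1 / 12 by norm_num))
    have h3 := tendsto_natCast_atTop_atTop (R := ℝ)
    filter_upwards [h3.eventually h2, eventually_ge_atTop 1] with N hN hN1
    rw [Real.norm_eq_abs, Real.norm_eq_abs, id, abs_of_nonneg (show (0 : ℝ) ≤ (N : ℝ) from Nat.cast_nonneg N)] at hN
    have := (le_abs_self _).trans hN
    linarith
  filter_upwards [h1, hs.eventually_ge_atTop (2 * (m : ℝ) + 1), hs.eventually_ge_atTop (4 / δ + 1),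
    eventually_ge_atTop 1] with N g1 g2 g3 g4
  have hN1 : (1 : ℝ) ≤ N := by exact_mod_cast g4
  have hN0 : (0 : ℝ) < N := by linarith
  set ℓ := Real.log N with hℓ
  set s := √(√ℓ) with hsd
  have hm0 : (0 : ℝ) ≤ m := Nat.cast_nonneg m
  have hs1 : 1 ≤ s := by linarith
  have hs2 : s ^ 2 = √ℓ := Real.sq_sqrt (Real.sqrt_nonneg _)
  have hℓ0 : 0 ≤ ℓ := Real.log_nonneg hN1
  have hs4 : s ^ 4 = ℓ := by
    rw [show s ^ 4 = (s ^ 2) ^ 2 by ring, hs2, Real.sq_sqrt hℓ0]
  have hℓ1 : 1 ≤ ℓ := by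
    rw [← hs4]
    exact one_le_pow₀ hs1
  set w := ⌊s⌋₊ + 1 with hw
  have hwr : (w : ℝ) = (⌊s⌋₊ : ℝ) + 1 := by rw [hw]; push_cast; ring
  have hw1 : s < w := by
    rw [hwr]
    exact Nat.lt_floor_add_one s
  have hw2 : (w : ℝ) ≤ s + 1 := by
    rw [hwr]
    have := Nat.floor_le (by linarith : 0 ≤ s)
    linarith
  have hw0 : 0 < w := by omega
  have hw0r : (0 : ℝ) < w := by exact_mod_cast hw0
  have hs4s : s ≤ ℓ := by
    rw [← hs4]
    calc s = s ^ 1 := (pow_one s).symm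
      _ ≤ s ^ 4 := pow_le_pow_right₀ hs1 (by norm_num)
  have h6w : 6 * w ≤ N := by
    have : 6 * (w : ℝ) ≤ N := by linarith
    exact_mod_cast this
  have hMM : MM N = N / w := rfl
  have hM6 : 6 ≤ MM N := by
    rw [hMM, Nat.le_div_iff_mul_le hw0]
    exact h6w
  have hMw : MM N * w ≤ N := by
    rw [hMM]
    exact Nat.div_mul_le_self N w
  have hMw2 : N < (MM N + 1) * w := by
    rw [hMM, mul_comm]
    exact Nat.lt_mul_div_succ N hw0
  set M := MM N with hM
  have hMr : (6 : ℝ) ≤ M := by exact_mod_cast hM6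
  have hM0 : (0 : ℝ) < M := by linarith
  have h2m : 2 * m + 1 ≤ w := by
    have : (2 * (m : ℝ) + 1) ≤ w := by linarith
    exact_mod_cast this
  have hNM : (N : ℝ) ≤ 2 * w * M := by
    have h5 : (N : ℝ) < ((M : ℝ) + 1) * w := by exact_mod_cast hMw2
    nlinarith
  have hδs : 2 * (s + 1) ≤ δ * s ^ 2 := by
    have h5 : 4 ≤ δ * (s - 1) := by
      have : 4 / δ ≤ s - 1 := by linarith
      rw [div_le_iff₀ hδ] at this
      linarith
    nlinarith
  rw [hs2] at hδs
  have h2w : 2 * (w : ℝ) ≤ δ * √ℓ := by linarith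
  refine ⟨by omega, by nlinarith, hℓ1, Real.log_le_log hM0 (by exact_mod_cast (by nlinarith : M ≤ N)),
    ?_, ?_, by linarith⟩
  · have h5 : ℓ ≤ Real.log (2 * w) + Real.log M := by
      rw [← Real.log_mul (by positivity) (by positivity)]
      exact Real.log_le_log hN0 hNM
    have h6 : Real.log (2 * w) ≤ 2 * w := by
      have := Real.log_le_sub_one_of_pos (show (0 : ℝ) < 2 * w by positivity)
      linarith
    linarith
  · rw [div_le_iff₀ hM0]
    calc (N : ℝ) ≤ 2 * w * M := hNM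
      _ ≤ δ * √ℓ * M := mul_le_mul_of_nonneg_right h2w hM0.le

/-- the class of laws -/
def Cl (N : ℕ) (μ : ProbabilityMeasure ℝ) : Prop :=
  ∃ (k : Type) (_ : Field k) (_ : Fintype k) (f₀ : k[X][X]), ringChar k ≠ 2 ∧ f₀.Monic ∧ f₀.natDegree = 3 ∧
    (μ : Measure ℝ) = lw (fun v : VV k N => (∑ P ∈ PS k 0 (MM N), YY f₀ (MM N) N P ((v.1 : k[X]), (v.2 : k[X]))) /
      √(Real.log N))

lemma Cl_char (t ε : ℝ) (hε : 0 < ε) : ∃ N₀ : ℕ, ∀ N ≥ N₀, ∀ μ, Cl N μ →
    ‖charFun (μ : Measure ℝ) t - Complex.exp (-((t ^ 2 / 2 : ℝ) : ℂ))‖ ≤ ε := by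
  -- the order of the Taylor polynomial
  have h1 : Tendsto (fun m : ℕ => 4 * ((24576 * t ^ 2) ^ m / (m.factorial : ℝ))) atTop (𝓝 0) := by
    have := (FloorSemiring.tendsto_pow_div_factorial_atTop (24576 * t ^ 2)).const_mul 4
    simpa using this
  obtain ⟨m, hm1, hm⟩ := ((eventually_ge_atTop 1).and
    (h1.eventually (gt_mem_nhds (show (0 : ℝ) < ε / 2 by positivity)))).exists
  set C : ℝ := 63488 * |t| ^ 3 + 246016 * t ^ 4 + 651 * t ^ 2 with hC
  have hC0 : 0 ≤ C := by positivity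
  have hev := (MM_ev m (one_pos)).and (sqrt_tend.eventually_ge_atTop (2 * C / ε))
  obtain ⟨N₀, hN₀⟩ := eventually_atTop.1 hev
  refine ⟨N₀, fun N hN μ hμ => ?_⟩
  obtain ⟨⟨c1, c2, c3, c4, c5, c6, c7⟩, c8⟩ := hN₀ N hN
  obtain ⟨k, _, _, f₀, h2, hf, hd, hμ⟩ := hμ
  have key := char_est h2 hf hd c1 hm1 c2 c3 c4 t
  set ℓ := Real.log N with hℓ
  set M := MM N with hM
  have e1 : charFun (μ : Measure ℝ) t = ch N (fun v => t / √ℓ * ∑ P ∈ PS k 0 M, YY f₀ M N P v) := by
    rw [hμ, charFun_lw]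
    unfold ch mV
    have e2 : ∀ v : VV k N, t * ((∑ P ∈ PS k 0 M, YY f₀ M N P ((v.1 : k[X]), (v.2 : k[X]))) / √ℓ) =
        t / √ℓ * ∑ P ∈ PS k 0 M, YY f₀ M N P ((v.1 : k[X]), (v.2 : k[X])) := by
      intro v
      ring
    simp only [e2]
  have e3 : Complex.exp (-((t ^ 2 / 2 : ℝ) : ℂ)) = ((Real.exp (-(t ^ 2 / 2)) : ℝ) : ℂ) := by
    push_cast
    rfl
  rw [e1, e3]
  refine key.trans ?_
  have hs1 : 1 ≤ √ℓ := by
    rw [Real.one_le_sqrt]
    exact c3
  have hs0 : 0 < √ℓ := by linarith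
  have hs2 : √ℓ ^ 2 = ℓ := Real.sq_sqrt (by linarith)
  have b1 : 63488 * |t| ^ 3 / √ℓ ^ 3 ≤ 63488 * |t| ^ 3 / √ℓ := by
    apply div_le_div_of_nonneg_left (by positivity) hs0
    calc √ℓ = √ℓ ^ 1 := (pow_one _).symm
      _ ≤ √ℓ ^ 3 := pow_le_pow_right₀ hs1 (by norm_num)
  have b2 : 246016 * t ^ 4 / ℓ ^ 2 ≤ 246016 * t ^ 4 / √ℓ := by
    apply div_le_div_of_nonneg_left (by positivity) hs0
    calc √ℓ = √ℓ ^ 1 := (pow_one _).symm
      _ ≤ √ℓ ^ 4 := pow_le_pow_right₀ hs1 (by norm_num)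
      _ = (√ℓ ^ 2) ^ 2 := by ring
      _ = ℓ ^ 2 := by rw [hs2]
  have b3 : t ^ 2 / 2 * ((1300 + (ℓ - Real.log M)) / ℓ) ≤ 651 * t ^ 2 / √ℓ := by
    have h5 : (1300 + (ℓ - Real.log M)) / ℓ ≤ 1301 / √ℓ := by
      rw [div_le_div_iff₀ (by linarith) hs0]
      have h6 : 1300 + (ℓ - Real.log M) ≤ 1301 * √ℓ := by linarith
      calc (1300 + (ℓ - Real.log M)) * √ℓ ≤ 1301 * √ℓ * √ℓ := mul_le_mul_of_nonneg_right h6 hs0.le
        _ = 1301 * √ℓ ^ 2 := by ring
        _ = 1301 * ℓ := by rw [hs2]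
    calc t ^ 2 / 2 * ((1300 + (ℓ - Real.log M)) / ℓ) ≤ t ^ 2 / 2 * (1301 / √ℓ) :=
          mul_le_mul_of_nonneg_left h5 (by positivity)
      _ = 650.5 * t ^ 2 / √ℓ := by ring
      _ ≤ _ := by
        apply div_le_div_of_nonneg_right _ hs0.le
        nlinarith [sq_nonneg t]
  have b4 : C / √ℓ ≤ ε / 2 := by
    rw [div_le_iff₀ hs0]
    rw [div_le_iff₀ hε] at c8
    linarith
  have b5 : C / √ℓ = 63488 * |t| ^ 3 / √ℓ + 246016 * t ^ 4 / √ℓ + 651 * t ^ 2 / √ℓ := by
    rw [hC]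
    ring
  linarith

/-- **The central limit theorem from above.** -/
theorem clt_main {κ : ℝ} (hκ : 1 ≤ κ) (x : ℝ) {ε : ℝ} (hε : 0 < ε) :
    ∃ N₀ : ℕ, ∀ (k : Type) [Field k] [Fintype k], ringChar k ≠ 2 →
      ∀ f₀ : k[X][X], f₀.Monic → f₀.natDegree = 3 → ∀ N : ℕ, N₀ ≤ N → ∀ val : VV k N → ℝ,
      Vals f₀ κ N val → mn (fun v => open Classical in
        if Real.exp (x * √(Real.log N) - Real.log N / 2) ≤ val v then (1 : ℝ) else 0) ≤ 1 - Phi x + ε := by
  classical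
  set δ : ℝ := ε / (4 * (84 + 2 * κ)) with hδ
  have hδ0 : 0 < δ := by positivity
  have hδ1 : (83 + 2 * κ) * δ < ε / 4 := by
    have e : (84 + 2 * κ) * δ = ε / 4 := by
      rw [hδ]
      field_simp
    nlinarith
  obtain ⟨N₁, hN₁⟩ := levy Cl Cl_char (x - ε / 4) (ε / 4) (by positivity)
  obtain ⟨N₂, hN₂⟩ := eventually_atTop.1 (MM_ev 1 hδ0)
  refine ⟨max N₁ N₂, fun k _ _ h2 f₀ hf hd N hN val hv => ?_⟩
  obtain ⟨c1, c2, c3, c4, c5, c6, c7⟩ := hN₂ N ((le_max_right _ _).trans hN)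
  set S : VV k N → ℝ := fun v => (∑ P ∈ PS k 0 (MM N), YY f₀ (MM N) N P ((v.1 : k[X]), (v.2 : k[X]))) /
      √(Real.log N) with hS
  have h3 := hN₁ N ((le_max_left _ _).trans hN) ⟨lw S, inferInstance⟩ ⟨k, _, _, f₀, h2, hf, hd, rfl⟩
  change |(lw S (Set.Iic (x - ε / 4))).toReal - Phi (x - ε / 4)| ≤ ε / 4 at h3
  rw [lw_Iic] at h3
  set ℓ := Real.log N with hℓ
  set M := MM N with hM
  have hs0 : 0 < √ℓ := Real.sqrt_pos.2 (by linarith)
  have hMN : M ≤ N := by nlinarith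
  have h4 : mn (fun v => if Real.exp (x * √ℓ - ℓ / 2) ≤ val v then (1 : ℝ) else 0) ≤
      mn (fun v => 1 + (-1) * (if S v ≤ x - ε / 4 then (1 : ℝ) else 0)) := by
    refine mn_mono fun v => ?_
    split_ifs with h5 h6 h6
    · exfalso
      have h8 := (hv v).2.2 M c1
      have h9 := Real.exp_le_exp.1 (h5.trans h8)
      have h10 := sumXX h2 f₀ c1 hMN ((v.1 : k[X]), (v.2 : k[X]))
      have h11 : S v * √ℓ = ∑ P ∈ PS k 0 M, YY f₀ M N P ((v.1 : k[X]), (v.2 : k[X])) := by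
        rw [hS]
        simp only
        rw [div_mul_cancel₀ _ hs0.ne']
      rw [← h11] at h10
      have h12 : S v * √ℓ ≤ (x - ε / 4) * √ℓ := mul_le_mul_of_nonneg_right h6 hs0.le
      have h13 : 2 * (κ * N) / M ≤ 2 * κ * (δ * √ℓ) := by
        calc 2 * (κ * N) / M = 2 * κ * (N / M) := by ring
          _ ≤ _ := mul_le_mul_of_nonneg_left c6 (by positivity)
      have h14 : (83 + 2 * κ) * δ * √ℓ < ε / 4 * √ℓ := mul_lt_mul_of_pos_right hδ1 hs0
      nlinarith
    · norm_num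
    · norm_num
    · norm_num
  refine h4.trans ?_
  rw [mn_add, mn_const, mn_mul_left]
  have h5 := (abs_le.1 h3).1
  have h6 := Phi_lip (s := x - ε / 4) (t := x) (by linarith)
  have h7 : mn (fun v => if S v ≤ x - ε / 4 then (1 : ℝ) else 0) =
      mn (fun v => open Classical in if S v ≤ x - ε / 4 then (1 : ℝ) else 0) := by
    congr 1
  rw [h7]
  linarith

/-- **The central limit theorem from above for a family.** -/
theorem clt_family {κ : ℝ} (hκ : 1 ≤ κ) (x : ℝ) {ε : ℝ} (hε : 0 < ε) :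
    ∃ N₀ : ℕ, ∀ (k : Type) [Field k] [Fintype k], ringChar k ≠ 2 →
      ∀ f₀ : k[X][X], f₀.Monic → f₀.natDegree = 3 → ∀ N : ℕ, N₀ ≤ N →
      ∀ (T : Type) [Fintype T] (w : T → VV k N) (_ : Function.Injective w)
        (E : ∀ v : T, LD f₀ ((w v).1 : k[X]) ((w v).2 : k[X]) (κ * N)),
        (∑ v : T, open Classical in
          if Real.exp (x * √(Real.log N) - Real.log N / 2) ≤ (E v).val then (1 : ℝ) else 0) ≤
          (1 - Phi x + ε) * (Fintype.card k : ℝ) ^ (2 * N) := by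
  classical
  obtain ⟨N₀, H⟩ := clt_main hκ x hε
  refine ⟨N₀, fun k _ _ h2 f₀ hf hd N hN T _ w hw E => ?_⟩
  set val : VV k N → ℝ := fun u => if h : ∃ v, w v = u then (E h.choose).val else 0 with hval
  have hvw : ∀ v, val (w v) = (E v).val := by
    intro v
    have h : ∃ v', w v' = w v := ⟨v, rfl⟩
    have h3 : h.choose = v := hw h.choose_spec
    simp only [hval]
    rw [dif_pos h, h3]
  have hV : Vals f₀ κ N val := by
    intro u
    by_cases h : ∃ v, w v = u
    · obtain ⟨v, rfl⟩ := h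
      rw [hvw]
      obtain ⟨v0, v1⟩ := val_trivial (E v)
      refine ⟨v0, v1, fun M hM => ?_⟩
      exact val_le hf hd (E v) hM
    · have : val u = 0 := by
        simp only [hval]
        rw [dif_neg h]
      rw [this]
      exact ⟨le_rfl, (Real.exp_pos _).le, fun M _ => (Real.exp_pos _).le⟩
  have key := H k h2 f₀ hf hd N hN val hV
  have hc : (0 : ℝ) < Fintype.card (VV k N) := by exact_mod_cast Fintype.card_pos
  unfold mn at key
  rw [div_le_iff₀ hc, card_VV] at key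
  have h3 : (∑ v : T, if Real.exp (x * √(Real.log N) - Real.log N / 2) ≤ (E v).val then (1 : ℝ) else 0) ≤
      ∑ u : VV k N, if Real.exp (x * √(Real.log N) - Real.log N / 2) ≤ val u then (1 : ℝ) else 0 := by
    calc (∑ v : T, if Real.exp (x * √(Real.log N) - Real.log N / 2) ≤ (E v).val then (1 : ℝ) else 0) =
        ∑ v : T, if Real.exp (x * √(Real.log N) - Real.log N / 2) ≤ val (w v) then (1 : ℝ) else 0 :=
          Finset.sum_congr rfl fun v _ => by rw [hvw]
      _ = ∑ u ∈ univ.image w, if Real.exp (x * √(Real.log N) - Real.log N / 2) ≤ val u then (1 : ℝ) else 0 := by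
          rw [Finset.sum_image fun a _ b _ h => hw h]
      _ ≤ _ := Finset.sum_le_sum_of_subset_of_nonneg (subset_univ _) fun u _ _ => by positivity
  refine le_trans ?_ (h3.trans (le_trans ?_ (key.trans (le_of_eq ?_))))
  · refine le_of_eq (Finset.sum_congr rfl fun v _ => ?_)
    congr
  · refine le_of_eq (Finset.sum_congr rfl fun v _ => ?_)
    congr
  · push_cast
    rfl

/-- **The central limit theorem from above over all elliptic curves.** -/
theorem clt_ell (x : ℝ) {ε : ℝ} (hε : 0 < ε) :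
    ∃ d₀ : ℕ, ∀ (k : Type) [Field k] [Fintype k], ringChar k ≠ 2 →
      ∀ d : ℕ, d₀ ≤ d → ∀ (T : Type) [Fintype T] (w : T → k[X] × k[X])
        (_ : Function.Injective w) (_ : ∀ v, (w v).1.degree < 4 * d ∧ (w v).2.degree < 6 * d)
        (E : ∀ v : T, LD (X ^ 3) (w v).1 (w v).2 (12 * d)),
        (∑ v : T, open Classical in
          if Real.exp (x * √(Real.log d) - Real.log d / 2) ≤ (E v).val then (1 : ℝ) else 0) ≤
          (1 - Phi x + ε) * (Fintype.card k : ℝ) ^ (10 * d) := by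
  classical
  obtain ⟨N₀, H⟩ := clt_family (κ := 3) (by norm_num) (x - ε / 2) (ε := ε / 2) (by positivity)
  obtain ⟨d₁, hd₁⟩ := eventually_atTop.1 (log_tend.eventually_ge_atTop (4 * |x| / ε + 1))
  refine ⟨max (max N₀ d₁) 1, fun k _ _ h2 d hdd T _ w hw hdeg E => ?_⟩
  have hd : 1 ≤ d := (le_max_right _ _).trans hdd
  have hdN : N₀ ≤ 4 * d := by
    have := (le_max_left _ _).trans ((le_max_left _ _).trans hdd)
    omega
  have hlogd := hd₁ d ((le_max_right _ _).trans ((le_max_left _ _).trans hdd))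
  -- the thresholds
  have hthr : (x - ε / 2) * √(Real.log ((4 * d : ℕ) : ℝ)) - Real.log ((4 * d : ℕ) : ℝ) / 2 ≤
      x * √(Real.log d) - Real.log d / 2 := by
    have hdr : (1 : ℝ) ≤ d := by exact_mod_cast hd
    have e1 : Real.log ((4 * d : ℕ) : ℝ) = Real.log 4 + Real.log d := by
      push_cast
      rw [Real.log_mul (by norm_num) (by positivity)]
    have hl4 : Real.log 4 ≤ 2 := by
      have h3 : Real.log 4 = 2 * Real.log 2 := by
        rw [show (4 : ℝ) = 2 ^ 2 by norm_num, Real.log_pow]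
        push_cast
        ring
      have := Real.log_two_lt_d9
      linarith
    have hl40 : 0 ≤ Real.log 4 := Real.log_nonneg (by norm_num)
    have hx0 : 0 ≤ 4 * |x| / ε := by positivity
    set a := √(Real.log d) with ha
    set b := √(Real.log ((4 * d : ℕ) : ℝ)) with hb
    have ha2 : a ^ 2 = Real.log d := Real.sq_sqrt (by linarith)
    have hb2 : b ^ 2 = Real.log ((4 * d : ℕ) : ℝ) := Real.sq_sqrt (by rw [e1]; linarith)
    have ha0 : 0 ≤ a := Real.sqrt_nonneg _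
    have hb0 : 0 ≤ b := Real.sqrt_nonneg _
    have hab : a ≤ b := Real.sqrt_le_sqrt (by rw [e1]; linarith)
    have hbpos : 1 ≤ b := by
      rw [hb, Real.one_le_sqrt, e1]
      linarith
    rw [← ha2, ← hb2]
    have h5 : b ^ 2 - a ^ 2 = Real.log 4 := by
      rw [ha2, hb2, e1]
      ring
    have h6 : (b - a) * b ≤ 2 := by nlinarith
    have h7 : 4 * |x| / ε ≤ b ^ 2 := by
      rw [hb2, e1]
      linarith
    rw [div_le_iff₀ hε] at h7
    have h8 : x * (b - a) ≤ |x| * (b - a) := mul_le_mul_of_nonneg_right (le_abs_self x) (by linarith)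
    have h9 : |x| * (b - a) ≤ ε / 2 * b := by
      have h10 : |x| * (b - a) * b ≤ ε / 2 * b * b := by
        have h11 : |x| * ((b - a) * b) ≤ |x| * 2 := mul_le_mul_of_nonneg_left h6 (abs_nonneg x)
        nlinarith
      exact le_of_mul_le_mul_right h10 (by linarith)
    nlinarith
  have : Finite (degreeLT k (2 * d)) := Finite.of_equiv _ (degreeLTEquiv k (2 * d)).toEquiv.symm
  let _ := Fintype.ofFinite (degreeLT k (2 * d))
  have hXm : (X ^ (4 * d) : k[X]).Monic := monic_X_pow _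
  have hdiv : ∀ B : k[X], B = B %ₘ X ^ (4 * d) + X ^ (4 * d) * (B /ₘ X ^ (4 * d)) := fun B =>
    (modByMonic_add_div B _).symm
  have hb1 : ∀ B : k[X], B %ₘ X ^ (4 * d) ∈ degreeLT k (4 * d) := by
    intro B
    rw [mem_degreeLT]
    have := degree_modByMonic_lt B hXm
    rwa [degree_X_pow] at this
  have hb2 : ∀ B : k[X], B.degree < 6 * d → B /ₘ X ^ (4 * d) ∈ degreeLT k (2 * d) := by
    intro B h4
    rw [mem_degreeLT]
    by_cases h0 : B /ₘ X ^ (4 * d) = 0
    · rw [h0, degree_zero]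
      exact WithBot.bot_lt_coe _
    · have hB0 : B ≠ 0 := by
        rintro rfl
        exact h0 (zero_divByMonic _)
      rw [degree_eq_natDegree h0]
      have h5 : (B /ₘ X ^ (4 * d)).natDegree = B.natDegree - 4 * d := by
        rw [natDegree_divByMonic B hXm, natDegree_X_pow]
      have h6 : B.natDegree < 6 * d := by
        have h7 : B.degree < ((6 * d : ℕ) : WithBot ℕ) := by
          push_cast
          exact h4
        exact (natDegree_lt_iff_degree_lt hB0).2 h7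
      rw [h5]
      exact_mod_cast (by omega : B.natDegree - 4 * d < 2 * d)
  have hb3 : ∀ v, (w v).1 ∈ degreeLT k (4 * d) := by
    intro v
    rw [mem_degreeLT]
    push_cast
    exact (hdeg v).1
  set ψ : T → degreeLT k (2 * d) := fun v => ⟨_, hb2 _ (hdeg v).2⟩ with hψ
  have hK : (12 * (d : ℝ)) = 3 * ((4 * d : ℕ) : ℝ) := by
    push_cast
    ring
  have h5 : ∀ b : degreeLT k (2 * d), (∑ v : {v : T // ψ v = b},
      if Real.exp (x * √(Real.log d) - Real.log d / 2) ≤ (E v.1).val then (1 : ℝ) else 0) ≤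
      (1 - Phi (x - ε / 2) + ε / 2) * (Fintype.card k : ℝ) ^ (2 * (4 * d)) := by
    intro b
    have hB : ∀ v : {v : T // ψ v = b}, (w v.1).2 = (w v.1).2 %ₘ X ^ (4 * d) + X ^ (4 * d) * (b : k[X]) := by
      rintro ⟨v, rfl⟩
      exact hdiv _
    have h6 := H k h2 (X ^ 3 + Polynomial.C (X ^ (4 * d) * (b : k[X])))
      (monic_X_pow_add_C _ (by norm_num)) (natDegree_X_pow_add_C) (4 * d) hdN {v : T // ψ v = b}
      (fun v => (⟨(w v.1).1, hb3 v.1⟩, ⟨(w v.1).2 %ₘ X ^ (4 * d), hb1 _⟩)) (by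
        intro v v' hvv
        apply Subtype.ext
        apply hw
        have h7 : (w v.1).1 = (w v'.1).1 := congrArg (fun z => (z.1 : k[X])) hvv
        have h8 : (w v.1).2 %ₘ X ^ (4 * d) = (w v'.1).2 %ₘ X ^ (4 * d) :=
          congrArg (fun z => (z.2 : k[X])) hvv
        refine Prod.ext h7 ?_
        rw [hB v, hB v', h8])
      (fun v => ((E v.1).trans (hB v) hK).shift)
    refine le_trans (Finset.sum_le_sum fun v _ => ?_) h6
    have e6 : ((E v.1).trans (hB v) hK).shift.val = (E v.1).val := rfl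
    rw [e6]
    split_ifs with g1 g2 g2
    · exact le_rfl
    · exact absurd ((Real.exp_le_exp.2 hthr).trans g1) g2
    · norm_num
    · exact le_rfl
  have hcard : (Fintype.card (degreeLT k (2 * d)) : ℝ) = (Fintype.card k : ℝ) ^ (2 * d) := by
    rw [← Nat.card_eq_fintype_card, Nat.card_congr (degreeLTEquiv k (2 * d)).toEquiv,
      Nat.card_eq_fintype_card, Fintype.card_fun, Fintype.card_fin]
    push_cast
    rfl
  have h6 : (∑ v : T, if Real.exp (x * √(Real.log d) - Real.log d / 2) ≤ (E v).val then (1 : ℝ) else 0) ≤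
      (1 - Phi (x - ε / 2) + ε / 2) * (Fintype.card k : ℝ) ^ (10 * d) := by
    rw [← Fintype.sum_fiberwise ψ]
    refine (sum_le_sum fun b _ => h5 b).trans (le_of_eq ?_)
    rw [sum_const, card_univ, nsmul_eq_mul, hcard]
    have h8 : (Fintype.card k : ℝ) ^ (10 * d) = (Fintype.card k : ℝ) ^ (2 * d) *
        (Fintype.card k : ℝ) ^ (2 * (4 * d)) := by
      rw [← pow_add]
      congr 1
      ring
    rw [h8]
    ring
  refine h6.trans (mul_le_mul_of_nonneg_right ?_ (by positivity))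
  have := Phi_lip (s := x - ε / 2) (t := x) (by linarith)
  linarith

end Pool.Agent.N430.CV
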